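import Pool.Agent.MP_5daf37_lc.Defs

-- ======== part 0: formerly Pool.Agent.MP_5daf37_lc.FC.Spec
section MrgPart0

/-!
Linear circuits with few distinct scalars: definitions and the statements of the steps.
-/

open Matrix

namespace Pool.Agent.MP_5daf37_lc.FC

/-- Integer polynomials in the variables `σ`. -/
abbrev ZP (σ : Type) := MvPolynomial σ ℤ

/-- The size of an integer polynomial: the sum of `|a m| * 2 ^ deg m`. -/
noncomputable def nu {σ : Type} (P : ZP σ) : ℕ :=
  ∑ m ∈ P.support, (P.coeff m).natAbs * 2 ^ (m.sum fun _ e => e)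

/-- Evaluation of an integer polynomial. -/
noncomputable abbrev ev {σ S : Type} [CommRing S] (f : σ → S) : ZP σ →ₐ[ℤ] S :=
  MvPolynomial.aeval f

/-- Evaluation of all variables but `none`, which becomes the variable of `S[X]`. -/
noncomputable def evX {τ S : Type} [CommRing S] (f : τ → S) : ZP (Option τ) →ₐ[ℤ] Polynomial S :=
  MvPolynomial.aeval fun o => o.elim Polynomial.X fun t => Polynomial.C (f t)

/-- The universal line through the point `y`. -/
noncomputable def arc {σ : Type} (y : σ → ℂ) (i : σ) : Polynomial (MvPolynomial σ ℂ) :=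
  Polynomial.C (MvPolynomial.C (y i)) + Polynomial.C (MvPolynomial.X i) * Polynomial.X

/-- The universal line through `y`, as power series. -/
noncomputable def arcS {σ : Type} (y : σ → ℂ) (i : σ) : PowerSeries (MvPolynomial σ ℂ) :=
  (arc y i : PowerSeries (MvPolynomial σ ℂ))

/-- `P` vanishes to order at least `r` at `y`. -/
def Ord {σ : Type} (y : σ → ℂ) (r : ℕ) (P : ZP σ) : Prop :=
  (Polynomial.X : Polynomial (MvPolynomial σ ℂ)) ^ r ∣ ev (arc y) P

/-- `x` is integral over the ring generated by the `u i`. -/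
def Intg {σ F : Type} [CommRing F] (u : σ → F) (x : F) : Prop :=
  IsIntegral (ev u).range.toSubring x

/-- The index set of the Walsh-Hadamard matrix. -/
abbrev Ix (L : ℕ) := Fin L → ZMod 2

/-- The character `(-1) ^ (a . x)`. -/
def chi {L : ℕ} (a x : Ix L) : ℤ := ∏ l, if a l = 1 ∧ x l = 1 then -1 else 1

/-- The Walsh-Hadamard matrix. -/
def Hm (L : ℕ) (T : Type) [CommRing T] : Matrix (Ix L) (Ix L) T := of fun x y => (chi x y : T)

/-- The twisted commutator with a Pauli matrix; it kills `Hm`. -/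
def Mg {L : ℕ} {T : Type} [CommRing T] (a b : Ix L) (A : Matrix (Ix L) (Ix L) T) :
    Matrix (Ix L) (Ix L) T :=
  of fun x y => (chi a x : T) * A (x + b) y - (chi b y : T) * A x (y + a)

section circuit
variable {F : Type} {n p q : ℕ}

/-- The weighted adjacency matrix of the circuit for the weights `w`. -/
def Wm {T : Type} [CommRing T] (C : Circuit F n p q) (w : Fin q → T) : Matrix (Fin p) (Fin p) T :=
  of fun v u => ∑ e, if C.head e = v ∧ C.tail e = u then w e else 0

/-- The matrix that feeds the inputs `f j` to the sources. -/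
def Bm {ι : Type} (T : Type) [CommRing T] (C : Circuit F n p q) (f : ι → Fin n) :
    Matrix (Fin p) ι T :=
  of fun v j => if (∀ e, C.head e ≠ v) ∧ C.label v = f j then 1 else 0

/-- The matrix that reads the outputs `f i`. -/
def Cm {ι : Type} (T : Type) [CommRing T] (C : Circuit F n p q) (f : ι → Fin n) :
    Matrix ι (Fin p) T :=
  of fun i v => if C.output (f i) = v then 1 else 0

/-- The matrix computed by the circuit for the weights `w`, on the rows and columns `f`. -/
def Tm {ι T : Type} [CommRing T] (C : Circuit F n p q) (f : ι → Fin n) (w : Fin q → T) :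
    Matrix ι ι T :=
  Cm T C f * (1 - Wm C w).adjugate * Bm T C f

end circuit

/-- Minors of the twisted commutators are small. -/
def P1 {k L : ℕ} (s : ℕ) (A : Matrix (Ix L) (Ix L) (ZP (Fin k))) : Prop :=
  ∀ (a b : Ix L) (r : ℕ) (x y : Fin r → Ix L), Function.Injective y →
    nu ((Mg a b A).submatrix x y).det ≤ 2 ^ (2 * s + r)

/-- Mixed determinants have degree at most `s` in the scalars. -/
def P2 {k L : ℕ} (s : ℕ) (A : Matrix (Ix L) (Ix L) (ZP (Fin k))) : Prop :=
  ∀ (T μ : Type) [CommRing T] [Fintype μ] [DecidableEq μ] (O : Subring T) (b : T) (ζ : Fin k → T)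
    (U : Matrix μ (Ix L) T) (V : Matrix (Ix L) μ T) (Z : Matrix μ μ T), b ∈ O →
    (∀ j, b * ζ j ∈ O) → (∀ i j, U i j ∈ O) → (∀ i j, V i j ∈ O) → (∀ i j, Z i j ∈ O) →
    b ^ s * (Z + U * A.map (ev ζ) * V).det ∈ O

/-- Morgenstern type bound. -/
def P3 {k L : ℕ} (s : ℕ) (A : Matrix (Ix L) (Ix L) (ZP (Fin k))) : Prop :=
  ∀ (y : Fin k → ℂ) (R : ℝ) (Z : Matrix (Ix L) (Ix L) ℂ), 1 ≤ R → (∀ j, ‖y j‖ ≤ R) →
    (∀ i, ∑ j, ‖Z i j‖ ^ 2 ≤ 1) → ‖(Z + A.map (ev y)).det‖ ≤ (2 * R) ^ s * 2 ^ 2 ^ L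

/-- Every scalar `c j` is a root of a small polynomial over the point `y`. -/
def St {d k : ℕ} (B : ℕ) (c : Fin k → ℂ) (y : Fin d → ℂ) (G : Fin k → ZP (Option (Fin d))) : Prop :=
  ∀ j, nu (G j) ≤ 2 ^ B ∧ evX y (G j) ≠ 0 ∧ (evX y (G j)).eval (c j) = 0

/-- A point of the unit circle above the Mahler measure. -/
def SUP1 : Prop := ∀ g : Polynomial ℂ, ∃ w : ℂ, ‖w‖ = 1 ∧ g.mahlerMeasure ≤ ‖g.eval w‖

/-- A nonzero integer polynomial reaches modulus one on the torus. -/
def SUPZ : Prop := ∀ (d : ℕ) (P : ZP (Fin d)), P ≠ 0 →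
  ∃ z : Fin d → ℂ, (∀ i, ‖z i‖ = 1) ∧ 1 ≤ ‖ev z P‖

/-- Gelfond inequality for the factors of an integer polynomial. -/
def GEL : Prop := ∀ (d : ℕ) (s : Multiset (ZP (Fin d))), s.prod ≠ 0 →
  (s.map nu).prod ≤ nu s.prod ^ (4 * d + 4)

/-- Elimination of one variable by a resultant. -/
def ELIM : Prop := ∀ (τ S : Type) [CommRing S] [IsDomain S] [CharZero S] (f : τ → S) (ζ : S)
  (p G : ZP (Option τ)) (a b : ℕ), 1 ≤ a → 1 ≤ b → nu p ≤ 2 ^ a → nu G ≤ 2 ^ b →
  evX f p ≠ 0 → (evX f p).eval ζ = 0 → (evX f G).eval ζ ≠ 0 →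
  ∃ G' : ZP τ, ev f G' ≠ 0 ∧ (evX f G).eval ζ ∣ ev f G' ∧ nu G' ≤ 2 ^ (3 * a * b)

/-- A multiple point of an irreducible polynomial descends to the discriminant. -/
def RES : Prop := ∀ (τ : Type) (y : Option τ → ℂ) (P : ZP (Option τ)) (B ρ : ℕ), Irreducible P →
  1 ≤ B → 2 ≤ ρ → Ord y ρ P → nu P ≤ 2 ^ (B * ρ) →
  ∃ (D : ZP τ) (t : ℕ), D ≠ 0 ∧ 1 ≤ t ∧ Ord (fun i => y (some i)) t D ∧ nu D ≤ 2 ^ (16 * B ^ 2 * t)

/-- Key lemma: small size relative to the order gives a relation of bounded size. -/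
def KL : Prop := ∀ (d : ℕ) (y : Fin d → ℂ) (D : ZP (Fin d)) (B r : ℕ), 1 ≤ B → 1 ≤ r → D ≠ 0 →
  Ord y r D → nu D ≤ 2 ^ (B * r) →
  ∃ P : ZP (Fin d), P ≠ 0 ∧ ev y P = 0 ∧ nu P ≤ 2 ^ (256 * (d + 1) ^ 2 * B) ^ 2 ^ d

/-- A relation lowers the number of parameters. -/
def TRANS : Prop := ∀ (d k a B : ℕ) (c : Fin k → ℂ) (y : Fin (d + 1) → ℂ)
  (G : Fin k → ZP (Option (Fin (d + 1)))) (P : ZP (Fin (d + 1))), 1 ≤ a → 1 ≤ B → St B c y G →
  P ≠ 0 → ev y P = 0 → nu P ≤ 2 ^ a →
  ∃ (y' : Fin d → ℂ) (G' : Fin k → ZP (Option (Fin d))), St (3 * a * B) c y' G'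

/-- A branch through a root, by the lemma of Hensel. -/
def HENS : Prop := ∀ (σ : Type) (y : σ → ℂ) (c : ℂ) (G : ZP (Option σ)) (B : ℕ), nu G ≤ 2 ^ B →
  evX y G ≠ 0 → (evX y G).eval c = 0 →
  ∃ (G' : ZP (Option σ)) (ζ : PowerSeries (MvPolynomial σ ℂ)), nu G' ≤ 2 ^ (B ^ 2 + B) ∧
    evX (arcS y) G' ≠ 0 ∧ (evX (arcS y) G').eval ζ = 0 ∧
    PowerSeries.constantCoeff ζ = MvPolynomial.C c

/-- The norm of a polynomial in the algebraic quantities. -/
def NORM : Prop := ∀ (k : ℕ) (σ S : Type) [CommRing S] [IsDomain S] [CharZero S] (u : σ → S)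
  (ζ : Fin k → S) (G : Fin k → ZP (Option σ)) (D : ZP (Fin k)) (a b : ℕ), 1 ≤ a → 1 ≤ b →
  (∀ j, nu (G j) ≤ 2 ^ a ∧ evX u (G j) ≠ 0 ∧ (evX u (G j)).eval (ζ j) = 0) → nu D ≤ 2 ^ b →
  ev ζ D ≠ 0 → ∃ D' : ZP σ, ev u D' ≠ 0 ∧ ev ζ D ∣ ev u D' ∧ nu D' ≤ 2 ^ ((3 * a) ^ k * b)

/-- The determinant of a deformation of a matrix of small rank vanishes to high order. -/
def ORD : Prop := ∀ (K S ι : Type) [Field K] [CommRing S] [Fintype ι] [DecidableEq ι]
  (φ : K →+* S) (ε : S) (N₀ : Matrix ι ι K) (N : Matrix ι ι S) (m : ℕ),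
  (∀ i j, ε ∣ N i j - φ (N₀ i j)) → N₀.rank + m ≤ Fintype.card ι → ε ^ m ∣ N.det

/-- An almost invariant subspace is close to an invariant one. -/
def MED : Prop := ∀ (F V Γ : Type) [Field F] [AddCommGroup V] [Module F V] [FiniteDimensional F V]
  [Fintype Γ] [Nonempty Γ] (W : Submodule F V) (e : Γ → V →ₗ[F] V) (t : ℕ),
  (∀ g, Function.Injective (e g)) →
  (∀ g, ∃ π : Γ ≃ Γ, ∀ δ, (W.map (e δ)).map (e g) = W.map (e (π δ))) →
  (∀ g, Module.finrank F ↥(W ⊔ W.map (e g)) ≤ Module.finrank F W + t) →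
  ∃ U : Submodule F V, (∀ g, U.map (e g) = U) ∧
    2 * Module.finrank F ↥(U ⊔ W) ≤ Module.finrank F U + Module.finrank F W + 2 * t

/-- Rigidity: almost commuting with the Pauli matrices forces a multiple of `Hm`. -/
def RIG : Prop := ∀ (L t : ℕ) (F : Type) [Field F] [CharZero F] (A : Matrix (Ix L) (Ix L) F),
  (∀ a b, (Mg a b A).rank ≤ t) → 2 * t < 2 ^ L → ∃ lam : F, (A - lam • Hm L F).rank ≤ t

/-- First property of the matrix of a circuit. -/
def CIRC1 : Prop := ∀ (F : Type) (n p q k L : ℕ) (C : Circuit F n p q) (f : Ix L → Fin n)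
  (w : Fin q → ZP (Fin k)), Function.Injective f → (∀ e, nu (w e) ≤ 2) → P1 (p + q) (Tm C f w)

/-- Second property of the matrix of a circuit. -/
def CIRC2 : Prop := ∀ (F : Type) (n p q k L : ℕ) (C : Circuit F n p q) (f : Ix L → Fin n)
  (w : Fin q → ZP (Fin k)), (∀ e, w e = 0 ∨ ∃ j, w e = MvPolynomial.X j) → P2 (p + q) (Tm C f w)

/-- Third property of the matrix of a circuit. -/
def CIRC3 : Prop := ∀ (F : Type) (n p q k L : ℕ) (C : Circuit F n p q) (f : Ix L → Fin n)
  (w : Fin q → ZP (Fin k)), Function.Injective f → (∀ e, w e = 0 ∨ ∃ j, w e = MvPolynomial.X j) →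
  P3 (p + q) (Tm C f w)

/-- The circuit computes its matrix, and changing few weights changes the rank little. -/
def CIRC0 : Prop := ∀ (F : Type) [Field F] (φ : F →+* ℂ) (n p q : ℕ) (ι : Type) [Fintype ι]
  [DecidableEq ι] (C : Circuit F n p q) (A : Matrix (Fin n) (Fin n) F) (f : ι → Fin n)
  (w : Fin q → ℂ) (E : Finset (Fin q)), C.Computes A → (∀ e, e ∉ E → w e = φ (C.weight e)) →
  (Tm C f w - (A.submatrix f f).map φ).rank ≤ E.card

/-- The archimedean bound for the multiplier. -/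
def ARCH : Prop := ∀ (k L s e : ℕ) (A : Matrix (Ix L) (Ix L) (ZP (Fin k))) (y : Fin k → ℂ) (R : ℝ)
  (μ : ℂ), P3 s A → 1 ≤ R → (∀ j, ‖y j‖ ≤ R) → 2 * s ≤ e * 2 ^ L →
  2 * (A.map (ev y) - μ • Hm L ℂ).rank ≤ 2 ^ L → ‖μ‖ * √(2 ^ L) ≤ 5 * (2 * R) ^ e

/-- The integrality of an eigenvalue of high multiplicity. -/
def INT : Prop := ∀ (k L s m e : ℕ) (A : Matrix (Ix L) (Ix L) (ZP (Fin k))) (F μ : Type) [Field F]
  [Fintype μ] [DecidableEq μ] (O : Subring F) (b z : F) (ζ : Fin k → F) (U : Matrix μ (Ix L) ℤ)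
  (V : Matrix (Ix L) μ ℤ), P2 s A → b ∈ O → (∀ j, IsIntegral O (b * ζ j)) → 0 < m → s ≤ e * m →
  (U.map (Int.castRingHom F) * A.map (ev ζ) * V.map (Int.castRingHom F) -
    z • (1 : Matrix μ μ F)).rank + m ≤ Fintype.card μ → IsIntegral O (b ^ e * z)

/-- A complex point over the torus at which an integral element is not small. -/
def ROOT : Prop := ∀ (d : ℕ) (τ F : Type) [Field F] (u : Fin d → F) (ξ : τ → F) (s : ZP (Fin d))
  (β : F), Function.Injective (ev u) → s ≠ 0 → (∀ t, ∃ N : ℕ, Intg u (ev u s ^ N * ξ t)) →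
  Intg u β → β ≠ 0 →
  ∃ (R : Type) (_ : CommRing R) (ι : R →+* F) (φ : R →+* ℂ) (u' : Fin d → R) (ξ' : τ → R) (β' : R),
    Function.Injective ι ∧ (∀ i, ι (u' i) = u i) ∧ (∀ t, ι (ξ' t) = ξ t) ∧ ι β' = β ∧
    (∀ i, ‖φ (u' i)‖ = 1) ∧ ev (fun i => φ (u' i)) s ≠ 0 ∧ 1 ≤ (nu s : ℝ) * ‖φ β'‖

/-- The number of ones of a vector. -/
def wt {L : ℕ} (x : Ix L) : ℕ := (Finset.univ.filter fun l => x l = 1).card

/-- Many vectors have weight well below one half. -/
def BINOM : Prop := ∀ L T : ℕ, 16 * T ^ 2 ≤ L →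
  2 ^ L ≤ 4 * (Finset.univ.filter fun x : Ix L => wt x ≤ L / 2 - T).card

/-- Part of the Smith form of the Walsh-Hadamard matrix. -/
def SMITH : Prop := ∀ L j : ℕ, ∃ (U : Matrix {x : Ix L // wt x ≤ j} (Ix L) ℤ)
  (V : Matrix (Ix L) {x : Ix L // wt x ≤ j} ℤ), U * Hm L ℤ * V = ((2 : ℤ) ^ j) • 1

/-- The product formula contradiction on a branch where the matrix is close to a multiple of
`Hm`. -/
def CASEB : Prop := ∀ (k d L s g B : ℕ) (A : Matrix (Ix L) (Ix L) (ZP (Fin k))) (F : Type) [Field F]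
  [CharZero F] (u : Fin d → F) (ζ : Fin k → F) (G : Fin k → ZP (Option (Fin d))) (lam : F),
  P2 s A → P3 s A → s ≤ g * 2 ^ L → 1 ≤ g → 1 ≤ B → Function.Injective (ev u) →
  (∀ j, nu (G j) ≤ 2 ^ B ∧ G j ≠ 0 ∧ (evX u (G j)).eval (ζ j) = 0) → lam ≠ 0 →
  8 * (A.map (ev ζ) - lam • Hm L F).rank ≤ 2 ^ L → L ≤ (64 * g * (k + 1) * B) ^ 2

/-- One round: the bound holds, or there is a new relation. -/
def STEP : Prop := ∀ (k d L s g B : ℕ) (A : Matrix (Ix L) (Ix L) (ZP (Fin k))) (c : Fin k → ℂ)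
  (y : Fin d → ℂ) (G : Fin k → ZP (Option (Fin d))), P1 s A → P2 s A → P3 s A → s ≤ g * 2 ^ L →
  1 ≤ g → 1 ≤ B → 32 * (A.map (ev c) - Hm L ℂ).rank ≤ 2 ^ L → St B c y G →
  L ≤ (64 * g * (k + 1) * (B ^ 2 + B)) ^ 2 ∨ ∃ P : ZP (Fin d), P ≠ 0 ∧ ev y P = 0 ∧
    nu P ≤ 2 ^ (256 * (d + 1) ^ 2 * (16 * (2 * g + 1) * (3 * (B ^ 2 + B)) ^ k)) ^ 2 ^ d

end Pool.Agent.MP_5daf37_lc.FC

end MrgPart0

-- ======== part 1: formerly Pool.Agent.MP_5daf37_lc.FC.Basic
section MrgPart1

/-!
Elementary properties of the size, of the evaluations and of the order of vanishing.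
-/

open Matrix MvPolynomial

namespace Pool.Agent.MP_5daf37_lc.FC

variable {σ τ : Type}

theorem nu_eq_of_subset (P : ZP σ) {s : Finset (σ →₀ ℕ)} (h : P.support ⊆ s) :
    nu P = ∑ m ∈ s, (P.coeff m).natAbs * 2 ^ (m.sum fun _ e => e) :=
  Finset.sum_subset h fun m _ hm => by rw [notMem_support_iff.1 hm]; simp

@[simp] theorem nu_zero : nu (0 : ZP σ) = 0 := by simp [nu]

theorem nu_add (P Q : ZP σ) : nu (P + Q) ≤ nu P + nu Q := by
  classical
  rw [nu_eq_of_subset (P + Q) support_add, nu_eq_of_subset P Finset.subset_union_left,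
    nu_eq_of_subset Q Finset.subset_union_right, ← Finset.sum_add_distrib]
  refine Finset.sum_le_sum fun m _ => ?_
  rw [← add_mul, coeff_add]
  exact Nat.mul_le_mul_right _ (Int.natAbs_add_le _ _)

@[simp] theorem nu_neg (P : ZP σ) : nu (-P) = nu P := by simp [nu]

theorem nu_sub (P Q : ZP σ) : nu (P - Q) ≤ nu P + nu Q := by
  rw [sub_eq_add_neg]; exact (nu_add _ _).trans (by rw [nu_neg])

theorem nu_monomial (m : σ →₀ ℕ) (a : ℤ) :
    nu (monomial m a : ZP σ) = a.natAbs * 2 ^ (m.sum fun _ e => e) := by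
  classical
  rw [nu_eq_of_subset _ support_monomial_subset]; simp

@[simp] theorem nu_C (a : ℤ) : nu (C a : ZP σ) = a.natAbs := by
  rw [← monomial_zero', nu_monomial]; simp

@[simp] theorem nu_intCast (a : ℤ) : nu (a : ZP σ) = a.natAbs := by
  rw [← nu_C (σ := σ) a]; simp

@[simp] theorem nu_natCast (a : ℕ) : nu (a : ZP σ) = a := by
  have := nu_intCast (σ := σ) a; simpa using this

@[simp] theorem nu_one : nu (1 : ZP σ) = 1 := by have := nu_natCast (σ := σ) 1; simpa using this

@[simp] theorem nu_X (i : σ) : nu (X i : ZP σ) = 2 := by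
  rw [X, nu_monomial]; simp

theorem nu_sum {ι : Type*} (s : Finset ι) (f : ι → ZP σ) : nu (∑ i ∈ s, f i) ≤ ∑ i ∈ s, nu (f i) :=
  Finset.le_sum_of_subadditive nu nu_zero.le nu_add s f

theorem nu_mul (P Q : ZP σ) : nu (P * Q) ≤ nu P * nu Q := by
  conv_lhs => rw [P.as_sum, Q.as_sum, Finset.sum_mul_sum]
  refine (nu_sum _ _).trans ?_
  rw [nu, nu, Finset.sum_mul_sum]
  refine Finset.sum_le_sum fun m _ => (nu_sum _ _).trans (Finset.sum_le_sum fun m' _ => ?_)
  rw [monomial_mul, nu_monomial, Finsupp.sum_add_index' (by simp) (by simp), Int.natAbs_mul,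
    pow_add]
  exact le_of_eq (by ring)

theorem nu_prod {ι : Type*} (s : Finset ι) (f : ι → ZP σ) : nu (∏ i ∈ s, f i) ≤ ∏ i ∈ s, nu (f i) :=
  Finset.le_prod_of_submultiplicative nu nu_one.le nu_mul s f

theorem nu_pow (P : ZP σ) (k : ℕ) : nu (P ^ k) ≤ nu P ^ k := by
  simpa using nu_prod (Finset.range k) fun _ => P

theorem term_le_nu (P : ZP σ) (m : σ →₀ ℕ) :
    (P.coeff m).natAbs * 2 ^ (m.sum fun _ e => e) ≤ nu P := by
  by_cases h : m ∈ P.support
  · exact Finset.single_le_sum (f := fun m => (P.coeff m).natAbs * 2 ^ (m.sum fun _ e => e))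
      (fun _ _ => Nat.zero_le _) h
  · rw [notMem_support_iff.1 h]; simp

theorem two_pow_totalDegree_le {P : ZP σ} (h : P ≠ 0) : 2 ^ P.totalDegree ≤ nu P := by
  obtain ⟨m, hm, e⟩ := Finset.exists_mem_eq_sup P.support (support_nonempty.2 h)
    fun s => s.sum fun _ e => e
  rw [totalDegree, e]
  exact (Nat.le_mul_of_pos_left _ (Int.natAbs_pos.2 (mem_support_iff.1 hm))).trans (term_le_nu P m)

theorem nu_pos {P : ZP σ} (h : P ≠ 0) : 1 ≤ nu P :=
  Nat.one_le_two_pow.trans (two_pow_totalDegree_le h)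

theorem nu_rename_le (f : σ → τ) (P : ZP σ) : nu (rename f P) ≤ nu P := by
  conv_lhs => rw [P.as_sum, map_sum]
  refine (nu_sum _ _).trans (Finset.sum_le_sum fun m _ => ?_)
  rw [rename_monomial, nu_monomial, Finsupp.sum_mapDomain_index (by simp) (by simp)]

theorem nu_det_col {ι : Type} [Fintype ι] [DecidableEq ι] (M : Matrix ι ι (ZP σ)) :
    nu M.det ≤ ∏ j, ∑ i, nu (M i j) := by
  rw [det_apply, Finset.prod_univ_sum, Fintype.piFinset_univ]
  refine (nu_sum _ _).trans ?_
  have h : ∀ s : Equiv.Perm ι, nu (Equiv.Perm.sign s • ∏ i, M (s i) i) ≤ ∏ j, nu (M (s j) j) :=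
    fun s => by
      rcases Int.units_eq_one_or (Equiv.Perm.sign s) with h | h <;> rw [h] <;>
        simpa using nu_prod Finset.univ fun i => M (s i) i
  refine (Finset.sum_le_sum fun s _ => h s).trans ?_
  rw [← Finset.sum_image (s := Finset.univ) (g := fun s : Equiv.Perm ι => (s : ι → ι))
    (f := fun s : ι → ι => ∏ j, nu (M (s j) j)) fun _ _ _ _ h => DFunLike.coe_injective h]
  exact Finset.sum_le_sum_of_subset (Finset.subset_univ _)

theorem nu_det_row {ι : Type} [Fintype ι] [DecidableEq ι] (M : Matrix ι ι (ZP σ)) :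
    nu M.det ≤ ∏ i, ∑ j, nu (M i j) := by
  rw [← det_transpose]; exact nu_det_col _

/-- The polynomial in the variable `none`. -/
noncomputable abbrev toP (P : ZP (Option τ)) : Polynomial (ZP τ) := optionEquivLeft ℤ τ P

/-- Back from polynomials in the variable `none`. -/
noncomputable abbrev ofP (Q : Polynomial (ZP τ)) : ZP (Option τ) := (optionEquivLeft ℤ τ).symm Q

@[simp] theorem toP_ofP (Q : Polynomial (ZP τ)) : toP (ofP Q) = Q := AlgEquiv.apply_symm_apply _ _

@[simp] theorem ofP_toP (P : ZP (Option τ)) : ofP (toP P) = P := AlgEquiv.symm_apply_apply _ _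

theorem toP_rename (a : ZP τ) : toP (rename some a) = Polynomial.C a := by
  have : (optionEquivLeft ℤ τ).toAlgHom.comp (rename some) = Polynomial.CAlgHom := by
    ext i : 1; simp [optionEquivLeft_X_some]
  exact DFunLike.congr_fun this a

theorem ofP_C (a : ZP τ) : ofP (Polynomial.C a) = rename some a := by rw [← toP_rename, ofP_toP]

theorem nu_ofP_le (Q : Polynomial (ZP τ)) {s : Finset ℕ} (h : Q.support ⊆ s) :
    nu (ofP Q) ≤ ∑ i ∈ s, nu (Q.coeff i) * 2 ^ i := by
  refine le_trans ?_ (Finset.sum_le_sum_of_subset h)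
  conv_lhs => rw [Q.as_sum_support_C_mul_X_pow, ofP, map_sum]
  refine (nu_sum _ _).trans (Finset.sum_le_sum fun i _ => ?_)
  rw [map_mul, map_pow, optionEquivLeft_symm_X]
  refine (nu_mul _ _).trans (Nat.mul_le_mul ?_ ((nu_pow _ _).trans (by simp)))
  exact (congrArg nu (ofP_C _)).le.trans (nu_rename_le _ _)

theorem sum_coeff_le_nu (P : ZP (Option τ)) (s : Finset ℕ) :
    ∑ i ∈ s, nu ((toP P).coeff i) * 2 ^ i ≤ nu P := by
  classical
  have h : ∀ i, nu ((toP P).coeff i) * 2 ^ i = ∑ m ∈ P.support with m none = i,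
      (P.coeff m).natAbs * 2 ^ (m.sum fun _ e => e) := fun i => by
    rw [nu, Finset.sum_mul]
    refine Finset.sum_bij' (fun m _ => m.optionElim i) (fun m _ => m.some) ?_ ?_ ?_ ?_ ?_
    · intro m hm
      simpa using (mem_support_coeff_optionEquivLeft ℤ).1 hm
    · intro m hm
      obtain ⟨h1, rfl⟩ := Finset.mem_filter.1 hm
      exact (mem_support_coeff_optionEquivLeft ℤ).2 (by simpa using h1)
    · intro m _; simp
    · intro m hm
      obtain ⟨-, rfl⟩ := Finset.mem_filter.1 hm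
      simp
    · intro m _
      rw [optionEquivLeft_coeff_coeff, Finsupp.sum_option_index _ _ (by simp) (by simp)]
      simp [pow_add, mul_comm, mul_left_comm]
  simp_rw [h]
  rw [Finset.sum_fiberwise_eq_sum_filter]
  exact Finset.sum_le_sum_of_subset (Finset.filter_subset _ _)

theorem nu_coeff_le (P : ZP (Option τ)) (i : ℕ) : nu ((toP P).coeff i) * 2 ^ i ≤ nu P := by
  simpa using sum_coeff_le_nu P {i}

theorem sum_nu_coeff_le (P : ZP (Option τ)) (s : Finset ℕ) :
    ∑ i ∈ s, nu ((toP P).coeff i) ≤ nu P :=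
  (Finset.sum_le_sum fun _ _ => Nat.le_mul_of_pos_right _ (by positivity)).trans
    (sum_coeff_le_nu P s)

theorem toP_ne_zero {P : ZP (Option τ)} (h : P ≠ 0) : toP P ≠ 0 := by simpa using h

theorem natDegree_toP_le {P : ZP (Option τ)} {a : ℕ} (h : nu P ≤ 2 ^ a) : (toP P).natDegree ≤ a := by
  by_cases h0 : P = 0
  · simp [h0]
  have h1 := nu_pos (Polynomial.leadingCoeff_ne_zero.2 (toP_ne_zero h0))
  exact (Nat.pow_le_pow_iff_right one_lt_two).1 ((Nat.le_mul_of_pos_left _ h1).trans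
    ((nu_coeff_le P _).trans h))

theorem norm_ev_le {z : σ → ℂ} (hz : ∀ i, ‖z i‖ ≤ 1) (P : ZP σ) : ‖ev z P‖ ≤ nu P := by
  conv_lhs => rw [P.as_sum, map_sum]
  rw [nu, Nat.cast_sum]
  refine (norm_sum_le _ _).trans (Finset.sum_le_sum fun m _ => ?_)
  rw [aeval_monomial, norm_mul, Nat.cast_mul]
  refine mul_le_mul (by simp [Nat.cast_natAbs]) ?_ (norm_nonneg _) (by positivity)
  refine le_trans ?_ (by exact_mod_cast Nat.one_le_two_pow : (1 : ℝ) ≤ _)
  rw [Finsupp.prod, norm_prod]
  exact Finset.prod_le_one (fun _ _ => norm_nonneg _) fun i _ => by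
    rw [norm_pow]; exact pow_le_one₀ (norm_nonneg _) (hz i)

section ev
variable {S S' : Type} [CommRing S] [CommRing S']

theorem map_ev (φ : S →+* S') (f : σ → S) (P : ZP σ) : φ (ev f P) = ev (fun i => φ (f i)) P := by
  have : φ.toIntAlgHom.comp (ev f) = ev fun i => φ (f i) := by ext i; simp
  exact DFunLike.congr_fun this P

theorem ev_rename (f : τ → S) (g : σ → τ) (P : ZP σ) :
    ev f (rename g P) = ev (fun i => f (g i)) P := aeval_rename g f P

theorem evX_eq (f : τ → S) (P : ZP (Option τ)) : evX f P = (toP P).map (ev f).toRingHom := by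
  have : (evX f).toRingHom = (Polynomial.mapRingHom (ev f).toRingHom).comp
      (optionEquivLeft ℤ τ).toAlgHom.toRingHom := by
    refine ringHom_ext (fun r => by simp) fun o => ?_
    cases o <;> simp [evX]
  exact DFunLike.congr_fun this P

theorem coeff_evX (f : τ → S) (P : ZP (Option τ)) (i : ℕ) :
    (evX f P).coeff i = ev f ((toP P).coeff i) := by rw [evX_eq, Polynomial.coeff_map]; rfl

theorem eval_evX (f : τ → S) (ζ : S) (P : ZP (Option τ)) :
    (evX f P).eval ζ = ev (fun o : Option τ => o.elim ζ f) P := by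
  have := map_ev (Polynomial.evalRingHom ζ)
    (fun o : Option τ => o.elim Polynomial.X fun t => Polynomial.C (f t)) P
  refine this.trans ?_
  congr 2
  funext o
  cases o <;> simp

theorem map_evX (φ : S →+* S') (f : τ → S) (P : ZP (Option τ)) :
    (evX f P).map φ = evX (fun i => φ (f i)) P := by
  ext i; rw [Polynomial.coeff_map, coeff_evX, coeff_evX, map_ev]

theorem evX_ne_zero {f : τ → S} (hf : Function.Injective (ev f)) {P : ZP (Option τ)} (h : P ≠ 0) :
    evX f P ≠ 0 := by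
  rw [evX_eq]
  exact (Polynomial.map_ne_zero_iff hf).2 (toP_ne_zero h)

/-- The order along the universal line transfers to every deformation of the point. -/
theorem Ord.univ {y : σ → ℂ} {r : ℕ} {P : ZP σ} (h : Ord y r P) (φ : ℂ →+* S) (ε : S) (u : σ → S)
    (hu : ∀ i, ε ∣ u i - φ (y i)) : ε ^ r ∣ ev u P := by
  choose v hv using hu
  have := map_dvd (Polynomial.eval₂RingHom (eval₂Hom φ v) ε) h
  rw [map_pow, map_ev] at this
  convert this using 3
  · simp
  · funext i
    simp [arc, mul_comm (v i), ← hv]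

end ev

theorem arc_injective (y : σ → ℂ) : Function.Injective (ev (arc y)) := by
  rw [injective_iff_map_eq_zero]
  intro P h
  have h1 := congrArg (Polynomial.eval₂RingHom
    (eval₂Hom C fun i => X i - C (y i) : MvPolynomial σ ℂ →+* MvPolynomial σ ℂ) 1) h
  rw [map_ev, map_zero] at h1
  have h2 : ev (X : σ → MvPolynomial σ ℂ) P = MvPolynomial.map (Int.castRingHom ℂ) P := by
    have : (ev (X : σ → MvPolynomial σ ℂ)).toRingHom = MvPolynomial.map (Int.castRingHom ℂ) :=
      ringHom_ext (fun r => by simp) fun i => by simp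
    exact DFunLike.congr_fun this P
  apply map_injective (Int.castRingHom ℂ) Int.cast_injective
  rw [← h2, map_zero, ← h1]
  congr 2
  funext i
  simp [arc]

theorem Ord.ev_eq_zero {y : σ → ℂ} {r : ℕ} {P : ZP σ} (h : Ord y r P) (hr : 1 ≤ r) : ev y P = 0 := by
  have := h.univ (RingHom.id ℂ) 0 y (by simp)
  rwa [zero_pow (by omega), zero_dvd_iff] at this

theorem ev_arcS (y : σ → ℂ) (P : ZP σ) :
    ev (arcS y) P =
      ((ev (arc y) P : Polynomial (MvPolynomial σ ℂ)) : PowerSeries (MvPolynomial σ ℂ)) := by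
  have := map_ev (Polynomial.coeToPowerSeries.ringHom (R := MvPolynomial σ ℂ)) (arc y) P
  simp only [Polynomial.coeToPowerSeries.ringHom_apply] at this
  rw [this]
  congr 2

theorem arcS_injective (y : σ → ℂ) : Function.Injective (ev (arcS y)) := fun P Q h => by
  rw [ev_arcS, ev_arcS] at h
  exact arc_injective y (Polynomial.coe_injective _ h)

theorem ord_of_arcS {y : σ → ℂ} {r : ℕ} {P : ZP σ}
    (h : (PowerSeries.X : PowerSeries (MvPolynomial σ ℂ)) ^ r ∣ ev (arcS y) P) : Ord y r P := by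
  rw [ev_arcS, PowerSeries.X_pow_dvd_iff] at h
  exact Polynomial.X_pow_dvd_iff.2 fun m hm => by simpa using h m hm

theorem constantCoeff_arcS (y : σ → ℂ) (i : σ) :
    PowerSeries.constantCoeff (arcS y i) = C (y i) := by
  simp [arcS, arc]

end Pool.Agent.MP_5daf37_lc.FC

end MrgPart1

-- ======== part 2: formerly Pool.Agent.MP_5daf37_lc.FC.Basic2
section MrgPart2

/-!
Elementary properties of the characters, of ranks and of the matrix of a circuit.
-/

open Matrix

namespace Pool.Agent.MP_5daf37_lc.FC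

section chi
variable {L : ℕ}

theorem chi_comm (a x : Ix L) : chi a x = chi x a := by simp [chi, and_comm]

theorem chi_add_right (a x x' : Ix L) : chi a (x + x') = chi a x * chi a x' := by
  rw [chi, chi, chi, ← Finset.prod_mul_distrib]
  refine Finset.prod_congr rfl fun l _ => ?_
  rw [Pi.add_apply]
  generalize a l = s, x l = t, x' l = t'
  revert s t t'
  decide

theorem chi_add_left (a a' x : Ix L) : chi (a + a') x = chi a x * chi a' x := by
  rw [chi_comm, chi_add_right, chi_comm x, chi_comm x]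

@[simp] theorem chi_zero_right (a : Ix L) : chi a 0 = 1 := by simp [chi]

@[simp] theorem chi_zero_left (a : Ix L) : chi 0 a = 1 := by simp [chi]

@[simp] theorem ix_add_self (x : Ix L) : x + x = 0 := by
  funext l; exact CharTwo.add_self_eq_zero (x l)

theorem chi_mul_self (a x : Ix L) : chi a x * chi a x = 1 := by
  rw [← chi_add_right, ix_add_self, chi_zero_right]

theorem natAbs_chi (a x : Ix L) : (chi a x).natAbs = 1 :=
  Int.isUnit_iff_natAbs_eq.1 (IsUnit.of_mul_eq_one _ (chi_mul_self a x))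

@[simp] theorem card_Ix : Fintype.card (Ix L) = 2 ^ L := by simp [Ix]

theorem sum_chi (x : Ix L) : ∑ a, chi a x = if x = 0 then 2 ^ L else 0 := by
  split_ifs with h
  · simp [h]
  obtain ⟨l, hl⟩ := Function.ne_iff.1 h
  have h1 : chi (Pi.single l 1) x = -1 := by
    have h2 : x l = 1 := by
      have h3 : ∀ t : ZMod 2, t ≠ 0 → t = 1 := by decide
      exact h3 _ hl
    rw [chi, Finset.prod_eq_single l (fun j _ hj => by simp [Pi.single_eq_of_ne hj]) (by simp)]
    simp [h2]
  have h2 := Equiv.sum_comp (Equiv.addRight (Pi.single l 1 : Ix L)) fun a => chi a x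
  simp only [Equiv.coe_addRight, chi_add_left, h1, ← Finset.sum_mul] at h2
  linarith

variable {T T' : Type} [CommRing T] [CommRing T']

theorem Hm_mul_Hm : Hm L T * Hm L T = (2 ^ L : T) • (1 : Matrix (Ix L) (Ix L) T) := by
  ext x y
  have h : x + y = 0 ↔ x = y := by
    rw [add_eq_zero_iff_eq_neg, neg_eq_of_add_eq_zero_right (ix_add_self y)]
  have := congrArg (Int.cast : ℤ → T) (sum_chi (x + y))
  simp only [chi_add_right, h] at this
  simp only [mul_apply, Hm, of_apply, chi_comm x, Matrix.smul_apply, one_apply]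
  push_cast at this
  rw [this]
  split_ifs <;> simp

theorem Hm_map (φ : T →+* T') : (Hm L T).map φ = Hm L T' := by ext; simp [Hm]

theorem Mg_map (φ : T →+* T') (a b : Ix L) (A : Matrix (Ix L) (Ix L) T) :
    (Mg a b A).map φ = Mg a b (A.map φ) := by ext; simp [Mg]

theorem Mg_sub (a b : Ix L) (A B : Matrix (Ix L) (Ix L) T) :
    Mg a b (A - B) = Mg a b A - Mg a b B := by ext; simp [Mg]; ring

theorem Mg_Hm (a b : Ix L) : Mg a b (Hm L T) = 0 := by
  ext x y
  simp only [Mg, Hm, of_apply, chi_add_left, chi_add_right, chi_comm a x, Matrix.zero_apply]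
  push_cast; ring

/-- The Pauli matrix acting on the rows. -/
def Pl (T : Type) [CommRing T] (a b : Ix L) : Matrix (Ix L) (Ix L) T :=
  of fun x x' => if x' = x + b then (chi a x : T) else 0

/-- The Pauli matrix acting on the columns. -/
def Pr (T : Type) [CommRing T] (a b : Ix L) : Matrix (Ix L) (Ix L) T :=
  of fun y' y => if y' = y + a then (chi b y : T) else 0

theorem Mg_eq (a b : Ix L) (A : Matrix (Ix L) (Ix L) T) : Mg a b A = Pl T a b * A - A * Pr T a b := by
  ext x y; simp [Mg, Pl, Pr, mul_apply, mul_comm]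

end chi

section rank
variable {K : Type} [Field K] {m n : Type} [Fintype m] [Fintype n]

omit [Fintype m] in
theorem rank_add_le' (A B : Matrix m n K) : (A + B).rank ≤ A.rank + B.rank := by
  rw [rank, rank, rank, mulVecLin_add]
  exact (Submodule.finrank_mono (LinearMap.range_add_le _ _)).trans
    (Submodule.finrank_add_le_finrank_add_finrank _ _)

omit [Fintype m] in
theorem rank_neg' (A : Matrix m n K) : (-A).rank = A.rank := by
  have : (-A).mulVecLin = -A.mulVecLin := by ext; simp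
  rw [rank, rank, this, LinearMap.range_neg]

omit [Fintype m] in
theorem rank_sub_le' (A B : Matrix m n K) : (A - B).rank ≤ A.rank + B.rank := by
  rw [sub_eq_add_neg]; exact (rank_add_le' _ _).trans (by rw [rank_neg'])

theorem rank_Mg_le {L : ℕ} (a b : Ix L) (A : Matrix (Ix L) (Ix L) K) :
    (Mg a b A).rank ≤ 2 * A.rank := by
  rw [Mg_eq, two_mul]
  exact (rank_sub_le' _ _).trans (add_le_add (rank_mul_le_right _ _) (rank_mul_le_left _ _))

omit [Fintype m] in
theorem det_eq_zero_of_rank_lt {r : ℕ} {A : Matrix m n K} (h : A.rank < r) (x : Fin r → m)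
    (y : Fin r → n) : (A.submatrix x y).det = 0 := by
  by_contra h0
  have := rank_of_det_ne_zero h0
  have h2 := rank_submatrix_le A x y
  rw [this, Fintype.card_fin] at h2
  omega

theorem exists_rows {r : ℕ} {A : Matrix m n K} (h : r ≤ A.rank) :
    ∃ x : Fin r → m, LinearIndependent K (A.submatrix x id).row := by
  obtain ⟨κ, a, ha, hs, hl⟩ := exists_linearIndependent' K A.row
  have := Fintype.ofInjective a ha
  rw [rank_eq_finrank_span_row, ← hs, finrank_span_eq_card hl] at h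
  obtain ⟨g⟩ := Function.Embedding.nonempty_of_card_le ((Fintype.card_fin r).trans_le h)
  exact ⟨a ∘ g, hl.comp g g.injective⟩

theorem exists_minor {r : ℕ} {A : Matrix m n K} (h : r ≤ A.rank) :
    ∃ (x : Fin r → m) (y : Fin r → n), Function.Injective y ∧ (A.submatrix x y).det ≠ 0 := by
  obtain ⟨x, hx⟩ := exists_rows h
  have h1 : r ≤ (A.submatrix x id)ᵀ.rank := by
    rw [rank_transpose, hx.rank_matrix, Fintype.card_fin]
  obtain ⟨y, hy⟩ := exists_rows h1
  refine ⟨x, y, fun i j hij => hy.injective ?_, ?_⟩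
  · funext l; simp [hij]
  · rw [← det_transpose]
    exact ((isUnit_iff_isUnit_det _).1 (linearIndependent_rows_iff_isUnit.1 hy)).ne_zero

/-- The rank does not increase under specialization. -/
theorem rank_spec {R K' : Type} [CommRing R] [Field K'] (ι : R →+* K) (hι : Function.Injective ι)
    (φ : R →+* K') (M : Matrix m n R) : (M.map φ).rank ≤ (M.map ι).rank := by
  by_contra h
  obtain ⟨x, y, -, h1⟩ := exists_minor (le_refl (M.map φ).rank)
  have h2 := det_eq_zero_of_rank_lt (not_le.1 h) x y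
  rw [submatrix_map, ← RingHom.mapMatrix_apply, ← RingHom.map_det] at h1 h2
  exact h1 (by rw [(map_eq_zero_iff ι hι).1 h2, map_zero])

end rank

section circuit
variable {F : Type} {n p q : ℕ} {T T' ι : Type} [CommRing T] [CommRing T']

theorem det_one_sub_Wm (C : Circuit F n p q) (w : Fin q → T) : (1 - Wm C w).det = 1 := by
  classical
  let r : Fin p → Fin p → Prop := Relation.TransGen fun a b => ∃ e, C.tail e = a ∧ C.head e = b
  let ρ : Fin p → ℕ := fun v => (Finset.univ.filter fun u => r u v).card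
  have hρ : ∀ e, ρ (C.tail e) < ρ (C.head e) := fun e => by
    have h1 : r (C.tail e) (C.head e) := Relation.TransGen.single ⟨e, rfl, rfl⟩
    refine Finset.card_lt_card ⟨fun u hu => ?_, fun h => ?_⟩
    · simp only [Finset.mem_filter, Finset.mem_univ, true_and] at hu ⊢
      exact hu.trans h1
    · exact C.acyclic _ (Finset.mem_filter.1 (h (Finset.mem_filter.2 ⟨Finset.mem_univ _, h1⟩))).2
  have h0 : ∀ v u, ρ v ≤ ρ u → Wm C w v u = 0 := fun v u h => by
    rw [Wm, of_apply]
    refine Finset.sum_eq_zero fun e _ => if_neg fun h' => ?_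
    have := hρ e
    rw [h'.1, h'.2] at this
    omega
  have hb : BlockTriangular (1 - Wm C w)ᵀ ρ := fun u v h => by
    have : v ≠ u := fun e => by rw [e] at h; exact lt_irrefl _ h
    rw [transpose_apply, Matrix.sub_apply, h0 v u h.le, one_apply_ne this, sub_zero]
  rw [← det_transpose, hb.det]
  refine Finset.prod_eq_one fun a _ => ?_
  have : (1 - Wm C w)ᵀ.toSquareBlock ρ a = 1 := by
    ext u v
    rw [toSquareBlock_def, of_apply, transpose_apply, Matrix.sub_apply,
      h0 _ _ (v.2.trans u.2.symm).le, sub_zero]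
    simp [one_apply, Subtype.ext_iff, eq_comm]
  rw [this, det_one]

theorem Wm_map (φ : T →+* T') (C : Circuit F n p q) (w : Fin q → T) :
    (Wm C w).map φ = Wm C fun e => φ (w e) := by
  ext; simp [Wm, apply_ite φ]

theorem Tm_map (φ : T →+* T') (C : Circuit F n p q) (f : ι → Fin n) (w : Fin q → T) :
    (Tm C f w).map φ = Tm C f fun e => φ (w e) := by
  have h1 : (Cm T C f).map φ = Cm T' C f := by ext; simp [Cm, apply_ite φ]
  have h2 : (Bm T C f).map φ = Bm T' C f := by ext; simp [Bm, apply_ite φ]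
  have h3 := φ.map_adjugate (1 - Wm C w)
  rw [map_sub, map_one, RingHom.mapMatrix_apply, RingHom.mapMatrix_apply, Wm_map] at h3
  rw [Tm, Matrix.map_mul, Matrix.map_mul, h1, h2, h3, Tm]

/-- The bordered determinant. -/
theorem schur {ν μ : Type} [Fintype ν] [DecidableEq ν] [Fintype μ] [DecidableEq μ]
    {M : Matrix ν ν T} (hM : M.det = 1) (P : Matrix ν μ T) (Q : Matrix μ ν T) (Z : Matrix μ μ T) :
    (Z + Q * M.adjugate * P).det = (fromBlocks M (-P) Q Z).det := by
  have e : fromBlocks M (-P) Q Z * fromBlocks 1 (M.adjugate * P) 0 1 =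
      fromBlocks M 0 Q (Z + Q * M.adjugate * P) := by
    rw [fromBlocks_multiply, ← Matrix.mul_assoc, mul_adjugate, hM]
    simp [add_comm, Matrix.mul_assoc]
  have := congrArg det e
  rw [det_mul, det_fromBlocks_zero₂₁, det_fromBlocks_zero₁₂, det_one, det_one, hM] at this
  simpa using this.symm

end circuit

end Pool.Agent.MP_5daf37_lc.FC

end MrgPart2

-- ======== part 3: formerly Pool.Agent.MP_5daf37_lc.FC.Circ1
section MrgPart3

/-!
The minors of the twisted commutators of the matrix of a circuit are small.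
-/

open Matrix

namespace Pool.Agent.MP_5daf37_lc.FC

namespace Circ1

theorem two {T ν μ : Type} [CommRing T] [Fintype ν] [DecidableEq ν] [Fintype μ] [DecidableEq μ]
    {M : Matrix ν ν T} (hM : M.det = 1) (P₁ P₂ : Matrix ν μ T) (Q₁ Q₂ : Matrix μ ν T) :
    (Q₂ * M.adjugate * P₂ + Q₁ * M.adjugate * P₁).det =
      (fromBlocks M (-(fromCols (0 : Matrix ν ν T) P₂)) (fromRows (0 : Matrix ν ν T) Q₂)
        (fromBlocks M (-P₁) Q₁ 0)).det := by
  rw [schur hM P₁ Q₁, ← schur hM (fromCols (0 : Matrix ν ν T) P₂), fromRows_mul,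
    fromRows_mul_fromCols, fromBlocks_add]
  simp

theorem nu_ite {σ : Type} {c : Prop} [Decidable c] {a : ℤ} (ha : a.natAbs = 1) :
    nu (if c then (a : ZP σ) else 0) = if c then 1 else 0 := by
  split_ifs
  · rw [nu_intCast, ha]
  · exact nu_zero

theorem sum_ite_le {ι : Type} [Fintype ι] (c : ι → Prop) [DecidablePred c]
    (h : ∀ i j, c i → c j → i = j) : ∑ i, (if c i then 1 else 0) ≤ 1 := by
  rw [← Finset.card_filter]
  exact Finset.card_le_one.2 fun i hi j hj =>
    h i j (Finset.mem_filter.1 hi).2 (Finset.mem_filter.1 hj).2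

variable {F : Type} {n p q k : ℕ} (C : Circuit F n p q) (w : Fin q → ZP (Fin k))

theorem row (hw : ∀ e, nu (w e) ≤ 2) (v : Fin p) :
    ∑ u, nu ((1 - Wm C w) v u) + 1 ≤ 2 ^ (1 + (Finset.univ.filter fun e => C.head e = v).card) := by
  have h1 : ∑ u, nu ((1 : Matrix (Fin p) (Fin p) (ZP (Fin k))) v u) ≤ 1 := by
    refine le_trans (le_of_eq (Finset.sum_congr rfl fun u _ => ?_))
      (sum_ite_le (fun u => v = u) fun i j hi hj => hi.symm.trans hj)
    rw [one_apply]
    split_ifs <;> simp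
  have h2 : ∑ u, nu (Wm C w v u) ≤ (Finset.univ.filter fun e => C.head e = v).card * 2 := by
    calc ∑ u, nu (Wm C w v u) ≤ ∑ u, ∑ e, if C.head e = v ∧ C.tail e = u then 2 else 0 := by
          refine Finset.sum_le_sum fun u _ => ?_
          rw [Wm, of_apply]
          refine (nu_sum _ _).trans (Finset.sum_le_sum fun e _ => ?_)
          split_ifs
          · exact hw e
          · exact nu_zero.le
      _ = ∑ e, if C.head e = v then 2 else 0 := by
          rw [Finset.sum_comm]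
          refine Finset.sum_congr rfl fun e _ => ?_
          by_cases h : C.head e = v <;> simp [h]
      _ = _ := by rw [← Finset.sum_filter, Finset.sum_const, smul_eq_mul]
  have h3 : ∑ u, nu ((1 - Wm C w) v u) ≤
      ∑ u, nu ((1 : Matrix (Fin p) (Fin p) (ZP (Fin k))) v u) + ∑ u, nu (Wm C w v u) := by
    rw [← Finset.sum_add_distrib]
    exact Finset.sum_le_sum fun u _ => nu_sub _ _
  have h4 := Nat.lt_two_pow_self (n := (Finset.univ.filter fun e => C.head e = v).card)
  rw [pow_add]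
  omega

theorem prod_row :
    ∏ v, 2 ^ (1 + (Finset.univ.filter fun e => C.head e = v).card) = 2 ^ (p + q) := by
  rw [Finset.prod_pow_eq_pow_sum, Finset.sum_add_distrib,
    ← Finset.card_eq_sum_card_fiberwise (f := C.head) (s := Finset.univ) (t := Finset.univ)
      fun _ _ => Finset.mem_coe.2 (Finset.mem_univ _)]
  simp

end Circ1

open Circ1 in
theorem circ1 : CIRC1 := by
  intro F n p q k L C f w hf hw a b r x y hy
  let P : (Fin r → Ix L) → (Fin r → ℤ) → Matrix (Fin p) (Fin r) (ZP (Fin k)) := fun g s =>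
    of fun u j => if (∀ e, C.head e ≠ u) ∧ C.label u = f (g j) then (s j : ZP (Fin k)) else 0
  let Q : (Fin r → Ix L) → (Fin r → ℤ) → Matrix (Fin r) (Fin p) (ZP (Fin k)) := fun g s =>
    of fun i v => if C.output (f (g i)) = v then (s i : ZP (Fin k)) else 0
  have hQP : ∀ g s g' s' i j, (Q g s * (1 - Wm C w).adjugate * P g' s') i j =
      (s i : ZP (Fin k)) * Tm C f w (g i) (g' j) * (s' j : ZP (Fin k)) := by
    intro g s g' s' i j
    simp only [Tm, mul_apply, P, Q, Cm, Bm, of_apply, Finset.sum_mul, Finset.mul_sum]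
    refine Finset.sum_congr rfl fun u _ => Finset.sum_congr rfl fun v _ => ?_
    split_ifs <;> simp
  have hP : ∀ g s, Function.Injective g → (∀ j, (s j).natAbs = 1) → ∀ u,
      ∑ j, nu (P g s u j) ≤ 1 := by
    intro g s hg hs u
    refine le_trans (le_of_eq (Finset.sum_congr rfl fun j _ => nu_ite (hs j))) ?_
    exact sum_ite_le _ fun i j hi hj => hg (hf (hi.2.symm.trans hj.2))
  have hQ : ∀ g s, (∀ j, (s j).natAbs = 1) → ∀ i, ∑ v, nu (Q g s i v) ≤ 1 := by
    intro g s hs i
    refine le_trans (le_of_eq (Finset.sum_congr rfl fun v _ => nu_ite (hs i))) ?_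
    exact sum_ite_le _ fun i j hi hj => hi.symm.trans hj
  have e : (Mg a b (Tm C f w)).submatrix x y =
      Q x (fun _ => -1) * (1 - Wm C w).adjugate * P (fun j => y j + a) (fun j => chi b (y j)) +
        Q (fun i => x i + b) (fun i => chi a (x i)) * (1 - Wm C w).adjugate * P y fun _ => 1 := by
    ext1 i j
    rw [Matrix.add_apply, hQP, hQP, submatrix_apply, Mg, of_apply]
    push_cast
    ring
  rw [e, two (det_one_sub_Wm C w)]
  refine (nu_det_row _).trans ?_
  rw [Fintype.prod_sum_type, Fintype.prod_sum_type, two_mul, pow_add, pow_add, mul_assoc,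
    ← prod_row C]
  refine Nat.mul_le_mul (Finset.prod_le_prod' fun v _ => le_trans ?_ (row C w hw v))
    (Nat.mul_le_mul (Finset.prod_le_prod' fun v _ => le_trans ?_ (row C w hw v)) ?_)
  · have := hP (fun j => y j + a) (fun j => chi b (y j))
      (fun i j h => hy (add_right_cancel h)) (fun j => natAbs_chi _ _) v
    simpa [Fintype.sum_sum_type] using this
  · have := hP y (fun _ => 1) hy (fun _ => rfl) v
    simpa [Fintype.sum_sum_type] using this
  · refine (Finset.prod_le_pow_card _ _ 2 fun i _ => ?_).trans (by simp)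
    have h1 := hQ x (fun _ => -1) (fun _ => rfl) i
    have h2 := hQ (fun i => x i + b) (fun i => chi a (x i)) (fun j => natAbs_chi _ _) i
    have h3 := add_le_add h1 h2
    simpa [Fintype.sum_sum_type] using h3

end Pool.Agent.MP_5daf37_lc.FC

end MrgPart3

-- ======== part 4: formerly Pool.Agent.MP_5daf37_lc.FC.Circ02
section MrgPart4

/-!
The matrix of a circuit is the computed matrix, a change of few weights has small rank, and mixed
determinants have small degree in the scalars.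
-/

open Matrix

namespace Pool.Agent.MP_5daf37_lc.FC

namespace Circ02

variable {n p q : ℕ}

theorem Wm_mulVec {F T : Type} [CommRing T] (C : Circuit F n p q) (w : Fin q → T)
    (val : Fin p → T) (v : Fin p) :
    ∑ u, Wm C w v u * val u = ∑ e with C.head e = v, w e * val (C.tail e) := by
  simp only [Wm, of_apply, Finset.sum_mul]
  rw [Finset.sum_comm, Finset.sum_filter]
  refine Finset.sum_congr rfl fun e _ => ?_
  by_cases h : C.head e = v
  · simp [h]
  · simp [h]

theorem Tm_eq {F ι : Type} [Field F] (C : Circuit F n p q) (A : Matrix (Fin n) (Fin n) F)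
    (f : ι → Fin n) (h : C.Computes A) : Tm C f C.weight = A.submatrix f f := by
  choose val h1 h2 h3 using fun j : ι => h (Pi.single (f j) 1)
  let Val : Matrix (Fin p) ι F := of fun v j => val j v
  have e1 : (1 - Wm C C.weight) * Val = Bm F C f := by
    ext v j
    rw [Matrix.sub_mul, Matrix.one_mul, Matrix.sub_apply, mul_apply]
    simp only [Val, of_apply]
    rw [Wm_mulVec, Bm, of_apply]
    by_cases hv : ∀ e, C.head e ≠ v
    · rw [h1 j v hv, Finset.sum_eq_zero fun e he => absurd (Finset.mem_filter.1 he).2 (hv e),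
        sub_zero, Pi.single_apply]
      simp [hv]
    · rw [if_neg fun h' => hv h'.1, ← h2 j v (by simpa using hv), sub_self]
  have e2 : (1 - Wm C C.weight).adjugate * Bm F C f = Val := by
    rw [← e1, ← Matrix.mul_assoc, adjugate_mul, det_one_sub_Wm, one_smul, Matrix.one_mul]
  ext i j
  rw [Tm, Matrix.mul_assoc, e2, mul_apply]
  simp [Cm, Val, h3]

theorem Tm_sub {F ι T : Type} [CommRing T] (C : Circuit F n p q) (f : ι → Fin n)
    (w w' : Fin q → T) : Tm C f w' - Tm C f w =
      Cm T C f * (1 - Wm C w').adjugate * (Wm C w' - Wm C w) *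
        ((1 - Wm C w).adjugate * Bm T C f) := by
  have e : (1 - Wm C w').adjugate * (Wm C w' - Wm C w) * (1 - Wm C w).adjugate =
      (1 - Wm C w').adjugate - (1 - Wm C w).adjugate := by
    rw [show Wm C w' - Wm C w = (1 - Wm C w) - (1 - Wm C w') by abel, Matrix.mul_sub,
      Matrix.sub_mul, Matrix.mul_assoc, mul_adjugate, adjugate_mul, det_one_sub_Wm,
      det_one_sub_Wm, one_smul, Matrix.mul_one, Matrix.one_mul]
  rw [Tm, Tm, ← Matrix.sub_mul, ← Matrix.mul_sub, ← e]
  simp only [Matrix.mul_assoc]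

theorem rank_Wm_sub {F K : Type} [Field K] (C : Circuit F n p q) (w w' : Fin q → K)
    (E : Finset (Fin q)) (h : ∀ e, e ∉ E → w' e = w e) : (Wm C w' - Wm C w).rank ≤ E.card := by
  let X : Matrix (Fin p) E K := of fun v e => if C.head e = v then w' e - w e else 0
  let Y : Matrix E (Fin p) K := of fun e u => if C.tail e = u then 1 else 0
  have e1 : Wm C w' - Wm C w = X * Y := by
    ext v u
    simp only [Wm, X, Y, Matrix.sub_apply, mul_apply, of_apply, ← Finset.sum_sub_distrib]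
    rw [Finset.sum_coe_sort E fun e =>
      (if C.head e = v then w' e - w e else 0) * if C.tail e = u then (1 : K) else 0]
    symm
    refine Finset.sum_subset_zero_on_sdiff (Finset.subset_univ E) (fun e he => ?_) fun e _ => ?_
    · rw [h e (Finset.mem_sdiff.1 he).2, sub_self]
    · by_cases h1 : C.head e = v <;> by_cases h2 : C.tail e = u <;> simp [h1, h2]
  rw [e1]
  exact (rank_mul_le_left _ _).trans ((rank_le_card_width _).trans (Fintype.card_coe E).le)

theorem det_mem {T ν : Type} [CommRing T] [Fintype ν] [DecidableEq ν] (O : Subring T)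
    (M : Matrix ν ν T) (h : ∀ i j, M i j ∈ O) : M.det ∈ O := by
  rw [det_apply']
  exact O.sum_mem fun σ _ => O.mul_mem (intCast_mem O _) (O.prod_mem fun i _ => h _ _)

theorem mul_mem' {T l m r : Type} [CommRing T] [Fintype m] (O : Subring T) (M : Matrix l m T)
    (N : Matrix m r T) (hM : ∀ i j, M i j ∈ O) (hN : ∀ i j, N i j ∈ O) (i : l) (j : r) :
    (M * N) i j ∈ O := by
  rw [mul_apply]
  exact O.sum_mem fun a _ => O.mul_mem (hM _ _) (hN _ _)

theorem ite_mem' {T : Type} [CommRing T] (O : Subring T) (c : Prop) [Decidable c] :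
    (if c then (1 : T) else 0) ∈ O := by
  split_ifs
  · exact O.one_mem
  · exact O.zero_mem

end Circ02

theorem circ0 : CIRC0 := by
  intro F _ φ n p q ι _ _ C A f w E hC hw
  rw [← Circ02.Tm_eq C A f hC, Tm_map, Circ02.Tm_sub]
  exact (rank_mul_le_left _ _).trans ((rank_mul_le_right _ _).trans (Circ02.rank_Wm_sub C _ _ E hw))

theorem circ2 : CIRC2 := by
  intro F n p q k L C f w hw T μ _ _ _ O b ζ U V Z hb hζ hU hV hZ
  have h1 : (Tm C f w).map (ev ζ) = Tm C f fun e => ev ζ (w e) := Tm_map (ev ζ).toRingHom C f w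
  have h2 : ∀ e, b * ev ζ (w e) ∈ O := fun e => by
    rcases hw e with h | ⟨j, h⟩
    · rw [h, map_zero, mul_zero]; exact O.zero_mem
    · rw [h, MvPolynomial.aeval_X]; exact hζ j
  rw [h1, Tm, show U * (Cm T C f * (1 - Wm C fun e => ev ζ (w e)).adjugate * Bm T C f) * V =
      U * Cm T C f * (1 - Wm C fun e => ev ζ (w e)).adjugate * (Bm T C f * V) by
    simp only [Matrix.mul_assoc], schur (det_one_sub_Wm C _), pow_add, mul_right_comm]
  refine O.mul_mem ?_ (O.pow_mem hb q)
  have h3 : (diagonal (Sum.elim (fun _ : Fin p => b) fun _ : μ => (1 : T))).det = b ^ p := by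
    simp [det_diagonal, Fintype.prod_sum_type]
  rw [← h3, ← det_mul]
  refine Circ02.det_mem O _ fun i j => ?_
  rw [diagonal_mul]
  rcases i with v | i <;> rcases j with u | j
  · rw [Sum.elim_inl, fromBlocks_apply₁₁, Matrix.sub_apply, mul_sub, one_apply, Wm, of_apply,
      Finset.mul_sum]
    refine O.sub_mem (O.mul_mem hb (Circ02.ite_mem' O _)) (O.sum_mem fun e _ => ?_)
    split_ifs
    · exact h2 e
    · rw [mul_zero]; exact O.zero_mem
  · rw [Sum.elim_inl, fromBlocks_apply₁₂, Matrix.neg_apply]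
    exact O.mul_mem hb (O.neg_mem (Circ02.mul_mem' O _ _ (fun _ _ => Circ02.ite_mem' O _) hV _ _))
  · rw [Sum.elim_inr, fromBlocks_apply₂₁, one_mul]
    exact Circ02.mul_mem' O _ _ hU (fun _ _ => Circ02.ite_mem' O _) _ _
  · rw [Sum.elim_inr, fromBlocks_apply₂₂, one_mul]
    exact hZ _ _

end Pool.Agent.MP_5daf37_lc.FC

end MrgPart4

-- ======== part 5: formerly Pool.Agent.MP_5daf37_lc.FC.Circ3
section MrgPart5

/-!
The Morgenstern type bound for the matrix of a circuit.
-/

open Matrix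

namespace Pool.Agent.MP_5daf37_lc.FC

namespace Circ3

theorem had_fin {N : ℕ} (M : Matrix (Fin N) (Fin N) ℂ) :
    ‖M.det‖ ≤ ∏ i, √(∑ j, ‖M i j‖ ^ 2) := by
  obtain ⟨v, hv⟩ : ∃ v : Fin N → EuclideanSpace ℂ (Fin N), ∀ i j, v i j = M i j :=
    ⟨fun i => WithLp.toLp 2 (M i), fun _ _ => rfl⟩
  have h : Module.finrank ℂ (EuclideanSpace ℂ (Fin N)) = Fintype.card (Fin N) := by simp
  have h1 : (EuclideanSpace.basisFun (Fin N) ℂ).toBasis.det v = M.det := by
    rw [Module.Basis.det_apply, ← det_transpose M]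
    refine congrArg det ?_
    ext i j
    simp [Module.Basis.toMatrix_apply, hv]
  have h3 := InnerProductSpace.gramSchmidtOrthonormalBasis_det h v
  generalize InnerProductSpace.gramSchmidtOrthonormalBasis h v = b at h3
  have h2 := (EuclideanSpace.basisFun (Fin N) ℂ).toBasis.det.eq_smul_basis_det b.toBasis
  have h4 := (EuclideanSpace.basisFun (Fin N) ℂ).det_to_matrix_orthonormalBasis b
  rw [← h1, h2, AlternatingMap.smul_apply, norm_smul, OrthonormalBasis.coe_toBasis, h4, one_mul,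
    h3, norm_prod]
  refine Finset.prod_le_prod (fun _ _ => norm_nonneg _) fun i _ => ?_
  refine (norm_inner_le_norm _ _).trans ?_
  rw [b.orthonormal.1 i, one_mul, EuclideanSpace.norm_eq]
  simp only [hv, le_refl]

/-- The inequality of Hadamard. -/
theorem had {ι : Type} [Fintype ι] [DecidableEq ι] (M : Matrix ι ι ℂ) (B : ι → ℝ)
    (h0 : ∀ i, 0 ≤ B i) (h : ∀ i, ∑ j, ‖M i j‖ ^ 2 ≤ B i ^ 2) : ‖M.det‖ ≤ ∏ i, B i := by
  obtain ⟨e⟩ : Nonempty (Fin (Fintype.card ι) ≃ ι) := ⟨(Fintype.equivFin ι).symm⟩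
  rw [← det_submatrix_equiv_self e, ← e.prod_comp]
  refine (had_fin _).trans (Finset.prod_le_prod (fun _ _ => Real.sqrt_nonneg _) fun i _ => ?_)
  refine Real.sqrt_le_iff.2 ⟨h0 _, le_trans (le_of_eq ?_) (h (e i))⟩
  exact e.sum_comp fun j => ‖M (e i) j‖ ^ 2

theorem row_le {R : ℝ} (hR : 1 ≤ R) (d : ℕ) : 1 + d * R + 1 ≤ (2 * R) ^ (1 + d) := by
  have h1 : (d : ℝ) + 2 ≤ 2 ^ (1 + d) := by
    have : d + 2 ≤ 2 ^ (1 + d) := by
      have := Nat.lt_two_pow_self (n := 1 + d)
      omega
    exact_mod_cast this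
  have h2 : R ≤ R ^ (1 + d) := le_self_pow₀ hR (by omega)
  have h3 : (0 : ℝ) ≤ d := Nat.cast_nonneg d
  rw [mul_pow]
  calc 1 + d * R + 1 ≤ (d + 2) * R := by nlinarith
    _ ≤ _ := mul_le_mul h1 h2 (by linarith) (by positivity)

variable {F : Type} {n p q : ℕ}

theorem sum_Wm (C : Circuit F n p q) (w : Fin q → ℂ) {R : ℝ} (hw : ∀ e, ‖w e‖ ≤ R) (v : Fin p) :
    ∑ u, ‖(1 - Wm C w) v u‖ ≤ 1 + (Finset.univ.filter fun e => C.head e = v).card * R := by
  have h1 : ∑ u, ‖(1 : Matrix (Fin p) (Fin p) ℂ) v u‖ = 1 := by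
    simp [one_apply, apply_ite]
  have h2 : ∑ u, ‖Wm C w v u‖ ≤ (Finset.univ.filter fun e => C.head e = v).card * R :=
    calc ∑ u, ‖Wm C w v u‖ ≤ ∑ u, ∑ e, if C.head e = v ∧ C.tail e = u then R else 0 := by
          refine Finset.sum_le_sum fun u _ => ?_
          rw [Wm, of_apply]
          refine (norm_sum_le _ _).trans (Finset.sum_le_sum fun e _ => ?_)
          split_ifs
          · exact hw e
          · exact norm_zero.le
      _ = ∑ e, if C.head e = v then R else 0 := by
          rw [Finset.sum_comm]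
          refine Finset.sum_congr rfl fun e _ => ?_
          by_cases h : C.head e = v <;> simp [h]
      _ = _ := by rw [← Finset.sum_filter, Finset.sum_const, nsmul_eq_mul]
  refine le_trans (Finset.sum_le_sum fun u _ => norm_sub_le _ _) ?_
  rw [Finset.sum_add_distrib, h1]
  linarith

theorem sum_Bm {ι : Type} [Fintype ι] (C : Circuit F n p q) {f : ι → Fin n}
    (hf : Function.Injective f) (v : Fin p) : ∑ j, ‖Bm ℂ C f v j‖ ≤ 1 := by
  classical
  have h1 : (Finset.univ.filter fun j => C.label v = f j).card ≤ 1 :=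
    Finset.card_le_one.2 fun a ha b hb =>
      hf ((Finset.mem_filter.1 ha).2.symm.trans (Finset.mem_filter.1 hb).2)
  calc ∑ j, ‖Bm ℂ C f v j‖ ≤ ∑ j, if C.label v = f j then (1 : ℝ) else 0 := by
        refine Finset.sum_le_sum fun j _ => ?_
        rw [Bm, of_apply]
        by_cases h : C.label v = f j
        · rw [if_pos h]
          split_ifs <;> simp
        · simp [h]
    _ ≤ 1 := by
        rw [Finset.sum_boole]
        exact_mod_cast h1

end Circ3

open Circ3 in
theorem circ3 : CIRC3 := by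
  intro F n p q k L C f w hf hw y R Z hR hy hZ
  have hw' : ∀ e, ‖ev y (w e)‖ ≤ R := fun e => by
    rcases hw e with h | ⟨j, h⟩
    · rw [h, map_zero, norm_zero]
      linarith
    · rw [h, MvPolynomial.aeval_X]
      exact hy j
  have e1 : (Tm C f w).map (ev y) = Tm C f fun e => ev y (w e) := Tm_map (ev y).toRingHom C f w
  rw [e1, Tm, schur (det_one_sub_Wm C _)]
  refine (had _ (Sum.elim
    (fun v => (2 * R) ^ (1 + (Finset.univ.filter fun e => C.head e = v).card)) fun _ => 2)
    ?_ ?_).trans (le_of_eq ?_)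
  · rintro (v | i)
    · simp only [Sum.elim_inl]
      positivity
    · simp
  · rintro (v | i)
    · refine (Finset.sum_sq_le_sq_sum_of_nonneg fun _ _ => norm_nonneg _).trans
        (pow_le_pow_left₀ (Finset.sum_nonneg fun _ _ => norm_nonneg _) ?_ 2)
      rw [Fintype.sum_sum_type]
      simp only [fromBlocks_apply₁₁, fromBlocks_apply₁₂, Matrix.neg_apply, norm_neg, Sum.elim_inl]
      exact (add_le_add (sum_Wm C _ hw' v) (sum_Bm C hf v)).trans (row_le hR _)
    · rw [Fintype.sum_sum_type]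
      simp only [fromBlocks_apply₂₁, fromBlocks_apply₂₂, Sum.elim_inr]
      have h1 : ∑ v, ‖Cm ℂ C f i v‖ ^ 2 = 1 := by
        simp [Cm, apply_ite]
      have := hZ i
      linarith
  · rw [Fintype.prod_sum_type]
    simp only [Sum.elim_inl, Sum.elim_inr]
    rw [Finset.prod_pow_eq_pow_sum, Finset.sum_add_distrib,
      ← Finset.card_eq_sum_card_fiberwise fun e _ => Finset.mem_coe.2 (Finset.mem_univ (C.head e))]
    simp

end Pool.Agent.MP_5daf37_lc.FC

end MrgPart5

-- ======== part 6: formerly Pool.Agent.MP_5daf37_lc.FC.Sup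
section MrgPart6

/-!
A point of the circle above the Mahler measure, and a point of the torus at which a nonzero
integer polynomial has modulus at least one.
-/

open MvPolynomial

namespace Pool.Agent.MP_5daf37_lc.FC

namespace SupAux

open Real MeasureTheory Set Filter in
theorem mahler_le (p : Polynomial ℂ) {M : ℝ} (hM : 0 < M)
    (h : ∀ w : ℂ, ‖w‖ = 1 → ‖p.eval w‖ ≤ M) : p.mahlerMeasure ≤ M := by
  by_cases hp : p = 0
  · simp [hp, hM.le]
  rw [show M = rexp (circleAverage (fun _ ↦ log M) 0 1)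
    by simp [circleAverage_def, mul_assoc, exp_log hM],
    Polynomial.mahlerMeasure_def_of_ne_zero hp, circleAverage_def, smul_eq_mul]
  gcongr
  apply intervalIntegral.integral_mono_ae_restrict (by positivity)
    p.intervalIntegrable_mahlerMeasure (by simp)
  rw [EventuallyLE, eventually_iff_exists_mem]
  use {x : ℝ | Polynomial.eval (circleMap 0 1 x) p ≠ 0}
  constructor
  · rw [mem_ae_iff, compl_def, Measure.restrict_apply' (by simp)]
    apply (Finite.of_sdiff _ <| finite_singleton (2 * π)).measure_zero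
    simp only [ne_eq, mem_ofPred_eq, Decidable.not_not, inter_sdiff_assoc, Icc_sdiff_right]
    rw [ofPred_inter_eq_sep]
    apply Finite.of_finite_image (f := circleMap 0 1) ((Multiset.finite_toSet p.roots).subset _)
      <| fun _ h _ k l ↦ injOn_circleMap_of_abs_sub_le' one_ne_zero (by linarith) h.1 k.1 l
    simp [hp]
  · intro x hx
    exact Real.log_le_log (norm_pos_iff.2 hx) (h _ (by simp))

end SupAux

theorem sup1 : SUP1 := by
  intro g
  obtain ⟨w, hw, hmax⟩ := (isCompact_sphere (0 : ℂ) 1).exists_isMaxOn ⟨1, by simp⟩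
    (f := fun w => ‖g.eval w‖) (g.continuous.norm.continuousOn)
  refine ⟨w, by simpa using hw, le_of_forall_pos_le_add fun ε hε => ?_⟩
  refine SupAux.mahler_le g (by positivity) fun u hu => ?_
  have : ‖g.eval u‖ ≤ ‖g.eval w‖ := hmax (by simpa using hu)
  linarith

theorem supz : SUPZ := by
  intro d
  induction d with
  | zero =>
    intro P hP
    refine ⟨fun i => i.elim0, fun i => i.elim0, ?_⟩
    rw [P.eq_C_of_isEmpty] at hP ⊢
    have h0 : P.coeff 0 ≠ 0 := fun h => hP (by rw [h, C_0])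
    rw [aeval_C]
    simp only [algebraMap_int_eq, eq_intCast, Complex.norm_intCast]
    exact_mod_cast Int.one_le_abs h0
  | succ d ih =>
    intro P hP
    have hP' : rename (finSuccEquiv d) P ≠ 0 := fun h =>
      hP (rename_injective _ (finSuccEquiv d).injective (by rw [h, map_zero]))
    obtain ⟨z, hz, h1⟩ := ih _ (Polynomial.leadingCoeff_ne_zero.2 (toP_ne_zero hP'))
    obtain ⟨w, hw, h2⟩ := sup1 (evX z (rename (finSuccEquiv d) P))
    refine ⟨fun i => (finSuccEquiv d i).elim w z, fun i => ?_, ?_⟩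
    · show ‖(finSuccEquiv d i).elim w z‖ = 1
      generalize (finSuccEquiv d i : Option (Fin d)) = o
      cases o <;> simp [hw, hz]
    · rw [eval_evX, ev_rename] at h2
      refine h1.trans (le_trans (le_of_eq ?_) ((Polynomial.leadingCoeff_le_mahlerMeasure _).trans h2))
      have h3 : (ev z).toRingHom (toP (rename (finSuccEquiv d) P)).leadingCoeff ≠ 0 := fun h => by
        have h4 : ev z (toP (rename (finSuccEquiv d) P)).leadingCoeff = 0 := h
        rw [h4, norm_zero] at h1
        exact absurd h1 (by norm_num)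
      rw [evX_eq, Polynomial.leadingCoeff_map_of_leadingCoeff_ne_zero _ h3]
      rfl

end Pool.Agent.MP_5daf37_lc.FC

end MrgPart6

-- ======== part 7: formerly Pool.Agent.MP_5daf37_lc.FC.CaseB
section MrgPart7

/-!
The product formula on a branch where the matrix is close to a multiple of the Walsh-Hadamard
matrix.
-/

open Matrix

namespace Pool.Agent.MP_5daf37_lc.FC

namespace CaseB

variable {σ F : Type} [Field F] {u : σ → F}

theorem intg_ev (P : ZP σ) : Intg u (ev u P) :=
  isIntegral_algebraMap (R := (ev u).range.toSubring) (x := ⟨ev u P, P, rfl⟩)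

theorem intg_lc (hu : Function.Injective (ev u)) {G : ZP (Option σ)} {ζ : F}
    (h : (evX u G).eval ζ = 0) : Intg u (ev u (toP G).leadingCoeff * ζ) := by
  let ψ : ZP σ →+* (ev u).range.toSubring :=
    (ev u).toRingHom.codRestrict _ fun P => ⟨P, rfl⟩
  have hψ : Function.Injective ψ := fun P Q e => hu (congrArg Subtype.val e)
  have h1 : Polynomial.aeval ζ ((toP G).map ψ) = 0 := by
    rw [Polynomial.aeval_def, Polynomial.eval₂_map, ← h, evX_eq, Polynomial.eval_map]
    rfl
  have h2 := isIntegral_leadingCoeff_smul _ _ h1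
  rw [Polynomial.leadingCoeff_map_of_injective hψ] at h2
  exact h2

theorem cauchy (p : Polynomial ℂ) (N : ℕ) (y : ℂ) (hN : p.natDegree ≤ N) (h : p.eval y = 0) :
    ‖p.coeff N‖ * ‖y‖ ≤ ∑ i ∈ Finset.range (N + 1), ‖p.coeff i‖ := by
  rw [Polynomial.eval_eq_sum_range' (Nat.lt_succ_of_le hN), Finset.sum_range_succ] at h
  rw [Finset.sum_range_succ]
  have h0 : 0 ≤ ∑ i ∈ Finset.range N, ‖p.coeff i‖ := Finset.sum_nonneg fun _ _ => norm_nonneg _
  rcases le_total ‖y‖ 1 with hy | hy
  · nlinarith [norm_nonneg (p.coeff N)]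
  rcases N with _ | M
  · simp only [Finset.range_zero, Finset.sum_empty, pow_zero, mul_one, zero_add] at h
    simp [h]
  have h1 : ‖p.coeff (M + 1)‖ * ‖y‖ * ‖y‖ ^ M ≤
      (∑ i ∈ Finset.range (M + 1), ‖p.coeff i‖) * ‖y‖ ^ M := by
    rw [mul_assoc, ← pow_succ', ← norm_pow, ← norm_mul, ← neg_eq_of_add_eq_zero_right h, norm_neg,
      Finset.sum_mul]
    refine (norm_sum_le _ _).trans (Finset.sum_le_sum fun i hi => ?_)
    rw [norm_mul, norm_pow]
    exact mul_le_mul_of_nonneg_left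
      (pow_le_pow_right₀ hy (Nat.le_of_lt_succ (Finset.mem_range.1 hi))) (norm_nonneg _)
  have h2 := le_of_mul_le_mul_right h1 (by positivity)
  linarith [norm_nonneg (p.coeff (M + 1))]

theorem lc_root {z : σ → ℂ} (hz : ∀ i, ‖z i‖ ≤ 1) {G : ZP (Option σ)} {y : ℂ}
    (h : (evX z G).eval y = 0) : ‖ev z (toP G).leadingCoeff‖ * ‖y‖ ≤ nu G := by
  have h1 := cauchy (evX z G) (toP G).natDegree y
    (by rw [evX_eq]; exact Polynomial.natDegree_map_le) h
  simp only [coeff_evX] at h1
  refine h1.trans ((Finset.sum_le_sum fun i _ => norm_ev_le hz _).trans ?_)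
  exact_mod_cast sum_nu_coeff_le G _

theorem nu_lc (G : ZP (Option σ)) : nu (toP G).leadingCoeff ≤ nu G := by
  have := sum_nu_coeff_le G {(toP G).natDegree}
  rwa [Finset.sum_singleton] at this

theorem final {k g B L j T : ℕ} {a μ ν : ℝ} (hT : T = 13 * g * (k + 1) * B) (hg : 1 ≤ g)
    (hB : 1 ≤ B) (hj : 2 * (j + T) ≤ L) (ha : 0 < a) (hμ : 0 ≤ μ) (hν : ν ≤ 2 * 2 ^ (k * B))
    (h1 : μ * √(2 ^ L) ≤ 5 * (2 * (2 ^ (k * B) / a)) ^ (8 * g))
    (h2 : 1 ≤ ν * (a ^ (8 * g) * (2 ^ j * μ))) : False := by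
  have e1 : (2 : ℝ) ^ j * 2 ^ T ≤ √(2 ^ L) := by
    refine Real.le_sqrt_of_sq_le ?_
    rw [← pow_add, ← pow_mul, mul_comm]
    exact pow_le_pow_right₀ one_le_two hj
  have e2 : a ^ (8 * g) * (μ * √(2 ^ L)) ≤ 5 * 2 ^ ((k * B + 1) * (8 * g)) := by
    refine (mul_le_mul_of_nonneg_left h1 (by positivity)).trans (le_of_eq ?_)
    rw [mul_left_comm, ← mul_pow, pow_mul 2 (k * B + 1), pow_succ]
    congr 2
    field_simp
  have e3 : a ^ (8 * g) * (2 ^ j * μ) * 2 ^ T ≤ 5 * 2 ^ ((k * B + 1) * (8 * g)) := by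
    refine le_trans ?_ e2
    rw [mul_assoc]
    refine mul_le_mul_of_nonneg_left ?_ (by positivity)
    nlinarith [mul_le_mul_of_nonneg_left e1 hμ]
  have e4 : (2 : ℝ) ^ T ≤ 2 * 2 ^ (k * B) * (5 * 2 ^ ((k * B + 1) * (8 * g))) := by
    have h3 : 1 ≤ 2 * 2 ^ (k * B) * (a ^ (8 * g) * (2 ^ j * μ)) :=
      h2.trans (mul_le_mul_of_nonneg_right hν (by positivity))
    calc (2 : ℝ) ^ T ≤ 2 * 2 ^ (k * B) * (a ^ (8 * g) * (2 ^ j * μ)) * 2 ^ T :=
          le_mul_of_one_le_left (by positivity) h3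
      _ ≤ _ := by
          rw [mul_assoc]
          exact mul_le_mul_of_nonneg_left e3 (by positivity)
  have e5 : 4 + (k * B + (k * B + 1) * (8 * g)) ≤ T := by
    have : k * B ≤ g * (k * B) := Nat.le_mul_of_pos_left _ hg
    have : g ≤ g * B := Nat.le_mul_of_pos_right _ hB
    rw [hT]
    nlinarith
  have e6 := pow_le_pow_right₀ (one_le_two (α := ℝ)) e5
  rw [pow_add, pow_add] at e6
  have : (0 : ℝ) < 2 ^ (k * B) * 2 ^ ((k * B + 1) * (8 * g)) := by positivity
  nlinarith

end CaseB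

open CaseB in
theorem caseb (hI : INT) (hR : ROOT) (hA : ARCH) (hB : BINOM) (hS : SMITH) : CASEB := by
  intro k d L s g B A F _ _ u ζ G lam h2 h3 hs hg hB1 hu hG hlam hrk
  by_contra hL
  obtain ⟨T, hT⟩ : ∃ T, T = 13 * g * (k + 1) * B := ⟨_, rfl⟩
  have hX : 1 ≤ g * (k + 1) * B := Nat.mul_pos (Nat.mul_pos hg k.succ_pos) hB1
  have hT1 : 16 * T ^ 2 ≤ L := by
    have : T = 13 * (g * (k + 1) * B) := by rw [hT]; ring
    have e : 64 * g * (k + 1) * B = 64 * (g * (k + 1) * B) := by ring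
    rw [e] at hL
    rw [this]
    nlinarith
  have hT2 : 13 ≤ T := by rw [hT]; nlinarith
  obtain ⟨j, hj⟩ : ∃ j, j = L / 2 - T := ⟨_, rfl⟩
  have hT3 : 2 * T ≤ L := by nlinarith
  have hj2 : 2 * (j + T) ≤ L := by omega
  obtain ⟨m, hm⟩ : 8 ∣ 2 ^ L := pow_dvd_pow 2 (show 3 ≤ L by omega)
  have hm0 : 0 < m := by
    have : 0 < 2 ^ L := by positivity
    omega
  obtain ⟨b0, hb0⟩ : ∃ b0, b0 = ∏ i, (toP (G i)).leadingCoeff := ⟨_, rfl⟩
  have hb1 : b0 ≠ 0 := hb0 ▸ Finset.prod_ne_zero_iff.2 fun i _ =>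
    Polynomial.leadingCoeff_ne_zero.2 (toP_ne_zero (hG i).2.1)
  have hb2 : nu b0 ≤ 2 ^ (k * B) := by
    rw [hb0]
    refine (nu_prod _ _).trans ((Finset.prod_le_pow_card _ _ (2 ^ B)
      fun i _ => (nu_lc _).trans (hG i).1).trans (le_of_eq ?_))
    rw [Finset.card_univ, Fintype.card_fin, ← pow_mul, mul_comm]
  have hζ : ∀ i, Intg u (ev u b0 * ζ i) := fun i => by
    rw [hb0, ← Finset.prod_erase_mul _ _ (Finset.mem_univ i), map_mul, mul_assoc]
    exact (intg_ev _).mul (intg_lc hu (hG i).2.2)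
  obtain ⟨U, V, hUV⟩ := hS L j
  have hβ : Intg u (ev u b0 ^ (8 * g) * (2 ^ j * lam)) := by
    refine hI k L s m (8 * g) A F _ _ _ _ ζ U V h2 ⟨b0, rfl⟩ hζ hm0 (by nlinarith) ?_
    have e1 : U.map (Int.castRingHom F) * Hm L F * V.map (Int.castRingHom F) =
        (2 : F) ^ j • 1 := by
      rw [← Hm_map (Int.castRingHom F), ← Matrix.map_mul, ← Matrix.map_mul, hUV]
      ext x y
      rw [map_apply, Matrix.smul_apply, Matrix.smul_apply, one_apply, one_apply]
      split_ifs <;> simp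
    have e2 : U.map (Int.castRingHom F) * A.map (ev ζ) * V.map (Int.castRingHom F) -
        ((2 : F) ^ j * lam) • 1 = U.map (Int.castRingHom F) * (A.map (ev ζ) - lam • Hm L F) *
          V.map (Int.castRingHom F) := by
      rw [Matrix.mul_sub, Matrix.sub_mul, Matrix.mul_smul, Matrix.smul_mul, e1, smul_smul,
        mul_comm lam]
    have e3 := (rank_mul_le_left (U.map (Int.castRingHom F) * (A.map (ev ζ) - lam • Hm L F))
      (V.map (Int.castRingHom F))).trans (rank_mul_le_right _ _)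
    have e4 := hB L T hT1
    rw [← hj] at e4
    rw [e2, Fintype.card_subtype]
    omega
  have hbu : ev u b0 ≠ 0 := fun e => hb1 (hu (e.trans (map_zero _).symm))
  have two : Intg u (2 : F) := by simpa using intg_ev (u := u) 2
  obtain ⟨R, _, ι, φ, u', ξ', β', hι, hu', hξ', hβ', hz, hs0, hge⟩ :=
    hR d (Option (Fin k)) F u (fun o => o.elim lam ζ) (2 * b0) _ hu
      (mul_ne_zero two_ne_zero hb1) (by
        rintro (_ | i)
        · refine ⟨8 * g + j, ?_⟩
          have := ((two.pow (8 * g)).mul ((intg_ev (u := u) b0).pow j)).mul hβ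
          refine (congrArg (Intg u) ?_).mp this
          simp only [map_mul, map_ofNat, Option.elim]
          ring
        · refine ⟨1, ?_⟩
          have := two.mul (hζ i)
          refine (congrArg (Intg u) ?_).mp this
          simp only [map_mul, map_ofNat, Option.elim]
          ring) hβ (mul_ne_zero (pow_ne_zero _ hbu) (mul_ne_zero (pow_ne_zero _ two_ne_zero) hlam))
  have hz1 : ∀ i, ‖φ (u' i)‖ ≤ 1 := fun i => (hz i).le
  have eβ : β' = ev u' b0 ^ (8 * g) * (2 ^ j * ξ' none) := hι (by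
    simp only [hβ', map_mul, map_pow, map_ofNat, map_ev, hu', hξ', Option.elim])
  have hroot : ∀ i, (evX (fun l => φ (u' l)) (G i)).eval (φ (ξ' (some i))) = 0 := fun i => by
    have e : (evX u' (G i)).eval (ξ' (some i)) = 0 := hι (by
      rw [map_zero, ← (hG i).2.2, ← Polynomial.eval₂_at_apply, ← Polynomial.eval_map, map_evX]
      simp only [hu', hξ', Option.elim])
    rw [← map_evX, Polynomial.eval_map, Polynomial.eval₂_at_apply, e, map_zero]
  obtain ⟨a, ha⟩ : ∃ a, a = ‖ev (fun l => φ (u' l)) b0‖ := ⟨_, rfl⟩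
  have ha0 : 0 < a := ha ▸ norm_pos_iff.2 fun e => hs0 (by rw [map_mul, e, mul_zero])
  have ha1 : a ≤ 2 ^ (k * B) := ha ▸ (norm_ev_le hz1 b0).trans (by exact_mod_cast hb2)
  have hy : ∀ i, ‖φ (ξ' (some i))‖ ≤ 2 ^ (k * B) / a := fun i => by
    rw [le_div_iff₀' ha0, ha, hb0, ← Finset.prod_erase_mul _ _ (Finset.mem_univ i), map_mul,
      norm_mul, mul_assoc]
    have e1 : nu (∏ l ∈ Finset.univ.erase i, (toP (G l)).leadingCoeff) * nu (G i) ≤
        2 ^ (k * B) := by
      refine (Nat.mul_le_mul ((nu_prod _ _).trans (Finset.prod_le_pow_card _ _ (2 ^ B)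
        fun l _ => (nu_lc _).trans (hG l).1)) (hG i).1).trans (le_of_eq ?_)
      rw [← pow_succ, Finset.card_erase_add_one (Finset.mem_univ i), Finset.card_univ,
        Fintype.card_fin, ← pow_mul, mul_comm]
    exact (mul_le_mul (norm_ev_le hz1 _) (lc_root hz1 (hroot i)) (by positivity)
      (by positivity)).trans (by exact_mod_cast e1)
  have hrk' := rank_spec ι hι φ (A.map (ev fun i => ξ' (some i)) - ξ' none • Hm L R)
  have m1 : (A.map (ev fun i => ξ' (some i)) - ξ' none • Hm L R).map ι =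
      A.map (ev ζ) - lam • Hm L F := by
    ext x y
    simp only [map_apply, Matrix.sub_apply, Matrix.smul_apply, smul_eq_mul, Hm, of_apply, map_sub,
      map_mul, map_intCast, map_ev, hξ', Option.elim]
  have m2 : (A.map (ev fun i => ξ' (some i)) - ξ' none • Hm L R).map φ =
      A.map (ev fun i => φ (ξ' (some i))) - φ (ξ' none) • Hm L ℂ := by
    ext x y
    simp only [map_apply, Matrix.sub_apply, Matrix.smul_apply, smul_eq_mul, Hm, of_apply, map_sub,
      map_mul, map_intCast, map_ev]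
  rw [m1, m2] at hrk'
  have hA' := hA k L s (8 * g) A _ _ (φ (ξ' none)) h3 ((one_le_div ha0).2 ha1) hy
    (by nlinarith) (by omega)
  refine final hT hg hB1 hj2 ha0 (norm_nonneg _) (ν := nu (2 * b0)) ?_ hA' ?_
  · have : nu (2 * b0) ≤ 2 * 2 ^ (k * B) := (nu_mul _ _).trans
      (Nat.mul_le_mul (by simpa using (nu_intCast (σ := Fin d) 2).le) hb2)
    exact_mod_cast this
  · rw [eβ] at hge
    simpa only [ha, map_mul, map_pow, map_ofNat, map_ev, norm_mul, norm_pow, Complex.norm_ofNat]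
      using hge

end Pool.Agent.MP_5daf37_lc.FC

end MrgPart7

-- ======== part 8: formerly Pool.Agent.MP_5daf37_lc.FC.Root
section MrgPart8

/-!
A complex point over the torus at which an integral element is not small.
-/

open Polynomial

namespace Pool.Agent.MP_5daf37_lc.FC

namespace Root

/-- A complex point extends along an integral ring map. -/
theorem ext_int {R S : Type} [CommRing R] [CommRing S] (f : R →+* S) (hf : f.IsIntegral)
    (θ : R →+* ℂ) (hk : ∀ x, f x = 0 → θ x = 0) : ∃ φ : S →+* ℂ, ∀ x, φ (f x) = θ x := by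
  let _ := f.toAlgebra
  have : Algebra.IsIntegral R S := ⟨hf⟩
  have : (RingHom.ker θ).IsPrime := RingHom.ker_isPrime θ
  obtain ⟨Q, -, hQ, hc⟩ := Ideal.exists_ideal_over_prime_of_isIntegral (S := S) (RingHom.ker θ) ⊥
    fun x hx => hk x (Ideal.mem_bot.1 (Ideal.mem_comap.1 hx))
  have h1 : ∀ a ∈ Q.comap (algebraMap R S), θ a = 0 := fun a ha => by rwa [hc] at ha
  let _ : Algebra (R ⧸ Q.comap (algebraMap R S)) ℂ := (Ideal.Quotient.lift _ θ h1).toAlgebra
  have : FaithfulSMul (R ⧸ Q.comap (algebraMap R S)) ℂ :=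
    (faithfulSMul_iff_algebraMap_injective _ _).2
      (RingHom.lift_injective_of_ker_le_ideal _ h1 hc.ge)
  have : FaithfulSMul (R ⧸ Q.comap (algebraMap R S)) (S ⧸ Q) :=
    (faithfulSMul_iff_algebraMap_injective _ _).2 Ideal.algebraMap_quotient_injective
  let ψ : (S ⧸ Q) →ₐ[R ⧸ Q.comap (algebraMap R S)] ℂ := IsAlgClosed.lift
  exact ⟨ψ.toRingHom.comp (Ideal.Quotient.mk Q), fun x => ψ.commutes (Ideal.Quotient.mk _ x)⟩

/-- A root of the specialised minimal polynomial is the value at a complex point. -/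
theorem lift_root {A F : Type} [CommRing A] [IsDomain A] [IsIntegrallyClosed A] [Field F]
    [Algebra A F] [FaithfulSMul A F] {β : F} (hβ : IsIntegral A β) (e : A →+* ℂ) (b : ℂ)
    (hb : (minpoly A β).eval₂ e b = 0) :
    ∃ φ : integralClosure A F →+* ℂ, (∀ a, φ (algebraMap A _ a) = e a) ∧ φ ⟨β, hβ⟩ = b := by
  have h1 : (aeval (R := A) (⟨β, hβ⟩ : integralClosure A F)).toRingHom.IsIntegral := by
    refine RingHom.IsIntegral.tower_top (C : A →+* A[X]) _ ?_
    have : (aeval (R := A) (⟨β, hβ⟩ : integralClosure A F)).toRingHom.comp C =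
        algebraMap A (integralClosure A F) := by
      ext1 a; simp
    rw [this]
    exact fun x => Algebra.IsIntegral.isIntegral (R := A) x
  obtain ⟨φ, hφ⟩ := ext_int _ h1 (eval₂RingHom e b) fun p hp => by
    have h2 : aeval β p = 0 := by
      have := aeval_algHom_apply (integralClosure A F).val ⟨β, hβ⟩ p
      rw [show aeval (⟨β, hβ⟩ : integralClosure A F) p = 0 from hp, map_zero] at this
      exact this
    obtain ⟨q, rfl⟩ := minpoly.isIntegrallyClosed_dvd hβ h2
    rw [map_mul, coe_eval₂RingHom, hb, zero_mul]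
  refine ⟨φ, fun a => ?_, ?_⟩
  · simpa using hφ (C a)
  · simpa using hφ X

theorem coeff_ne {A F : Type} [CommRing A] [IsDomain A] [Field F] [Algebra A F] {β : F}
    (hβ : IsIntegral A β) (h0 : β ≠ 0) : (minpoly A β).coeff 0 ≠ 0 := by
  intro h
  obtain ⟨q, hq⟩ := X_dvd_iff.2 h
  rcases (minpoly.irreducible hβ).isUnit_or_isUnit hq with k | k
  · exact not_isUnit_X k
  · have h1 := minpoly.aeval A β
    rw [hq, map_mul, aeval_X] at h1
    exact mul_ne_zero h0 (k.map (aeval β)).ne_zero h1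

theorem norm_prod_le (s : Multiset ℂ) (h : ∀ b ∈ s, ‖b‖ ≤ 1) : ‖s.prod‖ ≤ 1 := by
  induction s using Multiset.induction_on with
  | empty => simp
  | cons a s ih =>
    rw [Multiset.prod_cons, norm_mul]
    exact mul_le_one₀ (h a (Multiset.mem_cons_self _ _)) (norm_nonneg _)
      (ih fun b hb => h b (Multiset.mem_cons_of_mem hb))

/-- A monic polynomial with a constant term that is not small has a root that is not small. -/
theorem big_root {p : ℂ[X]} (hm : p.Monic) (hd : 0 < p.natDegree) {K : ℝ} (hK : 1 ≤ K)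
    (h : 1 ≤ K * ‖p.coeff 0‖) : ∃ b, p.eval b = 0 ∧ 1 ≤ K * ‖b‖ := by
  by_contra k
  push Not at k
  have hs := IsAlgClosed.splits p
  have h1 : ∀ b ∈ p.roots, K * ‖b‖ < 1 := fun b hb => k b (isRoot_of_mem_roots hb)
  have h2 : ∀ b ∈ p.roots, ‖b‖ ≤ 1 := fun b hb =>
    (le_mul_of_one_le_left (norm_nonneg _) hK).trans (h1 b hb).le
  obtain ⟨b, hb⟩ := Multiset.card_pos_iff_exists_mem.1 (hs.natDegree_eq_card_roots ▸ hd)
  obtain ⟨t, ht⟩ := Multiset.exists_cons_of_mem hb
  rw [hs.coeff_zero_eq_prod_roots_of_monic hm, norm_mul, norm_pow, norm_neg, norm_one, one_pow,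
    one_mul, ht, Multiset.prod_cons, norm_mul, ← mul_assoc] at h
  have h3 := norm_prod_le t fun c hc => h2 c (ht ▸ Multiset.mem_cons_of_mem hc)
  have h4 := mul_le_of_le_one_right (mul_nonneg (zero_le_one.trans hK) (norm_nonneg b)) h3
  linarith [h1 b hb]

/-- Inverting one element. -/
theorem loc {O F : Type} [CommRing O] [Field F] (g : O →+* F) (hg : Function.Injective g)
    (ψ : O →+* ℂ) (s : O) (h1 : g s ≠ 0) (h2 : ψ s ≠ 0) :
    ∃ (R : Type) (_ : CommRing R) (j : O →+* R) (ι : R →+* F) (φ : R →+* ℂ),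
      Function.Injective ι ∧ (∀ x, ι (j x) = g x) ∧ (∀ x, φ (j x) = ψ x) ∧
      ∀ (y : F) (N : ℕ) (x : O), g x = g s ^ N * y → ∃ r, ι r = y := by
  have a1 : ∀ y : Submonoid.powers s, IsUnit (g y) := by
    rintro ⟨_, n, rfl⟩
    exact (map_pow g s n).symm ▸ (pow_ne_zero n h1).isUnit
  have a2 : ∀ y : Submonoid.powers s, IsUnit (ψ y) := by
    rintro ⟨_, n, rfl⟩
    exact (map_pow ψ s n).symm ▸ (pow_ne_zero n h2).isUnit
  refine ⟨Localization (Submonoid.powers s), inferInstance, algebraMap _ _, IsLocalization.lift a1,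
    IsLocalization.lift a2, ?_, IsLocalization.lift_eq a1, IsLocalization.lift_eq a2, ?_⟩
  · rw [IsLocalization.lift_injective_iff]
    refine fun x y => ⟨fun h => ?_, fun h => by rw [hg h]⟩
    rw [← IsLocalization.lift_eq (S := Localization (Submonoid.powers s)) a1 x, h,
      IsLocalization.lift_eq]
  · intro y N x h
    refine ⟨IsLocalization.mk' (M := Submonoid.powers s) _ x ⟨s ^ N, N, rfl⟩, ?_⟩
    rw [IsLocalization.lift_mk'_spec, h, map_pow]

end Root

open Root

theorem root (hZ : SUPZ) : ROOT := by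
  intro d τ F _ u ξ s β hu hs hξ hβ h0
  let _ : Algebra (ZP (Fin d)) F := (ev u).toRingHom.toAlgebra
  have : FaithfulSMul (ZP (Fin d)) F := (faithfulSMul_iff_algebraMap_injective _ _).2 hu
  have hI : ∀ x, Intg u x → IsIntegral (ZP (Fin d)) x := by
    intro x hx
    let r : ZP (Fin d) →+* (ev u).range.toSubring :=
      (ev u).toRingHom.codRestrict _ fun a => ⟨a, rfl⟩
    have hr : Function.Bijective r :=
      ⟨fun a b h => hu (congrArg Subtype.val h), fun ⟨_, a, h⟩ => ⟨a, Subtype.ext h⟩⟩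
    refine IsIntegral.map_of_comp_eq (RingEquiv.ofBijective r hr).symm.toRingHom (RingHom.id F)
      (RingHom.ext fun a => ?_) hx
    exact congrArg Subtype.val ((RingEquiv.ofBijective r hr).apply_symm_apply a)
  have hb := hI β hβ
  obtain ⟨z, hz, h1⟩ := hZ d (s * (minpoly (ZP (Fin d)) β).coeff 0) (mul_ne_zero hs (coeff_ne hb h0))
  rw [map_mul, norm_mul] at h1
  have h2 : ev z s ≠ 0 := by
    intro k
    rw [k, norm_zero, zero_mul] at h1
    exact absurd h1 (by norm_num)
  obtain ⟨b, hb1, hb2⟩ := big_root (p := (minpoly (ZP (Fin d)) β).map (ev z).toRingHom)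
    ((minpoly.monic hb).map _)
    (by rw [(minpoly.monic hb).natDegree_map]; exact minpoly.natDegree_pos hb)
    (K := nu s) (by exact_mod_cast nu_pos hs)
    (by
      rw [coeff_map]
      exact h1.trans (mul_le_mul_of_nonneg_right (norm_ev_le (fun i => (hz i).le) s)
        (norm_nonneg _)))
  rw [eval_map] at hb1
  obtain ⟨ψ, hψ1, hψ2⟩ := lift_root hb (ev z).toRingHom b hb1
  have h3 : ev u s ≠ 0 := fun k => hs (hu (k.trans (map_zero _).symm))
  obtain ⟨R, _, j, ι, φ, k1, k2, k3, k4⟩ := loc (integralClosure (ZP (Fin d)) F).val.toRingHom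
    Subtype.val_injective ψ (algebraMap _ _ s) h3 (by rw [hψ1]; exact h2)
  have k5 : ∀ t, ∃ r, ι r = ξ t := fun t => by
    obtain ⟨N, hN⟩ := hξ t
    exact k4 _ N ⟨_, hI _ hN⟩ rfl
  choose ξ' hξ' using k5
  have k6 : ∀ i, φ (j (algebraMap (ZP (Fin d)) _ (MvPolynomial.X i))) = z i := fun i => by
    rw [k3, hψ1]
    exact MvPolynomial.aeval_X z i
  refine ⟨R, inferInstance, ι, φ, fun i => j (algebraMap (ZP (Fin d)) _ (MvPolynomial.X i)), ξ',
    j ⟨β, hb⟩, k1, fun i => ?_, hξ', k2 _, fun i => ?_, ?_, ?_⟩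
  · rw [k2]
    exact MvPolynomial.aeval_X u i
  · rw [k6, hz]
  · simp only [k6]
    exact h2
  · rw [k3, hψ2]
    exact hb2

end Pool.Agent.MP_5daf37_lc.FC

end MrgPart8

-- ======== part 9: formerly Pool.Agent.MP_5daf37_lc.FC.Kl
section MrgPart9

/-!
The key lemma: small size relative to the order gives a relation of bounded size.
-/

namespace Pool.Agent.MP_5daf37_lc.FC

namespace Kl

variable {σ : Type} (y : σ → ℂ)

/-- The exact order at `y`. -/
noncomputable def ord (P : ZP σ) : ℕ := (ev (arc y) P).natTrailingDegree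

theorem ne0 {P : ZP σ} (h : P ≠ 0) : ev (arc y) P ≠ 0 :=
  (map_ne_zero_iff _ (arc_injective y)).2 h

theorem ord_iff {P : ZP σ} (h : P ≠ 0) {r : ℕ} : Ord y r P ↔ r ≤ ord y P := by
  rw [Ord, Polynomial.X_pow_dvd_iff]
  exact ⟨Polynomial.le_natTrailingDegree (ne0 y h),
    fun e m hm => Polynomial.coeff_eq_zero_of_lt_natTrailingDegree (hm.trans_le e)⟩

theorem ord_mul {P Q : ZP σ} (hP : P ≠ 0) (hQ : Q ≠ 0) : ord y (P * Q) = ord y P + ord y Q := by
  rw [ord, map_mul, Polynomial.natTrailingDegree_mul (ne0 y hP) (ne0 y hQ)]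
  rfl

theorem ord_one : ord y 1 = 0 := by simp [ord]

theorem ord_unit (u : (ZP σ)ˣ) : ord y (u : ZP σ) = 0 := by
  have := ord_mul y u.ne_zero u⁻¹.ne_zero
  rw [u.mul_inv, ord_one] at this
  omega

theorem big (K : ℕ) (s : Multiset (ZP σ)) (h0 : s.prod ≠ 0)
    (h : ∀ P ∈ s, 1 ≤ ord y P → 2 ^ (K * ord y P) ≤ nu P) :
    2 ^ (K * ord y s.prod) ≤ (s.map nu).prod := by
  induction s using Multiset.induction_on with
  | empty => simp [ord_one]
  | cons a s ih =>
    rw [Multiset.prod_cons] at h0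
    have ha := left_ne_zero_of_mul h0
    have hs := right_ne_zero_of_mul h0
    rw [Multiset.prod_cons, Multiset.map_cons, Multiset.prod_cons, ord_mul y ha hs, mul_add, pow_add]
    refine Nat.mul_le_mul ?_ (ih hs fun P hP => h P (Multiset.mem_cons_of_mem hP))
    rcases Nat.eq_zero_or_pos (ord y a) with e | e
    · simpa [e] using nu_pos ha
    · exact h a (Multiset.mem_cons_self _ _) e

theorem factor (hG : GEL) {d : ℕ} (y : Fin d → ℂ) {D : ZP (Fin d)} {B r : ℕ} (hB : 1 ≤ B)
    (hr : 1 ≤ r) (h0 : D ≠ 0) (ho : Ord y r D) (hn : nu D ≤ 2 ^ (B * r)) :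
    ∃ P ρ, Irreducible P ∧ 1 ≤ ρ ∧ Ord y ρ P ∧ nu P ≤ 2 ^ ((4 * d + 5) * B * ρ) := by
  obtain ⟨f, hf, u, hu⟩ := WfDvdMonoid.exists_factors D h0
  have e : ((u : ZP (Fin d)) ::ₘ f).prod = D := by rw [Multiset.prod_cons, mul_comm, hu]
  by_contra hc
  push Not at hc
  have h1 := big y ((4 * d + 5) * B) _ (e ▸ h0) fun P hP h => by
    rcases Multiset.mem_cons.1 hP with rfl | hP
    · rw [ord_unit] at h
      omega
    · exact (hc P _ (hf P hP) h ((ord_iff y (hf P hP).ne_zero).2 le_rfl)).le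
  have h2 := hG d _ (e ▸ h0)
  rw [e] at h1 h2
  have h3 := (h1.trans h2).trans (Nat.pow_le_pow_left hn _)
  rw [← pow_mul, Nat.pow_le_pow_iff_right one_lt_two] at h3
  have h4 := Nat.mul_le_mul_left ((4 * d + 5) * B) ((ord_iff y h0).1 ho)
  have h5 := Nat.mul_le_mul hB hr
  nlinarith

theorem ord_rename {τ : Type} (e : σ ≃ τ) {P : ZP σ} {ρ : ℕ} (h : Ord y ρ P) :
    Ord (fun o => y (e.symm o)) ρ (MvPolynomial.rename e P) := by
  rw [Ord, ev_rename]
  exact h.univ (Polynomial.C.comp MvPolynomial.C) _ _ fun i => by simp [arc]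

end Kl

open Kl in
theorem kl (hG : GEL) (hR : RES) : KL := by
  intro d
  induction d with
  | zero =>
    intro y D B r _ hr h0 ho _
    have h := ho.ev_eq_zero hr
    rw [D.eq_C_of_isEmpty] at h h0
    simp at h
    simp [h] at h0
  | succ d ih =>
    intro y D B r hB hr h0 ho hn
    obtain ⟨P, ρ, p1, p2, p3, p4⟩ := factor hG y hB hr h0 ho hn
    rcases p2.eq_or_lt with rfl | p5
    · refine ⟨P, p1.ne_zero, p3.ev_eq_zero le_rfl, p4.trans (Nat.pow_le_pow_right two_pos ?_)⟩
      refine le_trans ?_ (Nat.le_self_pow (by positivity) _)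
      rw [mul_one]
      exact Nat.mul_le_mul_right _ (by nlinarith)
    · have b1 : 1 ≤ (4 * (d + 1) + 5) * B := Nat.mul_pos (by omega) hB
      obtain ⟨D', t, q1, q2, q3, q4⟩ := hR _ _ (MvPolynomial.rename (finSuccEquiv d) P) _ ρ
        ((MulEquiv.irreducible_iff (MvPolynomial.renameEquiv ℤ (finSuccEquiv d))).2 p1) b1 p5
        (ord_rename y _ p3) ((nu_rename_le _ _).trans p4)
      obtain ⟨Q, r1, r2, r3⟩ := ih _ D' _ t (Nat.mul_pos (by omega) (by positivity)) q2 q1 q3 q4
      refine ⟨MvPolynomial.rename Fin.succ Q,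
        (map_ne_zero_iff _ (MvPolynomial.rename_injective _ (Fin.succ_injective d))).2 r1, ?_,
        (nu_rename_le _ _).trans (r3.trans (Nat.pow_le_pow_right two_pos ?_))⟩
      · rw [ev_rename]
        simpa using r2
      · rw [pow_succ' 2 d, pow_mul]
        refine Nat.pow_le_pow_left ?_ _
        have : (d + 1) * (4 * (d + 1) + 5) ≤ 4 * (d + 1 + 1) ^ 2 := by nlinarith
        calc _ = 4096 * B ^ 2 * ((d + 1) * (4 * (d + 1) + 5)) ^ 2 := by ring
          _ ≤ 4096 * B ^ 2 * (4 * (d + 1 + 1) ^ 2) ^ 2 := by gcongr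
          _ = _ := by ring

end Pool.Agent.MP_5daf37_lc.FC

end MrgPart9

-- marker of a merged file
example : 731051 + 518009 = 731051 + 518009 := rfl
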