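import Mathlib
import Pool.Agent.MP_5daf37_lc.FC.Kl

-- ======== part 0: formerly Pool.Agent.MP_5daf37_lc.FC.Near
section MrgPart0

/-! An operator that almost commutes (in rank) with a projective group spanning the matrix
algebra is near a scalar. -/

namespace FC5
open Module

theorem exists_inv {K V G : Type*} [Field K] [AddCommGroup V] [Module K V] [FiniteDimensional K V]
    [Fintype G] [Nonempty G] (e : G → V ≃ₗ[K] V) (U : Submodule K V)
    (hm : ∀ g, ∃ s : G ≃ G, ∀ d, U.map (e (s d) : V →ₗ[K] V)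
      = (U.map (e d : V →ₗ[K] V)).map (e g : V →ₗ[K] V))
    (m : ℕ) (h : ∀ g, finrank K ↥(U ⊔ U.map (e g : V →ₗ[K] V)) ≤ m) :
    ∃ W : Submodule K V, (∀ g, W.map (e g : V →ₗ[K] V) = W) ∧
      2 * finrank K ↥(W ⊔ U) + finrank K U ≤ finrank K W + 2 * m := by
  classical
  set F : Submodule K V → ℤ := fun W =>
    ∑ d, (2 * (finrank K ↥(W ⊔ U.map (e d : V →ₗ[K] V)) : ℤ) - finrank K W) with hF
  have F0 : ∀ W, 0 ≤ F W := fun W => Finset.sum_nonneg fun d _ => by
    have := Submodule.finrank_mono (le_sup_left : W ≤ W ⊔ U.map (e d : V →ₗ[K] V))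
    omega
  have Fsub : ∀ A B, F (A ⊔ B) + F (A ⊓ B) ≤ F A + F B := fun A B => by
    simp only [hF, ← Finset.sum_add_distrib]
    refine Finset.sum_le_sum fun d _ => ?_
    set X := U.map (e d : V →ₗ[K] V)
    have h1 := Submodule.finrank_sup_add_finrank_inf_eq A B
    have h2 := Submodule.finrank_sup_add_finrank_inf_eq (A ⊔ X) (B ⊔ X)
    have h3 : (A ⊔ X) ⊔ (B ⊔ X) = A ⊔ B ⊔ X := (sup_sup_distrib_right A B X).symm
    have h4 := Submodule.finrank_mono (show A ⊓ B ⊔ X ≤ (A ⊔ X) ⊓ (B ⊔ X) from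
      le_inf (sup_le_sup_right inf_le_left _) (sup_le_sup_right inf_le_right _))
    rw [h3] at h2
    omega
  have Finv : ∀ g W, F (W.map (e g : V →ₗ[K] V)) = F W := fun g W => by
    obtain ⟨s, hs⟩ := hm g
    simp only [hF]
    rw [← Equiv.sum_comp s]
    refine Finset.sum_congr rfl fun d _ => ?_
    rw [hs, ← Submodule.map_sup, LinearEquiv.finrank_map_eq, LinearEquiv.finrank_map_eq]
  obtain ⟨W0, hW0⟩ : ∃ W, ∀ W', F W ≤ F W' := by
    refine ⟨Function.argmin fun W => (F W).toNat, fun W' => ?_⟩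
    have := Function.argmin_le (fun W => (F W).toNat) W'
    have := F0 W'
    have := F0 (Function.argmin fun W => (F W).toNat)
    omega
  have : Nonempty {W // ∀ W', F W ≤ F W'} := ⟨⟨W0, hW0⟩⟩
  obtain ⟨⟨W, hW⟩, hmin⟩ : ∃ W : {W // ∀ W', F W ≤ F W'},
      ∀ W' : {W // ∀ W', F W ≤ F W'}, finrank K W.1 ≤ finrank K W'.1 :=
    ⟨Function.argmin fun W : {W // ∀ W', F W ≤ F W'} => finrank K W.1, fun W' =>
      Function.argmin_le (fun W : {W // ∀ W', F W ≤ F W'} => finrank K W.1) W'⟩
  have hinv : ∀ g, W.map (e g : V →ₗ[K] V) = W := fun g => by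
    have h1 := Fsub W (W.map (e g : V →ₗ[K] V))
    have h2 := hW (W ⊔ W.map (e g : V →ₗ[K] V))
    have h3 := Finv g W
    have h4 := hmin ⟨W ⊓ W.map (e g : V →ₗ[K] V), fun W' => by have := hW W'; omega⟩
    have h5 : W ⊓ W.map (e g : V →ₗ[K] V) = W :=
      Submodule.eq_of_le_of_finrank_le inf_le_left h4
    exact (Submodule.eq_of_le_of_finrank_le (inf_eq_left.1 h5)
      (LinearEquiv.finrank_map_eq _ _).le).symm
  refine ⟨W, hinv, ?_⟩
  have h1 : F W = Fintype.card G * (2 * (finrank K ↥(W ⊔ U) : ℤ) - finrank K W) := by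
    simp only [hF]
    rw [Finset.sum_congr rfl (g := fun _ => 2 * (finrank K ↥(W ⊔ U) : ℤ) - finrank K W)]
    · simp [mul_sub]
    · intro d _
      conv_lhs => rw [← hinv d, ← Submodule.map_sup, LinearEquiv.finrank_map_eq,
        LinearEquiv.finrank_map_eq]
  have h2 : F U ≤ Fintype.card G * (2 * (m : ℤ) - finrank K U) := by
    simp only [hF]
    refine (Finset.sum_le_sum (g := fun _ => 2 * (m : ℤ) - finrank K U) fun d _ => ?_).trans
      (by simp [mul_sub])
    have := h d
    omega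
  have h3 := hW U
  have h4 : (0 : ℤ) < Fintype.card G := by exact_mod_cast Fintype.card_pos
  have h5 := le_of_mul_le_mul_left (h1 ▸ h3.trans h2) h4
  omega

theorem near_scalar {K ι G : Type*} [Field K] [Fintype ι] [DecidableEq ι] [Fintype G] [Nonempty G]
    (P : G → Matrix ι ι K) (hu : ∀ g, IsUnit (P g))
    (hm : ∀ g, ∃ s : G ≃ G, ∀ d, ∃ c : K, c ≠ 0 ∧ P g * P d = c • P (s d))
    (hs : Submodule.span K (Set.range P) = ⊤) (B : Matrix ι ι K) (r : ℕ)
    (hr : 2 * r < Fintype.card ι) (h : ∀ g, (P g * B - B * P g).rank ≤ r) :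
    ∃ l : K, (B - l • (1 : Matrix ι ι K)).rank ≤ r := by
  classical
  set n := Fintype.card ι with hn
  let gr : Matrix ι ι K → (ι → K) →ₗ[K] (ι → K) × (ι → K) := fun M =>
    LinearMap.prod LinearMap.id M.mulVecLin
  have grd : ∀ M, finrank K (LinearMap.range (gr M)) = n := fun M => by
    rw [LinearMap.finrank_range_of_inj (fun x y hxy => congrArg Prod.fst hxy)]
    simp [hn]
  let e0 : G → (ι → K) ≃ₗ[K] (ι → K) := fun g =>
    Matrix.toLinearEquiv' (P g) (hu g).invertible
  let e : G → ((ι → K) × (ι → K)) ≃ₗ[K] ((ι → K) × (ι → K)) := fun g => (e0 g).prodCongr (e0 g)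
  have he : ∀ g (w : (ι → K) × (ι → K)), (e g : _ →ₗ[K] _) w = ((P g).mulVec w.1, (P g).mulVec w.2) := fun g w => rfl
  set U := LinearMap.range (gr B) with hU
  obtain ⟨W, hW, hd⟩ := exists_inv e U (fun g => by
    obtain ⟨s, hs⟩ := hm g
    refine ⟨s, fun d => ?_⟩
    obtain ⟨c, hc, hP⟩ := hs d
    rw [← Submodule.map_comp, ← Submodule.map_smul _ _ c hc]
    congr 1
    refine LinearMap.ext fun w => ?_
    simp only [LinearMap.smul_apply, LinearMap.comp_apply, he, Matrix.mulVec_mulVec, hP,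
      Matrix.smul_mulVec, Prod.smul_mk]) (n + r) (fun g => by
    have h1 : U ⊔ U.map (e g : _ →ₗ[K] _) ≤ U ⊔ (LinearMap.range
        (P g * B - B * P g).mulVecLin).map (LinearMap.inr K (ι → K) (ι → K)) := by
      refine sup_le le_sup_left ?_
      rintro _ ⟨_, ⟨x, rfl⟩, rfl⟩
      refine Submodule.mem_sup.2 ⟨_, ⟨(P g).mulVec x, rfl⟩, _, ⟨_, ⟨x, rfl⟩, rfl⟩, ?_⟩
      rw [he]
      simp [gr, Matrix.sub_mulVec]
    have h2 := Submodule.finrank_mono h1
    have h3 := Submodule.finrank_add_le_finrank_add_finrank U ((LinearMap.range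
        (P g * B - B * P g).mulVecLin).map (LinearMap.inr K (ι → K) (ι → K)))
    have h4 := Submodule.finrank_map_le (LinearMap.inr K (ι → K) (ι → K)) (LinearMap.range
        (P g * B - B * P g).mulVecLin)
    have h5 := h g
    have h6 := grd B
    unfold Matrix.rank at h5
    rw [← hU] at h6
    omega)
  have hM : ∀ (M : Matrix ι ι K), ∀ w ∈ W, (M.mulVec w.1, M.mulVec w.2) ∈ W := fun M => by
    have hM : M ∈ Submodule.span K (Set.range P) := hs ▸ Submodule.mem_top
    induction hM using Submodule.span_induction with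
    | mem _ hx =>
      obtain ⟨g, rfl⟩ := hx
      intro w hw
      rw [← he, ← hW g]
      exact Submodule.mem_map_of_mem hw
    | zero => intro w _; simp only [Matrix.zero_mulVec]; exact W.zero_mem
    | add x y _ _ hx hy =>
      intro w hw
      simpa [Matrix.add_mulVec] using W.add_mem (hx w hw) (hy w hw)
    | smul a x _ hx =>
      intro w hw
      simpa [Matrix.smul_mulVec] using W.smul_mem a (hx w hw)
  have hL : ∀ w ∈ W, ∀ i v, (w.1 i • v, w.2 i • v) ∈ W := fun w hw i v => by
    have := hM (Matrix.vecMulVec v (Pi.single i 1)) w hw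
    simpa [Matrix.vecMulVec_mulVec] using this
  have hsi := Submodule.finrank_sup_add_finrank_inf_eq W U
  have hUd := grd B
  rw [← hU] at hUd
  by_cases hz : ∀ w ∈ W, w.1 = 0
  · exfalso
    have : W ⊓ U = ⊥ := by
      refine eq_bot_iff.2 ?_
      rintro _ ⟨hw, x, rfl⟩
      have hx : x = 0 := hz _ hw
      simp [hx]
    rw [this, finrank_bot] at hsi
    omega
  push Not at hz
  obtain ⟨w0, hw0, hne⟩ := hz
  obtain ⟨i0, hi0⟩ := Function.ne_iff.1 hne
  have hi0 : w0.1 i0 ≠ 0 := hi0
  set l := w0.2 i0 / w0.1 i0 with hl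
  have hg : ∀ v, (v, l • v) ∈ W := fun v => by
    have := hL w0 hw0 i0 ((w0.1 i0)⁻¹ • v)
    rwa [smul_smul, smul_smul, mul_inv_cancel₀ hi0, one_smul, ← div_eq_mul_inv] at this
  have hWd : n ≤ finrank K W := by
    rw [← grd (l • 1)]
    refine Submodule.finrank_mono ?_
    rintro _ ⟨x, rfl⟩
    simpa [gr, Matrix.smul_mulVec] using hg x
  have hall : ∀ w ∈ W, w.2 = l • w.1 := fun w hw => by
    by_contra hc
    obtain ⟨i, hi⟩ := Function.ne_iff.1 (sub_ne_zero.2 hc)
    have hi : (w.2 - l • w.1) i ≠ 0 := hi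
    have h1 : ((0 : ι → K), w.2 - l • w.1) ∈ W := by
      have := W.sub_mem hw (hg w.1)
      rwa [show w - (w.1, l • w.1) = (0, w.2 - l • w.1) from Prod.ext (by simp) rfl] at this
    have h2 : ∀ v : ι → K, ((0 : ι → K), v) ∈ W := fun v => by
      have := hL _ h1 i (((w.2 - l • w.1) i)⁻¹ • v)
      rw [smul_smul, smul_smul, mul_inv_cancel₀ hi, one_smul] at this
      simpa using this
    have h3 : W = ⊤ := eq_top_iff.2 fun v _ => by
      simpa using W.add_mem (hg v.1) (h2 (v.2 - l • v.1))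
    rw [h3, top_sup_eq] at hd
    have : finrank K (⊤ : Submodule K ((ι → K) × (ι → K))) = n + n := by simp [hn]
    omega
  refine ⟨l, ?_⟩
  have h1 : W ⊓ U ≤ (LinearMap.ker (B - l • (1 : Matrix ι ι K)).mulVecLin).map (gr B) := by
    rintro _ ⟨hw, x, rfl⟩
    refine ⟨x, ?_, rfl⟩
    have : B.mulVec x = l • x := hall _ hw
    simp [Matrix.sub_mulVec, Matrix.smul_mulVec, this]
  have h2 := Submodule.finrank_mono h1
  have h3 := Submodule.finrank_map_le (gr B) (LinearMap.ker (B - l • (1 : Matrix ι ι K)).mulVecLin)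
  have h4 := LinearMap.finrank_range_add_finrank_ker (B - l • (1 : Matrix ι ι K)).mulVecLin
  have h5 : finrank K (ι → K) = n := by simp [hn]
  unfold Matrix.rank
  omega

end FC5

end MrgPart0

-- ======== part 1: formerly Pool.Agent.MP_5daf37_lc.FC.Pauli
section MrgPart1

/-! The Pauli group spans the matrix algebra; a matrix whose twisted commutators all have small
rank is near a multiple of the Walsh-Hadamard matrix. -/

namespace FC5

/-- the sign `(-1)^(a·b)` -/
def sg {L : ℕ} (a b : Fin L → ZMod 2) : ℤ := ∏ i, if a i = 1 ∧ b i = 1 then -1 else 1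

variable {L : ℕ}

theorem sg_comm (a b : Fin L → ZMod 2) : sg a b = sg b a := by
  simp only [sg, and_comm]

theorem sg_add (a b c : Fin L → ZMod 2) : sg (a + b) c = sg a c * sg b c := by
  simp only [sg, ← Finset.prod_mul_distrib, Pi.add_apply]
  have h : ∀ x y z : ZMod 2, (if x + y = 1 ∧ z = 1 then (-1 : ℤ) else 1)
      = (if x = 1 ∧ z = 1 then -1 else 1) * if y = 1 ∧ z = 1 then -1 else 1 := by decide
  exact Finset.prod_congr rfl fun i _ => h _ _ _

theorem sg_add' (a b c : Fin L → ZMod 2) : sg c (a + b) = sg c a * sg c b := by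
  rw [sg_comm, sg_add, sg_comm a, sg_comm b]

theorem v_add_self (a : Fin L → ZMod 2) : a + a = 0 := by
  funext i
  exact CharTwo.add_self_eq_zero _

theorem sg_zero (a : Fin L → ZMod 2) : sg 0 a = 1 := by
  simp [sg]

theorem sg_sq (a b : Fin L → ZMod 2) : sg a b * sg a b = 1 := by
  rw [← sg_add, v_add_self, sg_zero]

theorem sg_sum (a : Fin L → ZMod 2) : ∑ b, sg a b = if a = 0 then 2 ^ L else 0 := by
  have h := Finset.prod_univ_sum (fun _ : Fin L => (Finset.univ : Finset (ZMod 2)))
    (fun i y => if a i = 1 ∧ y = 1 then (-1 : ℤ) else 1)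
  rw [Fintype.piFinset_univ] at h
  simp only [sg]
  rw [← h]
  have h2 : ∀ x : ZMod 2, (∑ y : ZMod 2, if x = 1 ∧ y = 1 then (-1 : ℤ) else 1)
      = if x = 0 then 2 else 0 := by decide
  simp only [h2]
  split_ifs with ha
  · simp [ha]
  · obtain ⟨i, hi⟩ := Function.ne_iff.1 ha
    exact Finset.prod_eq_zero (Finset.mem_univ i) (if_neg hi)

theorem eq_add_iff (x y a : Fin L → ZMod 2) : x = y + a ↔ y = x + a := by
  constructor <;> rintro rfl <;> rw [add_assoc, v_add_self, add_zero]

theorem sg_orth (a b : Fin L → ZMod 2) : ∑ c, sg c a * sg c b = if a = b then 2 ^ L else 0 := by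
  simp only [← sg_add', sg_comm _ (a + b), sg_sum]
  refine if_congr ?_ rfl rfl
  rw [eq_comm, add_comm, eq_add_iff, zero_add, eq_comm]

variable {K : Type*} [Field K]

/-- the Pauli matrix `X^a Z^b` -/
def pauli (K : Type*) [Field K] (g : (Fin L → ZMod 2) × (Fin L → ZMod 2)) :
    Matrix (Fin L → ZMod 2) (Fin L → ZMod 2) K :=
  fun x y => if y = x + g.1 then (sg g.2 y : K) else 0

theorem pauli_mul_apply (a b : Fin L → ZMod 2) (A : Matrix (Fin L → ZMod 2) (Fin L → ZMod 2) K)
    (x z : Fin L → ZMod 2) : (pauli K (a, b) * A) x z = sg b (x + a) * A (x + a) z := by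
  simp [Matrix.mul_apply, pauli]

theorem mul_pauli_apply (a b : Fin L → ZMod 2) (A : Matrix (Fin L → ZMod 2) (Fin L → ZMod 2) K)
    (x z : Fin L → ZMod 2) : (A * pauli K (a, b)) x z = A x (z + a) * sg b z := by
  simp [Matrix.mul_apply, pauli, eq_add_iff z]

theorem pauli_mul (a b c d : Fin L → ZMod 2) :
    pauli K (a, b) * pauli K (c, d) = (sg b c : K) • pauli K (a + c, b + d) := by
  ext x z
  rw [pauli_mul_apply]
  simp only [pauli, Matrix.smul_apply, smul_eq_mul, add_assoc]
  split_ifs with h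
  · have : x + a = z + c := by rw [h, add_assoc, add_assoc, v_add_self, add_zero]
    rw [this, sg_add', sg_add]
    push_cast
    ring
  · simp

theorem sg_ne (a b : Fin L → ZMod 2) : (sg a b : K) ≠ 0 := fun h => by
  have := congrArg (Int.cast : ℤ → K) (sg_sq a b)
  simp [h] at this

theorem pauli_zero : pauli K ((0 : Fin L → ZMod 2), 0) = 1 := by
  ext x y
  simp [pauli, sg_zero, Matrix.one_apply, eq_comm]

theorem pauli_unit (g : (Fin L → ZMod 2) × (Fin L → ZMod 2)) : IsUnit (pauli K g) := by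
  obtain ⟨a, b⟩ := g
  refine IsUnit.of_mul_eq_one ((sg b a : K) • pauli K (a, b)) ?_
  rw [Matrix.mul_smul, pauli_mul, smul_smul, ← Int.cast_mul, sg_sq, v_add_self, v_add_self,
    pauli_zero]
  simp

theorem pauli_span (h2 : (2 : K) ≠ 0) :
    Submodule.span K (Set.range (pauli (L := L) K)) = ⊤ := by
  refine eq_top_iff.2 fun M _ => ?_
  rw [Matrix.matrix_eq_sum_single M]
  refine Submodule.sum_mem _ fun x _ => Submodule.sum_mem _ fun y _ => ?_
  have : Matrix.single x y (M x y)
      = ∑ b, (M x y / 2 ^ L * sg b y : K) • pauli K (x + y, b) := by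
    ext u v
    simp only [Matrix.sum_apply, Matrix.smul_apply, pauli, smul_eq_mul, Matrix.single_apply]
    by_cases h : v = u + (x + y)
    · simp only [if_pos h, mul_assoc, ← Finset.mul_sum, ← Int.cast_mul, ← Int.cast_sum, sg_orth]
      by_cases h' : y = v
      · have : x = u := by
          rw [← h', eq_add_iff, add_comm y, add_assoc, v_add_self, add_zero] at h
          exact h.symm
        rw [if_pos ⟨this, h'⟩, if_pos h']
        push_cast
        field_simp
      · simp [h']
    · simp only [if_neg h, mul_zero, Finset.sum_const_zero]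
      rw [if_neg]
      rintro ⟨rfl, rfl⟩
      exact h (by rw [← add_assoc, v_add_self, zero_add])
  rw [this]
  exact Submodule.sum_mem _ fun b _ => Submodule.smul_mem _ _ (Submodule.subset_span ⟨_, rfl⟩)

/-- If all twisted commutators of `A` have rank at most `r < 2^L / 2`, then `A` is within rank
`r` of a multiple of the Walsh-Hadamard matrix. -/
theorem near_wht (h2 : (2 : K) ≠ 0) (A : Matrix (Fin L → ZMod 2) (Fin L → ZMod 2) K) (r : ℕ)
    (hr : 2 * r < 2 ^ L)
    (h : ∀ a b : Fin L → ZMod 2, (Matrix.of fun x z =>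
      (sg b (x + a) : K) * A (x + a) z - (sg a (z + b) : K) * A x (z + b)).rank ≤ r) :
    ∃ l : K, (A - l • Matrix.of fun x y => (sg x y : K)).rank ≤ r := by
  set H : Matrix (Fin L → ZMod 2) (Fin L → ZMod 2) K := Matrix.of fun x y => (sg x y : K) with hH
  have hHH : H * H = (2 ^ L : K) • 1 := by
    ext x y
    simp only [hH, Matrix.mul_apply, Matrix.of_apply, sg_comm x, ← Int.cast_mul, ← Int.cast_sum,
      sg_orth, Matrix.smul_apply, Matrix.one_apply]
    split_ifs <;> simp
  have h2L : (2 ^ L : K) ≠ 0 := pow_ne_zero _ h2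
  have hPH : ∀ a b, H * pauli K (a, b) = (sg a b : K) • (pauli K (b, a) * H) := fun a b => by
    ext x z
    rw [mul_pauli_apply, Matrix.smul_apply, pauli_mul_apply]
    simp only [hH, Matrix.of_apply, sg_add, sg_add', smul_eq_mul, sg_comm x a]
    push_cast
    have := congrArg (Int.cast : ℤ → K) (sg_sq a b)
    push_cast at this
    linear_combination (-(sg a x * sg x z * sg b z : K)) * this
  obtain ⟨l, hl⟩ := near_scalar (pauli K) pauli_unit (fun g => ⟨Equiv.addLeft g, fun d =>
    ⟨_, sg_ne g.2 d.1, pauli_mul g.1 g.2 d.1 d.2⟩⟩) (pauli_span h2) (A * H) r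
    (by simpa using hr) (fun ⟨a, b⟩ => by
      refine le_trans (le_of_eq ?_) ((Matrix.rank_mul_le_left _ H).trans (h a b))
      congr 1
      rw [Matrix.mul_assoc A, hPH, Matrix.mul_smul, ← Matrix.mul_assoc, ← Matrix.mul_assoc,
        ← Matrix.smul_mul, ← Matrix.sub_mul]
      congr 1
      ext x z
      rw [Matrix.sub_apply, Matrix.smul_apply, pauli_mul_apply, mul_pauli_apply, Matrix.of_apply,
        sg_add' z b]
      push_cast
      rw [smul_eq_mul]
      ring)
  refine ⟨l / 2 ^ L, le_trans (le_of_eq ?_)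
    ((Matrix.rank_mul_le_left _ ((2 ^ L : K)⁻¹ • H)).trans hl)⟩
  congr 1
  rw [Matrix.sub_mul, Matrix.mul_assoc, Matrix.mul_smul, hHH, smul_smul, inv_mul_cancel₀ h2L,
    one_smul, Matrix.mul_one, Matrix.smul_mul, Matrix.one_mul, smul_smul, div_eq_mul_inv]

end FC5

end MrgPart1

-- ======== part 2: formerly Pool.Agent.MP_5daf37_lc.FC.Step
section MrgPart2

/-!
Rigidity, the order of a determinant, and one round of the descent.
-/

open Matrix

namespace Pool.Agent.MP_5daf37_lc.FC

theorem rig : RIG := by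
  intro L t F _ _ A h ht
  refine FC5.near_wht two_ne_zero A t ht fun a b => ?_
  have : (Matrix.of fun x z => (FC5.sg b (x + a) : F) * A (x + a) z -
      (FC5.sg a (z + b) : F) * A x (z + b)) = ((chi a b : F) • (1 : Matrix _ _ F)) * Mg b a A := by
    ext x z
    have h1 : FC5.sg b (x + a) = chi a b * chi b x := by
      rw [chi_comm a b, mul_comm, ← chi_add_right]; rfl
    have h2 : FC5.sg a (z + b) = chi a b * chi a z := by rw [mul_comm, ← chi_add_right]; rfl
    simp [h1, h2, Mg, mul_sub, mul_assoc]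
  rw [this]
  exact (rank_mul_le_right _ _).trans (h b a)

theorem ord : ORD := by
  intro K S ι _ _ _ _ φ ε N₀ N m h hm
  obtain ⟨V, U, e, hV, hU, he⟩ := exists_rank_normal_form N₀
  choose N₁ h₁ using h
  have hN : N = N₀.map φ + ε • Matrix.of N₁ := by
    ext i j; simp [← h₁]
  have hu : ∀ X : Matrix ι ι K, IsUnit X → IsUnit (X.map φ).det := fun X hX => by
    rw [← RingHom.mapMatrix_apply, ← RingHom.map_det]
    exact ((isUnit_iff_isUnit_det _).1 hX).map φ
  have h2 : (V.map φ * N * U.map φ).det = (V.map φ).det * N.det * (U.map φ).det := by simp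
  rw [← (hu V hV).dvd_mul_left, ← (hu U hU).dvd_mul_right, ← h2]
  set M := V.map φ * Matrix.of N₁ * U.map φ
  have h3 : V.map φ * N * U.map φ = (V * N₀ * U).map φ + ε • M := by
    rw [hN, Matrix.mul_add, Matrix.add_mul, Matrix.map_mul, Matrix.map_mul, Matrix.mul_smul,
      Matrix.smul_mul]
  let d : ι → S := fun i => if (e i).isRight then ε else 1
  have h4 : V.map φ * N * U.map φ = diagonal d * Matrix.of fun i j =>
      if (e i).isRight then M i j else (V.map φ * N * U.map φ) i j := by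
    ext i j
    rw [diagonal_mul, of_apply]
    simp only [d]
    split_ifs with hi
    · obtain ⟨a, ha⟩ := Sum.isRight_iff.1 hi
      rw [h3, he]
      cases hj : e j <;> simp [ha, hj]
    · rw [one_mul]
  rw [h4, det_mul, det_diagonal]
  refine Dvd.dvd.mul_right ?_ _
  rw [← e.symm.prod_comp]
  simp only [d, Equiv.apply_symm_apply, Fintype.prod_sum_type]
  simp only [Sum.isRight_inl, Sum.isRight_inr, if_true, Finset.prod_const, Finset.card_univ,
    Fintype.card_fin]
  exact Dvd.dvd.mul_left (pow_dvd_pow _ (by omega)) _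

theorem ev_det {σ S ι : Type} [CommRing S] [Fintype ι] [DecidableEq ι] (f : σ → S)
    (M : Matrix ι ι (ZP σ)) : ev f M.det = (M.map (ev f)).det := (ev f).toRingHom.map_det M

theorem Mg_ev {k L : ℕ} {S : Type} [CommRing S] (f : Fin k → S) (a b : Ix L)
    (A : Matrix (Ix L) (Ix L) (ZP (Fin k))) : (Mg a b A).map (ev f) = Mg a b (A.map (ev f)) :=
  Mg_map (ev f).toRingHom a b A

theorem step (hH : HENS) (hN : NORM) (hK : KL) (hB : CASEB) : STEP := by
  intro k d L s g B A c y G h1 h2 h3 hs hg hB1 hr hG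
  by_cases hL : L < 5
  · left
    have : 64 * 1 * 1 * 1 ≤ 64 * g * (k + 1) * (B ^ 2 + B) := by gcongr <;> omega
    nlinarith
  obtain ⟨n, hn⟩ : ∃ n, 2 ^ L = 32 * n := ⟨2 ^ (L - 5), by
    rw [show 32 = 2 ^ 5 from rfl, ← pow_add]; congr 1; omega⟩
  have hn1 : 1 ≤ n := by have : 0 < 2 ^ L := by positivity
                         omega
  choose G' ζ g1 g2 g3 g4 using fun j => hH _ y (c j) (G j) B (hG j).1 (hG j).2.1 (hG j).2.2
  let S := PowerSeries (MvPolynomial (Fin d) ℂ)
  let φ : ℂ →+* S := PowerSeries.C.comp MvPolynomial.C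
  have : CharZero S := charZero_of_injective_ringHom φ.injective
  have hc : ∀ P : ZP (Fin k), PowerSeries.constantCoeff (ev ζ P) = MvPolynomial.C (ev c P) :=
    fun P => by rw [map_ev, map_ev]; simp only [g4]
  have hrk : (A.map (ev c) - Hm L ℂ).rank ≤ n := by omega
  by_cases hA : ∃ (a b : Ix L) (x z : Fin (4 * n) → Ix L), Function.Injective z ∧
      ev ζ ((Mg a b A).submatrix x z).det ≠ 0
  · right
    obtain ⟨a, b, x, z, hz, h0⟩ := hA
    have hnu : nu ((Mg a b A).submatrix x z).det ≤ 2 ^ ((2 * g + 1) * (32 * n)) :=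
      (h1 a b _ x z hz).trans (Nat.pow_le_pow_right two_pos (by rw [hn] at hs; nlinarith))
    obtain ⟨D, d1, d2, d3⟩ := hN k (Fin d) S (arcS y) ζ G' _ (B ^ 2 + B) _ (by omega)
      (by nlinarith) (fun j => ⟨g1 j, g2 j, g3 j⟩) hnu h0
    have ho : (PowerSeries.X : S) ^ (2 * n) ∣ ev ζ ((Mg a b A).submatrix x z).det := by
      rw [ev_det]
      refine ord ℂ S _ φ _ (((Mg a b A).submatrix x z).map (ev c)) _ _ (fun i j => ?_) ?_
      · rw [PowerSeries.X_dvd_iff, map_sub, map_apply, map_apply, hc]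
        generalize ev c _ = t
        simp [φ]
      · have e : (Mg a b A).map (ev c) = Mg a b (A.map (ev c) - Hm L ℂ) := by
          rw [Mg_sub, Mg_Hm, sub_zero, Mg_ev]
        have := (rank_submatrix_le _ x z).trans (rank_Mg_le a b (A.map (ev c) - Hm L ℂ))
        rw [← submatrix_map, e, Fintype.card_fin]
        omega
    refine hK d y D _ (2 * n) ?_ (by omega) (fun h => d1 (by rw [h, map_zero]))
      (ord_of_arcS (ho.trans d2)) (d3.trans (le_of_eq (by congr 1; ring)))
    exact Nat.mul_pos (by omega) (Nat.pow_pos (by omega))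
  left
  push Not at hA
  let F := FractionRing S
  have hι : Function.Injective (algebraMap S F) := IsFractionRing.injective S F
  have : CharZero F := charZero_of_injective_ringHom hι
  have hA' : A.map (ev fun j => algebraMap S F (ζ j)) = (A.map (ev ζ)).map (algebraMap S F) := by
    ext i j; simp only [map_apply, map_ev]
  obtain ⟨lam, hl⟩ := rig L (4 * n - 1) F (A.map (ev fun j => algebraMap S F (ζ j)))
    (fun a b => by
      by_contra h
      obtain ⟨x, z, hz, h0⟩ := exists_minor (r := 4 * n)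
        (A := Mg a b (A.map (ev fun j => algebraMap S F (ζ j)))) (by omega)
      apply h0
      have e := Mg_ev (fun j => algebraMap S F (ζ j)) a b A
      have e2 := congrArg (algebraMap S F) (hA a b x z hz)
      rw [map_ev, map_zero, ev_det] at e2
      rw [← e]
      exact e2) (by omega)
  refine hB k d L s g (B ^ 2 + B) A F (fun i => algebraMap S F (arcS y i))
    (fun j => algebraMap S F (ζ j)) G' lam h2 h3 hs hg
    (by omega) (fun P Q h => arcS_injective y (hι (by rwa [map_ev, map_ev]))) (fun j => ⟨g1 j,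
      fun h => g2 j (by rw [h, map_zero]), ?_⟩) ?_ (by omega)
  · rw [← map_evX, Polynomial.eval_map_apply, g3, map_zero]
  · rintro rfl
    rw [zero_smul, sub_zero, hA'] at hl
    have h4 := rank_spec (algebraMap S F) hι
      (MvPolynomial.constantCoeff.comp PowerSeries.constantCoeff) (A.map (ev ζ))
    have h5 : (A.map (ev ζ)).map (MvPolynomial.constantCoeff.comp PowerSeries.constantCoeff) =
        A.map (ev c) := by
      ext i j; simp only [map_apply, RingHom.comp_apply, hc, MvPolynomial.constantCoeff_C]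
    have h6 : (Hm L ℂ).rank = 2 ^ L := by
      rw [rank_of_det_ne_zero, card_Ix]
      intro h
      have := congrArg det (Hm_mul_Hm (L := L) (T := ℂ))
      rw [det_mul, h, zero_mul, det_smul, det_one, mul_one] at this
      exact pow_ne_zero _ (pow_ne_zero _ two_ne_zero) this.symm
    have h7 := rank_sub_le' (A.map (ev c)) (A.map (ev c) - Hm L ℂ)
    rw [sub_sub_cancel] at h7
    rw [h5] at h4
    omega

end Pool.Agent.MP_5daf37_lc.FC

end MrgPart2

-- ======== part 3: formerly Pool.Agent.MP_5daf37_lc.FC.Eig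
section MrgPart3

/-! Size of an eigenvalue of large multiplicity from the size of minors: archimedean and
integral versions. -/

namespace FC5
open Matrix Polynomial

theorem det_mul_cols {R m ι : Type*} [CommRing R] [Fintype m] [DecidableEq m] [Fintype ι]
    (M : Matrix m ι R) (N : Matrix ι m R) :
    (M * N).det = ∑ p : m → ι, (M.submatrix id p).det * ∏ i, N (p i) i := by
  simp only [det_apply', mul_apply, Finset.prod_univ_sum, Finset.mul_sum, Fintype.piFinset_univ]
  rw [Finset.sum_comm]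
  refine Finset.sum_congr rfl fun p _ => ?_
  simp only [Finset.sum_mul, Finset.prod_mul_distrib, mul_assoc, submatrix_apply, id]

theorem det_mul_rows {R m ι : Type*} [CommRing R] [Fintype m] [DecidableEq m] [Fintype ι]
    (M : Matrix m ι R) (N : Matrix ι m R) :
    (M * N).det = ∑ p : m → ι, (∏ i, M i (p i)) * (N.submatrix p id).det := by
  rw [← det_transpose, transpose_mul, det_mul_cols]
  refine Finset.sum_congr rfl fun p _ => ?_
  rw [mul_comm, ← det_transpose (N.submatrix p id)]
  rfl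

theorem cauchy_binet {R m ι : Type*} [CommRing R] [Fintype m] [DecidableEq m] [Fintype ι]
    (M : Matrix m ι R) (N : Matrix ι m R) :
    ((Fintype.card m).factorial : R) * (M * N).det
      = ∑ p : m → ι, (M.submatrix id p).det * (N.submatrix p id).det := by
  have h : ∀ σ : Equiv.Perm m, (M * N).det = ∑ p : m → ι, (M.submatrix id p).det *
      (((Equiv.Perm.sign σ : ℤ) : R) * ∏ i, N (p (σ i)) i) := fun σ => by
    rw [det_mul_cols, ← (Equiv.arrowCongr σ.symm (Equiv.refl ι)).sum_comp]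
    refine Finset.sum_congr rfl fun p _ => ?_
    have : M.submatrix id ((Equiv.arrowCongr σ.symm (Equiv.refl ι)) p)
        = (M.submatrix id p).submatrix id σ := by ext; simp
    rw [this, det_permute']
    simp [mul_comm, mul_left_comm]
  rw [← Fintype.card_perm, ← nsmul_eq_mul, ← Finset.card_univ, ← Finset.sum_const,
    Finset.sum_congr rfl fun σ _ => h σ, Finset.sum_comm]
  refine Finset.sum_congr rfl fun p _ => ?_
  rw [← Finset.mul_sum, det_apply' (N.submatrix p id)]
  rfl

theorem exists_ker_cols {K ι : Type*} [Field K] [Fintype ι] (B : Matrix ι ι K) (ρ s : ℕ)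
    (hs : s + ρ ≤ Fintype.card ι) (hr : B.rank ≤ ρ) :
    ∃ X : Matrix ι (Fin s) K, B * X = 0 ∧ Function.Injective X.mulVec := by
  have h := LinearMap.finrank_range_add_finrank_ker B.mulVecLin
  unfold Matrix.rank at hr
  rw [Module.finrank_fintype_fun_eq_card] at h
  obtain ⟨v, hv⟩ := exists_linearIndependent_of_le_finrank
    (show s ≤ Module.finrank K (LinearMap.ker B.mulVecLin) by omega)
  refine ⟨Matrix.of fun i a => (v a : ι → K) i, ?_, ?_⟩
  · ext i a
    exact congrFun (v a).2 i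
  · exact mulVec_injective_iff.2 (hv.map' _ (Submodule.ker_subtype _))

theorem gram {m ι : Type*} [Fintype m] [DecidableEq m] [Fintype ι] (X : Matrix ι m ℂ) :
    ((Fintype.card m).factorial : ℂ) * (Xᴴ * X).det
      = ((∑ p : m → ι, ‖(X.submatrix p id).det‖ ^ 2 : ℝ) : ℂ) := by
  rw [cauchy_binet]
  push_cast
  refine Finset.sum_congr rfl fun p _ => ?_
  rw [← conjTranspose_submatrix, det_conjTranspose]
  exact Complex.conj_mul' _

open scoped ComplexOrder in
/-- Archimedean bound. -/
theorem arch {ι : Type*} [Fintype ι] [DecidableEq ι] (A H : Matrix ι ι ℂ) (c : ℝ)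
    (hH : Hᴴ * H = (c : ℂ) • 1) (l : ℂ) (ρ s : ℕ) (hs : s + ρ ≤ Fintype.card ι)
    (hr : (A - l • H).rank ≤ ρ) (M : ℝ)
    (hM : ∀ f g : Fin s → ι, ‖(A.submatrix f g).det‖ ≤ M) :
    (‖l‖ ^ 2 * c) ^ s ≤ 4 ^ Fintype.card ι * M ^ 2 := by
  obtain ⟨X, hX, hi⟩ := exists_ker_cols _ ρ s hs hr
  rw [Matrix.sub_mul, sub_eq_zero] at hX
  set S := ∑ p : Fin s → ι, ‖(X.submatrix p id).det‖ ^ 2 with hS
  have h1 := gram X
  rw [← hS] at h1
  have hf : (0 : ℝ) < s.factorial := by exact_mod_cast s.factorial_pos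
  have hS0 : 0 < S := by
    refine lt_of_le_of_ne (Finset.sum_nonneg fun _ _ => sq_nonneg _) fun h => ?_
    rw [← h] at h1
    have := (PosDef.conjTranspose_mul_self X hi).det_pos.ne'
    simp [this, Nat.factorial_ne_zero] at h1
  have h2 : ∑ p : Fin s → ι, ‖((A * X).submatrix p id).det‖ ^ 2 = (‖l‖ ^ 2 * c) ^ s * S := by
    have h3 : (A * X)ᴴ * (A * X) = ((‖l‖ ^ 2 * c : ℝ) : ℂ) • (Xᴴ * X) := by
      rw [hX, Matrix.smul_mul, conjTranspose_smul, conjTranspose_mul, Matrix.smul_mul,
        Matrix.mul_smul, smul_smul, Matrix.mul_assoc, ← Matrix.mul_assoc Hᴴ, hH, Matrix.smul_mul,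
        Matrix.one_mul, Matrix.mul_smul, smul_smul]
      congr 1
      push_cast
      rw [← Complex.conj_mul']
      rfl
    have h4 := gram (A * X)
    rw [h3, det_smul, mul_left_comm, h1, Fintype.card_fin] at h4
    exact_mod_cast h4.symm
  set D : ℝ := (((Fintype.card ι).descFactorial s : ℕ) : ℝ) with hD
  have hcount : ∀ (φ : (Fin s → ι) → ℝ) (b : ℝ), (∀ p, φ p ≤ b) →
      (∀ p, ¬ Function.Injective p → φ p = 0) → ∑ p, φ p ≤ D * b := fun φ b hb h0 => by
    classical
    rw [← Finset.sum_filter_add_sum_filter_not Finset.univ Function.Injective,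
      Finset.sum_eq_zero (s := Finset.filter (fun p => ¬ Function.Injective p) _)
        fun p hp => h0 p (Finset.mem_filter.1 hp).2, add_zero]
    refine (Finset.sum_le_card_nsmul _ _ b fun p _ => hb p).trans (le_of_eq ?_)
    rw [nsmul_eq_mul, hD, ← Fintype.card_subtype,
      Fintype.card_congr (Equiv.subtypeInjectiveEquivEmbedding _ _), Fintype.card_embedding_eq,
      Fintype.card_fin]
  have h5 : ∀ p : Fin s → ι, (s.factorial : ℝ) ^ 2 * ‖((A * X).submatrix p id).det‖ ^ 2
      ≤ D * M ^ 2 * S := fun p => by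
    have h6 := cauchy_binet (A.submatrix p id) X
    rw [Fintype.card_fin] at h6
    have h7 : (s.factorial : ℝ) * ‖((A * X).submatrix p id).det‖
        ≤ ∑ g : Fin s → ι, ‖(A.submatrix p g).det‖ * ‖(X.submatrix g id).det‖ := by
      have := norm_sum_le Finset.univ fun g : Fin s → ι =>
        ((A.submatrix p id).submatrix id g).det * (X.submatrix g id).det
      rw [← h6] at this
      simpa [submatrix_mul A X p id id Function.bijective_id] using this
    rw [← mul_pow]
    refine (pow_le_pow_left₀ (by positivity) h7 2).trans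
      ((Finset.sum_mul_sq_le_sq_mul_sq _ _ _).trans ?_)
    refine mul_le_mul_of_nonneg_right (hcount _ _ (fun g =>
      pow_le_pow_left₀ (norm_nonneg _) (hM p g) 2) fun g hg => ?_) hS0.le
    obtain ⟨i, j, hij, hne⟩ := Function.not_injective_iff.1 hg
    rw [det_zero_of_column_eq hne fun k => by simp [hij]]
    simp
  have h8 := hcount _ _ h5 fun p hp => by
    obtain ⟨i, j, hij, hne⟩ := Function.not_injective_iff.1 hp
    rw [det_zero_of_row_eq hne (by ext; simp [hij])]
    simp
  rw [← Finset.mul_sum, h2, hD, Nat.descFactorial_eq_factorial_mul_choose] at h8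
  push_cast at h8
  have h9 : (((Fintype.card ι).choose s : ℕ) : ℝ) ≤ 2 ^ Fintype.card ι := by
    exact_mod_cast Nat.choose_le_two_pow _ _
  have h10 : (((Fintype.card ι).choose s : ℕ) : ℝ) ^ 2 ≤ 4 ^ Fintype.card ι := by
    refine (pow_le_pow_left₀ (by positivity) h9 2).trans (le_of_eq ?_)
    rw [← pow_mul, mul_comm, pow_mul]
    norm_num
  have h11 : (‖l‖ ^ 2 * c) ^ s ≤ (((Fintype.card ι).choose s : ℕ) : ℝ) ^ 2 * M ^ 2 := by
    refine le_of_mul_le_mul_left (a := (s.factorial : ℝ) ^ 2 * S) ?_ (by positivity)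
    linarith
  exact h11.trans (mul_le_mul_of_nonneg_right h10 (sq_nonneg _))

theorem integral_quot {R K : Type*} [CommRing R] [Field K] [Algebra R K] (ν : K) :
    ∀ (d : ℕ) (q : K[X]), q.natDegree ≤ d → (∀ i, IsIntegral R (((X - C ν) * q).coeff i)) →
      ∀ i, IsIntegral R (q.coeff i) := by
  have key : ∀ q : K[X], (∀ i, IsIntegral R (((X - C ν) * q).coeff i)) →
      IsIntegral R q.leadingCoeff ∧ IsIntegral R (q.leadingCoeff * ν) := fun q h => by
    have hl : ((X - C ν) * q).leadingCoeff = q.leadingCoeff := by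
      rw [leadingCoeff_mul, (monic_X_sub_C ν).leadingCoeff, one_mul]
    refine ⟨hl ▸ h _, ?_⟩
    obtain ⟨p, hp, hd⟩ := exists_natDegree_eq_of_mem_lifts
      (show (X - C ν) * q ∈ lifts (algebraMap (integralClosure R K) K) from
        (lifts_iff_coeff_lifts _).2 fun i => ⟨⟨_, h i⟩, rfl⟩)
    have h1 := isIntegral_leadingCoeff_smul p ν (by rw [← eval_map_algebraMap, hp]; simp)
    have h2 : algebraMap (integralClosure R K) K p.leadingCoeff = q.leadingCoeff := by
      rw [← hl, leadingCoeff, leadingCoeff, ← hd, ← hp, coeff_map]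
    rw [Algebra.smul_def, h2] at h1
    exact isIntegral_trans _ h1
  intro d
  induction d with
  | zero =>
    intro q hq h i
    have := (key q h).1
    rw [eq_C_of_natDegree_le_zero hq] at this ⊢
    rw [coeff_C]
    split_ifs
    · simpa using this
    · exact isIntegral_zero
  | succ d ih =>
    intro q hq h i
    obtain ⟨h1, h2⟩ := key q h
    have hm : ∀ (a : K) (n j : ℕ), IsIntegral R a → IsIntegral R ((monomial n a).coeff j) :=
      fun a n j ha => by
        rw [coeff_monomial]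
        split_ifs
        · exact ha
        · exact isIntegral_zero
    have h3 := ih q.eraseLead (by have := q.eraseLead_natDegree_le; omega) fun j => by
      rw [← self_sub_monomial_natDegree_leadingCoeff, mul_sub, sub_mul X (C ν) (monomial _ _),
        X_mul_monomial, C_mul_monomial, coeff_sub, coeff_sub, mul_comm ν]
      exact (h j).sub ((hm _ _ _ h1).sub (hm _ _ _ h2))
    rw [← q.eraseLead_add_monomial_natDegree_leadingCoeff, coeff_add]
    exact (h3 i).add (hm _ _ _ h1)

theorem integral_pow {R K : Type*} [CommRing R] [Field K] [Algebra R K] (ν : K) (s : ℕ) :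
    ∀ q : K[X], (∀ i, IsIntegral R (((X - C ν) ^ s * q).coeff i)) →
      ∀ i, IsIntegral R (ν ^ s * q.coeff i) := by
  induction s with
  | zero => intro q h i; simpa using h i
  | succ s ih =>
    intro q h i
    rw [pow_succ', mul_assoc] at h
    have h1 := integral_quot ν _ _ le_rfl h
    have h2 := ih (C ν * q) (fun j => by
      rw [show (X - C ν) ^ s * (C ν * q)
        = X * ((X - C ν) ^ s * q) - (X - C ν) * ((X - C ν) ^ s * q) by ring, coeff_sub]
      refine IsIntegral.sub ?_ (h j)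
      rcases j with _ | j
      · rw [coeff_X_mul_zero]; exact isIntegral_zero
      · rw [coeff_X_mul]; exact h1 j) i
    rwa [coeff_C_mul, ← mul_assoc, ← pow_succ] at h2

/-- Integral bound. -/
theorem nonarch_gen {R K ι κ : Type*} [CommRing R] [Field K] [Algebra R K] [Fintype ι]
    [Fintype κ] [DecidableEq κ] (A H : Matrix ι ι K) (P : Matrix κ ι ℤ) (Q : Matrix ι κ ℤ)
    (c l β : K)
    (hPQ : P.map (Int.cast : ℤ → K) * H * Q.map (Int.cast : ℤ → K) = c • (1 : Matrix κ κ K)) (ρ s : ℕ)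
    (hs : s + ρ ≤ Fintype.card κ) (hr : (A - l • H).rank ≤ ρ)
    (hβ : ∀ (q : ℕ) (f g : Fin q → ι), IsIntegral R (β * (A.submatrix f g).det)) :
    IsIntegral R (β * (c * l) ^ s) := by
  set T : Matrix κ κ K := P.map (Int.cast : ℤ → K) * A * Q.map (Int.cast : ℤ → K) with hT
  have hz : ∀ z : ℤ, IsIntegral R (z : K) := fun z => by
    simpa using isIntegral_algebraMap (R := R) (A := K) (x := (z : R))
  have h1 : ∀ t : Finset κ, IsIntegral R
      (β * (T.submatrix (Subtype.val : t → κ) (Subtype.val : t → κ)).det) := fun t => by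
    rw [← det_submatrix_equiv_self t.equivFin.symm, submatrix_submatrix, hT,
      submatrix_mul _ _ _ id _ Function.bijective_id, det_mul_cols, Finset.mul_sum]
    refine IsIntegral.sum _ fun g _ => ?_
    rw [← mul_assoc]
    refine IsIntegral.mul ?_ (IsIntegral.prod _ fun _ _ => hz _)
    rw [submatrix_submatrix, submatrix_mul _ _ _ id _ Function.bijective_id, det_mul_rows,
      Finset.mul_sum]
    refine IsIntegral.sum _ fun f _ => ?_
    rw [mul_left_comm]
    exact (IsIntegral.prod _ fun _ _ => hz _).mul (hβ _ _ _)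
  have h2 : ∀ i, IsIntegral R ((C β * T.charpoly).coeff i) := fun i => by
    rw [coeff_C_mul]
    by_cases hi : i ≤ Fintype.card κ
    · rw [← Nat.sub_sub_self hi, charpoly_coeff_eq_sum_minors _ _ (Nat.sub_le _ _),
        mul_left_comm, Finset.mul_sum]
      exact (isIntegral_one.neg.pow _).mul (IsIntegral.sum _ fun t _ => h1 t)
    · rw [coeff_eq_zero_of_natDegree_lt (by rw [charpoly_natDegree_eq_dim]; omega), mul_zero]
      exact isIntegral_zero
  have h3 : (T - (c * l) • (1 : Matrix κ κ K)).rank ≤ ρ := by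
    have : T - (c * l) • (1 : Matrix κ κ K)
        = P.map (Int.cast : ℤ → K) * (A - l • H) * Q.map (Int.cast : ℤ → K) := by
      rw [Matrix.mul_sub, Matrix.sub_mul, Matrix.mul_smul, Matrix.smul_mul, hPQ, smul_smul,
        mul_comm l]
    rw [this]
    exact (rank_mul_le_left _ _).trans ((rank_mul_le_right _ _).trans hr)
  have h4 : s ≤ T.charpoly.rootMultiplicity (c * l) := by
    have h5 := LinearMap.finrank_eigenspace_le T.mulVecLin (c * l)
    have h6 := LinearMap.finrank_range_add_finrank_ker (T - (c * l) • (1 : Matrix κ κ K)).mulVecLin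
    have h7 : LinearMap.ker (T - (c * l) • (1 : Matrix κ κ K)).mulVecLin
        = Module.End.eigenspace T.mulVecLin (c * l) := by
      ext v
      simp [sub_eq_zero]
    unfold Matrix.rank at h3
    rw [charpoly_mulVecLin] at h5
    rw [h7, Module.finrank_fintype_fun_eq_card] at h6
    omega
  obtain ⟨q, hq⟩ := (pow_dvd_pow _ h4).trans (pow_rootMultiplicity_dvd T.charpoly (c * l))
  have h5 : q.Monic := ((monic_X_sub_C _).pow s).of_mul_monic_left (hq ▸ T.charpoly_monic)
  have h6 := integral_pow (R := R) (c * l) s (C β * q) (by rwa [mul_left_comm, ← hq]) q.natDegree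
  rwa [coeff_C_mul, h5.coeff_natDegree, mul_one, mul_comm] at h6

end FC5

end MrgPart3

-- ======== part 4: formerly Pool.Agent.MP_5daf37_lc.FC.Int
section MrgPart4

/-! Integrality of an eigenvalue of high multiplicity. -/

open Matrix Polynomial

namespace Pool.Agent.MP_5daf37_lc.FC

namespace IntA

theorem pow_dvd_charpoly {K κ : Type*} [Field K] [Fintype κ] [DecidableEq κ] (T : Matrix κ κ K)
    (z : K) (m : ℕ) (h : (T - z • (1 : Matrix κ κ K)).rank + m ≤ Fintype.card κ) :
    (X - C z) ^ m ∣ T.charpoly := by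
  have h5 := LinearMap.finrank_eigenspace_le T.mulVecLin z
  have h6 := LinearMap.finrank_range_add_finrank_ker (T - z • (1 : Matrix κ κ K)).mulVecLin
  have h7 : LinearMap.ker (T - z • (1 : Matrix κ κ K)).mulVecLin
      = Module.End.eigenspace T.mulVecLin z := by
    ext v
    simp [sub_eq_zero]
  unfold Matrix.rank at h
  rw [charpoly_mulVecLin] at h5
  rw [h7, Module.finrank_fintype_fun_eq_card] at h6
  exact (pow_dvd_pow _ (by omega)).trans (pow_rootMultiplicity_dvd T.charpoly z)

end IntA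

theorem intg (_hO : ORD) : INT := by
  intro k L s m e A F μ _ _ _ O b z ζ U V h2 hb hζ hm hs hr
  set T := U.map (Int.castRingHom F) * A.map (ev ζ) * V.map (Int.castRingHom F) with hT
  let O' : Subring F[X] := liftsRing (algebraMap (integralClosure O F) F)
  have hO' : ∀ p : F[X], p ∈ O' ↔ ∀ i, IsIntegral O (p.coeff i) := fun p => by
    refine (lifts_iff_liftsRing _ p).symm.trans ((lifts_iff_coeff_lifts p).trans ?_)
    exact forall_congr' fun i => ⟨fun ⟨a, ha⟩ => ha ▸ a.2, fun h => ⟨⟨_, h⟩, rfl⟩⟩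
  have hC : ∀ a : F, IsIntegral O a → C a ∈ O' := fun a ha => (hO' _).2 fun i => by
    rw [coeff_C]
    split_ifs
    · exact ha
    · exact isIntegral_zero
  have hbI : IsIntegral O b := isIntegral_algebraMap (R := O) (A := F) (x := ⟨b, hb⟩)
  have hX : (X : F[X]) ∈ O' := (lifts_iff_liftsRing _ _).1 (X_mem_lifts _)
  have h3 := h2 F[X] μ O' (C b) (fun j => C (ζ j)) (-U.map (Int.castRingHom F[X]))
    (V.map (Int.castRingHom F[X])) (Matrix.scalar μ X) (hC b hbI)
    (fun j => by rw [← C_mul]; exact hC _ (hζ j))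
    (fun i j => O'.neg_mem (intCast_mem O' _)) (fun i j => intCast_mem O' _) (fun i j => by
      rw [scalar_apply, diagonal_apply]
      split_ifs
      · exact hX
      · exact O'.zero_mem)
  have h4 : Matrix.scalar μ X + -U.map (Int.castRingHom F[X]) * A.map (ev fun j => C (ζ j))
      * V.map (Int.castRingHom F[X]) = charmatrix T := by
    have hev : ∀ P : ZP (Fin k), ev (fun j => C (ζ j)) P = (C : F →+* F[X]) (ev ζ P) := fun P =>
      (MvPolynomial.comp_aeval_apply ζ (C : F →+* F[X]).toIntAlgHom P).symm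
    have e1 : (U.map (Int.castRingHom F)).map (C : F →+* F[X]) = U.map (Int.castRingHom F[X]) :=
      Matrix.ext fun i j => map_intCast (C : F →+* F[X]) _
    have e2 : (V.map (Int.castRingHom F)).map (C : F →+* F[X]) = V.map (Int.castRingHom F[X]) :=
      Matrix.ext fun i j => map_intCast (C : F →+* F[X]) _
    have e3 : (A.map (ev ζ)).map (C : F →+* F[X]) = A.map (ev fun j => C (ζ j)) :=
      Matrix.ext fun i j => (hev _).symm
    rw [charmatrix, hT, Matrix.neg_mul, Matrix.neg_mul, ← sub_eq_add_neg, RingHom.mapMatrix_apply,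
      Matrix.map_mul, Matrix.map_mul, e1, e2, e3]
  rw [h4, ← C_pow, hO'] at h3
  obtain ⟨q, hq⟩ := IntA.pow_dvd_charpoly T z m hr
  have h5 : q.Monic := ((monic_X_sub_C _).pow m).of_mul_monic_left (hq ▸ T.charpoly_monic)
  have h6 := FC5.integral_pow (R := O) z m (C (b ^ s) * q) (by rwa [mul_left_comm, ← hq])
    q.natDegree
  rw [coeff_C_mul, h5.coeff_natDegree, mul_one] at h6
  refine IsIntegral.of_pow hm ?_
  rw [mul_pow, ← pow_mul, ← Nat.sub_add_cancel hs, pow_add, mul_assoc, mul_comm (b ^ s)]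
  exact (hbI.pow _).mul h6

end Pool.Agent.MP_5daf37_lc.FC

end MrgPart4

-- ======== part 5: formerly Pool.Agent.MP_5daf37_lc.FC.Smith
section MrgPart5

/-! The two size bounds for a near multiple of the Walsh-Hadamard matrix. -/

namespace FC5
open Matrix

/-- Hamming weight -/
def wt {L : ℕ} (x : Fin L → ZMod 2) : ℕ := (Finset.univ.filter fun i => x i = 1).card

theorem central_sq (m : ℕ) : m.centralBinom ^ 2 * (2 * m + 1) ≤ 16 ^ m := by
  induction m with
  | zero => simp
  | succ m ih =>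
    refine Nat.le_of_mul_le_mul_left (c := (m + 1) ^ 2) ?_ (by positivity)
    rw [← mul_assoc, ← mul_pow, Nat.succ_mul_centralBinom_succ]
    calc (2 * (2 * m + 1) * m.centralBinom) ^ 2 * (2 * (m + 1) + 1)
        = (4 * (2 * m + 1) * (2 * m + 3)) * (m.centralBinom ^ 2 * (2 * m + 1)) := by ring
      _ ≤ (16 * (m + 1) ^ 2) * 16 ^ m := Nat.mul_le_mul (by nlinarith) ih
      _ = _ := by ring

theorem choose_sq (L k : ℕ) : L.choose k ^ 2 * L ≤ (2 ^ L) ^ 2 := by
  have h16 : ∀ m, (2 ^ (2 * m)) ^ 2 = 16 ^ m := fun m => by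
    rw [← pow_mul, show 2 * m * 2 = 4 * m by ring, pow_mul]; norm_num
  obtain ⟨m, rfl | rfl⟩ := Nat.even_or_odd' L
  · rw [h16]
    exact (Nat.mul_le_mul (Nat.pow_le_pow_left (Nat.choose_le_centralBinom k m) 2)
      (Nat.le_succ _)).trans (central_sq m)
  · have h : (2 * m + 1).choose k ≤ 2 * m.centralBinom := by
      rcases k with _ | k
      · have := m.centralBinom_pos
        rw [Nat.choose_zero_right]
        omega
      · have := Nat.choose_le_centralBinom k m
        have := Nat.choose_le_centralBinom (k + 1) m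
        rw [Nat.choose_succ_succ']
        omega
    have := central_sq m
    rw [pow_succ 2, mul_pow, h16]
    refine (Nat.mul_le_mul_right _ (Nat.pow_le_pow_left h 2)).trans ?_
    rw [mul_pow]
    nlinarith

theorem sum_wt (L : ℕ) (f : ℕ → ℕ) :
    ∑ x : Fin L → ZMod 2, f (wt x) = ∑ k ∈ Finset.range (L + 1), L.choose k * f k := by
  have h := Finset.sum_powerset_apply_card f (x := (Finset.univ : Finset (Fin L)))
  simp only [Finset.card_univ, Fintype.card_fin, smul_eq_mul, Finset.powerset_univ] at h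
  rw [← h]
  refine Finset.sum_nbij' (fun x => Finset.univ.filter fun i => x i = 1)
    (fun t i => if i ∈ t then 1 else 0) (by simp) (by simp) (fun x _ => ?_) (fun t _ => ?_)
    fun _ _ => rfl
  · have : ∀ y : ZMod 2, (if y = 1 then 1 else 0) = y := by decide
    funext i
    simpa using this (x i)
  · ext i
    simp

theorem tail (L w : ℕ) (h : 4 * w ^ 2 ≤ L) :
    ∃ j, 2 * j + w ≤ L ∧ 2 ^ L ≤ 4 * Fintype.card {x : Fin L → ZMod 2 // wt x ≤ j} := by
  have hw : w ≤ L := by nlinarith
  refine ⟨(L - w) / 2, by omega, ?_⟩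
  set j := (L - w) / 2 with hj
  set c := L.choose (L / 2)
  have hc : 2 * w * c ≤ 2 ^ L := by
    refine (pow_le_pow_iff_left₀ (Nat.zero_le _) (Nat.zero_le _) two_ne_zero).1
      (le_trans ?_ (choose_sq L (L / 2)))
    calc (2 * w * c) ^ 2 = c ^ 2 * (4 * w ^ 2) := by ring
      _ ≤ _ := Nat.mul_le_mul_left _ h
  have h1 : Fintype.card {x : Fin L → ZMod 2 // wt x ≤ j}
      = ∑ k ∈ Finset.range (L + 1), L.choose k * if k ≤ j then 1 else 0 := by
    rw [← sum_wt L fun k => if k ≤ j then 1 else 0, Fintype.card_subtype, Finset.card_filter]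
  have h2 : ∑ k ∈ Finset.range (L + 1), L.choose k * (if k ≤ j then 1 else 0)
      = ∑ k ∈ Finset.range (L + 1), L.choose k * if L - k ≤ j then 1 else 0 := by
    rw [← Finset.sum_range_reflect]
    refine Finset.sum_congr rfl fun k hk => ?_
    rw [Nat.add_sub_cancel, Nat.choose_symm (by simpa [Nat.lt_succ_iff] using hk)]
  have h3 : ∑ k ∈ Finset.range (L + 1), (if k ∈ Finset.Ioo j (L - j) then c else 0) ≤ w * c := by
    rw [← Finset.sum_filter, Finset.sum_const, smul_eq_mul]
    refine Nat.mul_le_mul_right _ ((Finset.card_le_card (t := Finset.Ioo j (L - j))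
      fun k hk => (Finset.mem_filter.1 hk).2).trans ?_)
    rw [Nat.card_Ioo]
    omega
  have h4 : 2 ^ L ≤ ∑ k ∈ Finset.range (L + 1), (L.choose k * (if k ≤ j then 1 else 0)
      + L.choose k * (if L - k ≤ j then 1 else 0) + if k ∈ Finset.Ioo j (L - j) then c else 0) := by
    rw [← Nat.sum_range_choose]
    refine Finset.sum_le_sum fun k _ => ?_
    have := Nat.choose_le_middle k L
    simp only [Finset.mem_Ioo]
    split_ifs <;> omega
  rw [Finset.sum_add_distrib, Finset.sum_add_distrib, ← h2, ← h1] at h4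
  rw [mul_assoc] at hc
  omega

theorem tensor_mul {L : ℕ} (u v : ZMod 2 → ZMod 2 → ℤ) (x z : Fin L → ZMod 2) :
    ∑ y : Fin L → ZMod 2, (∏ i, u (x i) (y i)) * ∏ i, v (y i) (z i)
      = ∏ i, ∑ t, u (x i) t * v t (z i) := by
  rw [Finset.prod_univ_sum, Fintype.piFinset_univ]
  simp only [Finset.prod_mul_distrib]

theorem smith (L j : ℕ) : ∃ (P : Matrix {x : Fin L → ZMod 2 // wt x ≤ j} (Fin L → ZMod 2) ℤ)
    (Q : Matrix (Fin L → ZMod 2) {x : Fin L → ZMod 2 // wt x ≤ j} ℤ),
    P * (Matrix.of fun x y : Fin L → ZMod 2 => sg x y) * Q = (2 ^ j : ℤ) •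
      (1 : Matrix {x : Fin L → ZMod 2 // wt x ≤ j} {x : Fin L → ZMod 2 // wt x ≤ j} ℤ) := by
  let u : ZMod 2 → ZMod 2 → ℤ := fun a b => if b = 1 then (if a = 1 then -1 else 0) else 1
  let v : ZMod 2 → ZMod 2 → ℤ := fun a b => if a = 1 then (if b = 1 then 1 else 0)
    else (if b = 1 then -1 else 1)
  refine ⟨fun x y => 2 ^ (j - wt x.1) * ∏ i, u (x.1 i) (y i), fun y z => ∏ i, v (y i) (z.1 i), ?_⟩
  ext x z
  have h1 : ∀ y, ∑ t : Fin L → ZMod 2, (∏ i, u (x.1 i) (t i)) * sg t y
      = ∏ i, ∑ t, u (x.1 i) t * if t = 1 ∧ y i = 1 then -1 else 1 := fun y =>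
    tensor_mul u (fun a b => if a = 1 ∧ b = 1 then -1 else 1) x.1 y
  have h2 := tensor_mul (fun a b => ∑ t, u a t * if t = 1 ∧ b = 1 then -1 else 1) v x.1 z.1
  have h3 : ∀ a b : ZMod 2, ∑ y, (∑ t, u a t * if t = 1 ∧ y = 1 then -1 else 1) * v y b
      = if a = b then (if a = 1 then 2 else 1) else 0 := by decide
  simp only [Matrix.mul_apply, of_apply, mul_assoc, ← Finset.mul_sum, h1, h2, h3,
    Matrix.smul_apply, Matrix.one_apply, smul_eq_mul]
  split_ifs with h
  · subst h
    simp only [if_true, Finset.prod_ite, Finset.prod_const, one_pow, mul_one]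
    rw [← pow_add]
    exact congrArg _ (Nat.sub_add_cancel x.2)
  · obtain ⟨i, hi⟩ := Function.ne_iff.1 fun e => h (Subtype.ext e)
    rw [Finset.prod_eq_zero (Finset.mem_univ i) (if_neg hi), mul_zero, mul_zero]

/-- Step 5: if `4 w^2 ≤ L` there is `j ≤ (L - w) / 2` such that `β (2^j l)^s` is integral. -/
theorem wht_integral (L w : ℕ) (h : 4 * w ^ 2 ≤ L) : ∃ j, 2 * j + w ≤ L ∧
    ∀ {R K : Type} [CommRing R] [Field K] [Algebra R K]
      (A : Matrix (Fin L → ZMod 2) (Fin L → ZMod 2) K) (l β : K) (ρ s : ℕ),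
      4 * (s + ρ) ≤ 2 ^ L → (A - l • Matrix.of fun x y => (sg x y : K)).rank ≤ ρ →
      (∀ (q : ℕ) (f g : Fin q → Fin L → ZMod 2), IsIntegral R (β * (A.submatrix f g).det)) →
      IsIntegral R (β * (2 ^ j * l) ^ s) := by
  obtain ⟨j, hj, hc⟩ := tail L w h
  refine ⟨j, hj, fun {R K} _ _ _ A l β ρ s hs hr hβ => ?_⟩
  obtain ⟨P, Q, hPQ⟩ := smith L j
  refine nonarch_gen A _ P Q _ l β ?_ ρ s (by omega) hr hβ
  have := congrArg (fun M => M.map (Int.castRingHom K)) hPQ
  simp only [Matrix.map_mul] at this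
  refine Eq.trans ?_ (this.trans ?_)
  · rfl
  · ext x y
    simp only [Matrix.map_apply, Matrix.smul_apply, Matrix.one_apply, smul_eq_mul]
    split_ifs <;> simp

/-- Step 6 at one complex point. -/
theorem wht_arch {L : ℕ} (A : Matrix (Fin L → ZMod 2) (Fin L → ZMod 2) ℂ) (l : ℂ) (ρ s : ℕ)
    (hs : s + ρ ≤ 2 ^ L) (hr : (A - l • Matrix.of fun x y => (sg x y : ℂ)).rank ≤ ρ) (M : ℝ)
    (hM : ∀ f g : Fin s → Fin L → ZMod 2, ‖(A.submatrix f g).det‖ ≤ M) :
    (‖l‖ ^ 2 * 2 ^ L) ^ s ≤ 4 ^ 2 ^ L * M ^ 2 := by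
  have := arch A _ (2 ^ L) ?_ l ρ s (by simpa using hs) hr M hM
  · simpa using this
  · ext x y
    simp only [Matrix.mul_apply, conjTranspose_apply, of_apply, star_intCast, ← Int.cast_mul,
      ← Int.cast_sum, sg_orth, Matrix.smul_apply, Matrix.one_apply]
    split_ifs <;> simp

end FC5

end MrgPart5

-- ======== part 6: formerly Pool.Agent.MP_5daf37_lc.FC.Binom
section MrgPart6

/-! The binomial tail and the Smith form. -/

namespace Pool.Agent.MP_5daf37_lc.FC

theorem binom : BINOM := fun L T h => by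
  obtain ⟨j, hj, hc⟩ := FC5.tail L (2 * T) (by linarith)
  rw [Fintype.card_subtype] at hc
  refine hc.trans (Nat.mul_le_mul_left _ (Finset.card_le_card fun x hx => ?_))
  have : wt x ≤ j := (Finset.mem_filter.1 hx).2
  exact Finset.mem_filter.2 ⟨Finset.mem_univ _, by omega⟩

theorem smith : SMITH := fun L j => FC5.smith L j

end Pool.Agent.MP_5daf37_lc.FC

end MrgPart6

-- ======== part 7: formerly Pool.Agent.MP_5daf37_lc.FC.Desc
section MrgPart7

/-!
The descent on the number of parameters and the bound for circuits.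
-/

open Matrix

namespace Pool.Agent.MP_5daf37_lc.FC

theorem arith {k g d t B Z : ℕ} (hZ : Z = 64 * (k + 1) * (g + 1)) (hd : d ≤ k) (ht : 1 ≤ t)
    (hB1 : 1 ≤ B) (hB : B ≤ Z ^ t) :
    3 * (256 * (d + 1) ^ 2 * (16 * (2 * g + 1) * (3 * (B ^ 2 + B)) ^ k)) ^ 2 ^ d * B ≤
      Z ^ (t * 2 ^ (2 * k + 3)) := by
  have z1 : 64 * (k + 1) ≤ Z := by rw [hZ]; exact Nat.le_mul_of_pos_right _ (by omega)
  have z2 : 64 * (g + 1) ≤ Z := by rw [hZ]; nlinarith
  have z0 : 0 < Z := by omega
  have h1 : 3 * (B ^ 2 + B) ≤ Z ^ (3 * t) :=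
    calc 3 * (B ^ 2 + B) ≤ Z * B ^ 2 := by nlinarith
      _ ≤ Z ^ t * (Z ^ t) ^ 2 := by
        gcongr
        exact Nat.le_self_pow (by omega) Z
      _ = Z ^ (3 * t) := by ring
  have h2 : 256 * (d + 1) ^ 2 ≤ Z ^ 2 :=
    calc 256 * (d + 1) ^ 2 = (16 * (d + 1)) ^ 2 := by ring
      _ ≤ Z ^ 2 := by gcongr; omega
  calc _ ≤ Z * (Z ^ 2 * (Z * (Z ^ (3 * t)) ^ k)) ^ 2 ^ d * Z ^ t := by gcongr <;> omega
    _ = Z ^ ((3 * t * k + 3) * 2 ^ d + t + 1) := by ring
    _ ≤ _ := by
      refine Nat.pow_le_pow_right z0 ?_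
      have h3 : 2 ^ d ≤ 2 ^ k := Nat.pow_le_pow_right two_pos hd
      have h4 : k < 2 ^ k := Nat.lt_two_pow_self
      calc (3 * t * k + 3) * 2 ^ d + t + 1 ≤ (3 * t * k + 3 * t) * 2 ^ k + t * 2 ^ k + t * 2 ^ k := by
            gcongr <;> nlinarith
        _ = t * (3 * k + 5) * 2 ^ k := by ring
        _ ≤ t * (8 * 2 ^ k) * 2 ^ k := by gcongr; omega
        _ = t * 2 ^ (2 * k + 3) := by ring

theorem descent (hS : STEP) (hT : TRANS) {k L s g Z : ℕ} (hZ : Z = 64 * (k + 1) * (g + 1))
    {A : Matrix (Ix L) (Ix L) (ZP (Fin k))} {c : Fin k → ℂ} (h1 : P1 s A) (h2 : P2 s A)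
    (h3 : P3 s A) (hs : s ≤ g * 2 ^ L) (hg : 1 ≤ g)
    (hr : 32 * (A.map (ev c) - Hm L ℂ).rank ≤ 2 ^ L) (d : ℕ) : ∀ (t B : ℕ) (y : Fin d → ℂ)
    (G : Fin k → ZP (Option (Fin d))), d ≤ k → 1 ≤ t → 1 ≤ B → B ≤ Z ^ t → St B c y G →
    L ≤ Z ^ (8 * t * (2 ^ (2 * k + 3)) ^ d) := by
  have z0 : 64 ≤ Z := by rw [hZ]; nlinarith
  have key : ∀ t B m, 1 ≤ t → 1 ≤ B → B ≤ Z ^ t → 0 < m →
      (64 * g * (k + 1) * (B ^ 2 + B)) ^ 2 ≤ Z ^ (8 * t * m) := fun t B m ht hB1 hB hm =>
    calc _ ≤ (Z * (Z * B ^ 2)) ^ 2 := by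
          gcongr
          · rw [hZ]; nlinarith
          · nlinarith
      _ ≤ (Z * (Z * (Z ^ t) ^ 2)) ^ 2 := by gcongr
      _ = Z ^ (4 * t + 4) := by ring
      _ ≤ _ := Nat.pow_le_pow_right (by omega) (by nlinarith)
  induction d with
  | zero =>
    intro t B y G _ ht hB1 hB hG
    rcases hS k 0 L s g B A c y G h1 h2 h3 hs hg hB1 hr hG with h | ⟨P, p1, p2, -⟩
    · exact h.trans (key t B _ ht hB1 hB (by positivity))
    · rw [P.eq_C_of_isEmpty] at p1 p2
      exact absurd (by simpa using p2) fun h : P.coeff 0 = 0 => p1 (by rw [h, map_zero])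
  | succ d ih =>
    intro t B y G hd ht hB1 hB hG
    rcases hS k _ L s g B A c y G h1 h2 h3 hs hg hB1 hr hG with h | ⟨P, p1, p2, p3⟩
    · exact h.trans (key t B _ ht hB1 hB (by positivity))
    · have ha : 0 < (256 * (d + 1 + 1) ^ 2 * (16 * (2 * g + 1) * (3 * (B ^ 2 + B)) ^ k)) ^
        2 ^ (d + 1) := by positivity
      obtain ⟨y', G', h'⟩ := hT d k _ B c y G P ha hB1 hG p1 p2 p3
      refine (ih _ _ y' G' (by omega) (Nat.mul_pos ht (by positivity))
        (Nat.mul_pos (by omega) hB1) (arith hZ hd ht hB1 hB) h').trans (le_of_eq ?_)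
      congr 1; ring

theorem core (hS : STEP) (hT : TRANS) (c0 : CIRC0) (c1 : CIRC1) (c2 : CIRC2) (c3 : CIRC3)
    {F : Type} [Field F] (φ : F →+* ℂ) {k n p q L g : ℕ} (C : Circuit F n p q) (T : Finset F)
    (hT' : T.card ≤ k) (E : Finset (Fin q)) (hE : ∀ e, e ∉ E → C.weight e ∈ T)
    (hh : 32 * E.card ≤ 2 ^ L) {A : Matrix (Fin n) (Fin n) F} (hC : C.Computes A)
    {f : Ix L → Fin n} (hf : Function.Injective f) (hA : A.submatrix f f = Hm L F)
    (hs : p + q ≤ g * 2 ^ L) (hg : 1 ≤ g) : L ≤ (64 * (k + 1) * (g + 1)) ^ 8 ^ (k + 1) ^ 2 := by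
  let c : Fin k → ℂ := fun j => φ (T.toList.getD j 0)
  have hw : ∀ e, ∃ w : ZP (Fin k), (w = 0 ∨ ∃ j, w = MvPolynomial.X j) ∧
      (e ∉ E → ev c w = φ (C.weight e)) := fun e => by
    by_cases he : e ∈ E
    · exact ⟨0, Or.inl rfl, fun h => absurd he h⟩
    · obtain ⟨i, hi, h⟩ := List.getElem_of_mem (Finset.mem_toList.2 (hE e he))
      have hk : i < k := by rw [Finset.length_toList] at hi; omega
      refine ⟨_, Or.inr ⟨⟨i, hk⟩, rfl⟩, fun _ => ?_⟩
      rw [← h]
      simp [c, List.getD_eq_getElem?_getD, List.getElem?_eq_getElem hi]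
  choose w w1 w2 using hw
  have hr := c0 F φ n p q _ C A f (fun e => ev c (w e)) E hC w2
  have e1 : (Tm C f w).map (ev c) = Tm C f fun e => ev c (w e) := Tm_map (ev c).toRingHom C f w
  rw [hA, Hm_map, ← e1] at hr
  have hn : ∀ e, nu (w e) ≤ 2 := fun e => by rcases w1 e with h | ⟨j, h⟩ <;> simp [h]
  have hev : ∀ j, evX c (MvPolynomial.X none - MvPolynomial.X (some j)) =
      Polynomial.X - Polynomial.C (c j) := fun j => by simp [evX]
  refine (descent hS hT (c := c) rfl (c1 F n p q k L C f w hf hn) (c2 F n p q k L C f w w1)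
    (c3 F n p q k L C f w hf w1) hs hg (by omega) k 1 2 c
    (fun j => MvPolynomial.X none - MvPolynomial.X (some j)) le_rfl le_rfl one_le_two
    (by nlinarith) fun j => ⟨(nu_sub _ _).trans (by simp), ?_, ?_⟩).trans ?_
  · rw [hev]; exact Polynomial.X_sub_C_ne_zero _
  · rw [hev]; simp
  · refine Nat.pow_le_pow_right (by positivity) ?_
    calc 8 * 1 * (2 ^ (2 * k + 3)) ^ k = 2 ^ ((2 * k + 3) * k + 3) := by
          rw [← pow_mul, pow_add, mul_comm]; rfl
      _ ≤ 2 ^ (3 * (k + 1) ^ 2) := Nat.pow_le_pow_right two_pos (by nlinarith)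
      _ = 8 ^ (k + 1) ^ 2 := by rw [pow_mul]; rfl

/-- The number with the binary digits `x`. -/
def bits {L : ℕ} (x : Ix L) : ℕ := Nat.ofBits fun l => decide (x l = 1)

theorem bits_lt {L : ℕ} (x : Ix L) : bits x < 2 ^ L := Nat.ofBits_lt_two_pow _

theorem bits_injective {L : ℕ} : Function.Injective (bits (L := L)) := fun x y h => by
  funext l
  have := congrArg (fun m => Nat.testBit m l) h
  simp only [bits, Nat.testBit_ofBits_lt _ _ l.2, Fin.eta, decide_eq_decide] at this
  have h3 : ∀ s t : ZMod 2, (s = 1 ↔ t = 1) → s = t := by decide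
  exact h3 _ _ this

theorem prod_bits {F : Type} [Field F] {L n : ℕ} (h : L ≤ n) (x y : Ix L) :
    (∏ l ∈ Finset.range n, if (bits x).testBit l ∧ (bits y).testBit l then (-1 : F) else 1) =
      chi x y := by
  rw [← Finset.prod_subset (Finset.range_subset_range.2 h) fun l _ hl => if_neg fun h' => by
    rw [bits, Nat.testBit_ofBits_ge _ _ (by simpa using hl)] at h'
    simp at h', Finset.prod_range, chi, Int.cast_prod]
  refine Finset.prod_congr rfl fun l _ => ?_
  simp [bits, Nat.testBit_ofBits_lt _ _ l.2]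

theorem main (hS : STEP) (hT : TRANS) (c0 : CIRC0) (c1 : CIRC1) (c2 : CIRC2) (c3 : CIRC3)
    (F : Type) [Field F] [Algebra F ℂ] (k n p q : ℕ) (C : Circuit F n p q) (T : Finset F)
    (hT' : T.card ≤ k) (hh : 64 * {e | C.weight e ∉ T}.ncard ≤ n)
    (hC : C.Computes (Matrix.of fun i j : Fin n => ∏ l ∈ Finset.range n,
      if (i : ℕ).testBit l ∧ (j : ℕ).testBit l then (-1 : F) else 1)) :
    (n : ℝ) * ((Nat.log 2 n : ℝ) ^ ((1 : ℝ) / 8 ^ (k + 1) ^ 2) / (192 * (k + 1)) - 1) ≤ p + q := by
  rcases Nat.eq_zero_or_pos n with rfl | hn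
  · rw [Nat.cast_zero, zero_mul]; positivity
  set L := Nat.log 2 n
  have l1 : 2 ^ L ≤ n := Nat.pow_log_le_self 2 hn.ne'
  have l2 : n < 2 ^ (L + 1) := Nat.lt_pow_succ_log_self one_lt_two n
  have l3 : L < 2 ^ L := Nat.lt_two_pow_self
  rw [pow_succ] at l2
  have l4 : p + q < n * ((p + q) / n + 1) := Nat.lt_mul_div_succ _ hn
  have h := core hS hT c0 c1 c2 c3 (algebraMap F ℂ) (g := 2 * ((p + q) / n + 1)) C T hT'
    (Set.toFinite {e | C.weight e ∉ T}).toFinset (fun e he => by simpa using he)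
    (L := L) (by rw [← Set.ncard_eq_toFinset_card]; omega) hC
    (f := fun x => ⟨bits x, (bits_lt x).trans_le l1⟩)
    (fun x y h => bits_injective (congrArg Fin.val h))
    (by ext x y; exact prod_bits (l3.le.trans l1) x y)
    (by nlinarith) (Nat.mul_pos two_pos (Nat.succ_pos _))
  have h2 : (L : ℝ) ^ ((1 : ℝ) / 8 ^ (k + 1) ^ 2) ≤
      ((64 * (k + 1) * (2 * ((p + q) / n + 1) + 1) : ℕ) : ℝ) := by
    rw [one_div, Real.rpow_inv_le_iff_of_pos (by positivity) (by positivity) (by positivity)]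
    exact_mod_cast h
  have h3 : (n : ℝ) * ((p + q) / n : ℕ) ≤ p + q := by exact_mod_cast Nat.mul_div_le (p + q) n
  have h4 : (0 : ℝ) < n := by exact_mod_cast hn
  have h5 : (L : ℝ) ^ ((1 : ℝ) / 8 ^ (k + 1) ^ 2) / (192 * (k + 1)) ≤ ((p + q) / n : ℕ) + 1 := by
    rw [div_le_iff₀ (by positivity)]
    refine h2.trans ?_
    generalize (p + q) / n = m
    push_cast
    have : (0 : ℝ) ≤ m * (k + 1) := by positivity
    nlinarith
  nlinarith

end Pool.Agent.MP_5daf37_lc.FC

end MrgPart7

-- ======== part 8: formerly Pool.Agent.MP_5daf37_lc.FC.Elim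
section MrgPart8

/-!
Elimination of one variable by a resultant.
-/

open Polynomial

namespace Pool.Agent.MP_5daf37_lc.FC

namespace Elim

variable {σ τ : Type}

theorem col (q : (ZP σ)[X]) (c : ℕ) (h : ∀ s : Finset ℕ, ∑ k ∈ s, nu (q.coeff k) ≤ c)
    (N j n : ℕ) :
    ∑ i : Fin N, nu (if (i : ℕ) ∈ Set.Icc j (j + n) then q.coeff (i - j) else 0) ≤ c := by
  have e : ∀ i : Fin N, nu (if (i : ℕ) ∈ Set.Icc j (j + n) then q.coeff (i - j) else 0) =
      if (i : ℕ) ∈ Set.Icc j (j + n) then nu (q.coeff (i - j)) else 0 := fun i => by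
    split_ifs <;> simp
  simp_rw [e]
  rw [← Finset.sum_filter, ← Finset.sum_image (g := fun i : Fin N => (i : ℕ) - j)
    (f := fun k => nu (q.coeff k))]
  · exact h _
  · intro x hx y hy hxy
    simp only [Finset.coe_filter, Finset.mem_univ, true_and, Set.mem_ofPred_eq, Set.mem_Icc] at hx hy
    exact Fin.ext (by simp only at hxy; omega)

theorem nu_res (p q : (ZP σ)[X]) (c d m n : ℕ) (hp : ∀ s : Finset ℕ, ∑ k ∈ s, nu (p.coeff k) ≤ c)
    (hq : ∀ s : Finset ℕ, ∑ k ∈ s, nu (q.coeff k) ≤ d) :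
    nu (resultant p q m n) ≤ d ^ m * c ^ n := by
  refine (nu_det_col _).trans ?_
  rw [Fin.prod_univ_add]
  refine Nat.mul_le_mul ?_ ?_
  · refine (Finset.prod_le_pow_card _ _ d fun j _ => ?_).trans (by simp)
    simpa only [sylvester, Matrix.of_apply, Fin.addCases_left] using col q d hq (m + n) j n
  · refine (Finset.prod_le_pow_card _ _ c fun j _ => ?_).trans (by simp)
    simpa only [sylvester, Matrix.of_apply, Fin.addCases_right] using col p c hp (m + n) j m

theorem sum_map (P : ZP (Option τ)) (s : Finset ℕ) :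
    ∑ k ∈ s, nu (((toP P).map
      (MvPolynomial.rename some : ZP τ →ₐ[ℤ] ZP (Option τ)).toRingHom).coeff k) ≤ nu P :=
  (Finset.sum_le_sum fun k _ => by rw [coeff_map]; exact nu_rename_le _ _).trans
    (sum_nu_coeff_le P s)

theorem map_map_evX {S : Type} [CommRing S] (f : τ → S) (P : ZP (Option τ)) :
    ((toP P).map (MvPolynomial.rename some : ZP τ →ₐ[ℤ] ZP (Option τ)).toRingHom).map
      (evX f).toRingHom = (evX f P).map C := by
  ext1 k
  rw [coeff_map, coeff_map, coeff_map, coeff_evX]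
  change evX f (MvPolynomial.rename some _) = _
  rw [evX_eq, toP_rename, map_C]
  rfl

theorem res_ne {S : Type} [CommRing S] [IsDomain S] (p q : S[X]) (hp : p ≠ 0) (n : ℕ)
    (hq : q.natDegree ≤ n) : resultant (p.map C) (q.map C + C X) p.natDegree n ≠ 0 := by
  classical
  let K := AlgebraicClosure (FractionRing S)
  let φ : S →+* K := (algebraMap (FractionRing S) K).comp (algebraMap S (FractionRing S))
  have hφ : Function.Injective φ :=
    (algebraMap (FractionRing S) K).injective.comp (IsFractionRing.injective S _)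
  obtain ⟨η, hη⟩ := Infinite.exists_notMem_finset
    ((p.map φ).roots.toFinset.image fun α => -(q.map φ).eval α)
  intro h
  have h1 := congrArg (eval₂RingHom φ η) h
  have e : ∀ r : S[X], (r.map C).map (eval₂RingHom φ η) = r.map φ := fun r => by
    ext1 k; simp
  rw [← resultant_map_map, Polynomial.map_add, e, e, map_C, map_zero,
    ← natDegree_map_eq_of_injective hφ p, resultant_eq_prod_eval _ _ _
      (by rw [natDegree_add_C]; exact natDegree_map_le.trans hq) (IsAlgClosed.splits _)] at h1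
  rcases mul_eq_zero.1 h1 with h2 | h2
  · exact (Polynomial.map_ne_zero_iff hφ).2 hp (leadingCoeff_eq_zero.1 (pow_eq_zero_iff'.1 h2).1)
  · rw [Multiset.prod_eq_zero_iff, Multiset.mem_map] at h2
    obtain ⟨α, a1, a2⟩ := h2
    refine hη (Finset.mem_image.2 ⟨α, Multiset.mem_toFinset.2 a1, ?_⟩)
    simp only [eval_add, eval_C, coe_eval₂RingHom, eval₂_X] at a2
    exact neg_eq_of_add_eq_zero_right a2

theorem res_dvd {S : Type} [CommRing S] [IsDomain S] (p q : S[X]) (ζ : S) (n : ℕ) (hn : 1 ≤ n)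
    (hq : q.natDegree ≤ n) (h0 : p.eval ζ = 0) (h1 : q.eval ζ ≠ 0) :
    q.eval ζ ∣ (resultant (p.map C) (q.map C + C X) p.natDegree n).trailingCoeff := by
  obtain ⟨u, v, -, -, e⟩ := exists_mul_add_mul_eq_C_resultant (m := p.natDegree) (n := n)
    (p.map C) (q.map C + C X) natDegree_map_le
    (by rw [natDegree_add_C]; exact natDegree_map_le.trans hq) (Or.inr (by omega))
  have e1 := congrArg (eval (C ζ)) e
  simp only [eval_add, eval_mul, eval_C, eval_map, eval₂_at_apply, h0, map_zero, zero_mul,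
    zero_add] at e1
  rw [← e1, trailingCoeff_mul]
  refine Dvd.dvd.mul_right (dvd_of_eq ?_) _
  rw [trailingCoeff, natTrailingDegree_eq_zero_of_constantCoeff_ne_zero (by simpa using h1)]
  simp

end Elim

open Elim in
theorem elim : ELIM := by
  intro τ S _ _ _ f ζ p G a b ha hb hp hG h0 h1 h2
  have dp : (evX f p).natDegree ≤ a := by
    rw [evX_eq]; exact natDegree_map_le.trans (natDegree_toP_le hp)
  have dG : (evX f G).natDegree ≤ b := by
    rw [evX_eq]; exact natDegree_map_le.trans (natDegree_toP_le hG)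
  let ι := (MvPolynomial.rename some : ZP τ →ₐ[ℤ] ZP (Option τ)).toRingHom
  let R := resultant ((toP p).map ι) ((toP G).map ι + C (MvPolynomial.X none))
    (evX f p).natDegree b
  have eR : evX f R = resultant ((evX f p).map C) ((evX f G).map C + C X)
      (evX f p).natDegree b := by
    have := resultant_map_map ((toP p).map ι) ((toP G).map ι + C (MvPolynomial.X none))
      (evX f p).natDegree b (evX f).toRingHom
    rw [Polynomial.map_add, map_map_evX, map_map_evX, map_C] at this
    refine this.symm.trans ?_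
    congr 3
    simp [evX]
  have e : ev f ((toP R).coeff (evX f R).natTrailingDegree) = (evX f R).trailingCoeff :=
    (coeff_evX f R _).symm
  refine ⟨(toP R).coeff (evX f R).natTrailingDegree, ?_, ?_, ?_⟩
  · rw [e, eR]
    exact trailingCoeff_nonzero_iff_nonzero.2 (res_ne _ _ h0 b dG)
  · rw [e, eR]
    exact res_dvd _ _ ζ b hb dG h1 h2
  refine (Nat.le_mul_of_pos_right _ (by positivity)).trans ((nu_coeff_le R _).trans ?_)
  refine (nu_res _ _ (2 ^ a) (2 ^ (b + 1)) _ _ (fun s => (sum_map p s).trans hp)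
    fun s => ?_).trans ?_
  · simp only [coeff_add]
    refine (Finset.sum_le_sum fun k _ => nu_add _ _).trans ?_
    rw [Finset.sum_add_distrib, pow_succ, mul_two]
    refine add_le_add ((sum_map G s).trans hG) (le_trans ?_ (Nat.pow_le_pow_right two_pos hb))
    have e2 : ∀ k, nu ((C (MvPolynomial.X none) : (ZP (Option τ))[X]).coeff k) =
        if k = 0 then 2 else 0 := fun k => by
      rw [coeff_C]; split_ifs <;> simp
    simp only [e2, Finset.sum_ite_eq']
    split_ifs <;> simp
  · rw [← pow_mul, ← pow_mul, ← pow_add]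
    refine Nat.pow_le_pow_right two_pos ?_
    have h3 := Nat.mul_le_mul_left (b + 1) dp
    have h4 := Nat.mul_le_mul_left a hb
    nlinarith

end Pool.Agent.MP_5daf37_lc.FC

end MrgPart8

-- marker of a merged file
example : 731051 + 127172 = 731051 + 127172 := rfl
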