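import Pool.Agent.MP_5daf37_lc.FC.Kl
import Pool.Agent.MP_5daf37_lc.FC.Elim

-- ======== part 0: formerly Pool.Agent.MP_5daf37_lc.FC.Rz
section MrgPart0

/-!
Realizations of a matrix as a block of the inverse of a matrix of small polynomials.
-/

open Matrix

namespace Pool.Agent.MP_5daf37_lc.FC

/-- A square matrix of polynomials with rows of total logarithmic size at most `s`, with marked
inputs and outputs. -/
structure Rz (k L : ℕ) (ν : Type) [Fintype ν] (s : ℕ) where
  M : Matrix ν ν (ZP (Fin k))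
  out : Ix L → ν
  src : ν → Option (Ix L)
  ρ : ν → ℕ
  hs : ∑ v, ρ v ≤ s
  hρ : ∀ v, ∑ u, nu (M v u) + 1 ≤ 2 ^ ρ v

theorem schur' {T ν μ : Type} [CommRing T] [Fintype ν] [DecidableEq ν] [Fintype μ] [DecidableEq μ]
    {M N : Matrix ν ν T} (h : M * N = 1) (P : Matrix ν μ T) (Q : Matrix μ ν T) (Z : Matrix μ μ T) :
    M.det * (Z + Q * N * P).det = (fromBlocks M (-P) Q Z).det := by
  have e : fromBlocks M (-P) Q Z * fromBlocks 1 (N * P) 0 1 = fromBlocks M 0 Q (Z + Q * N * P) := by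
    rw [fromBlocks_multiply, ← Matrix.mul_assoc, h]
    simp [add_comm, Matrix.mul_assoc]
  have := congrArg det e
  rw [det_mul, det_fromBlocks_zero₂₁, det_fromBlocks_zero₁₂, det_one, det_one] at this
  simpa using this.symm

theorem deg_le {σ : Type} {P : ZP σ} {a : ℕ} (h : nu P ≤ 2 ^ a) {m : σ →₀ ℕ} (hm : m ∈ P.support) :
    ∑ i ∈ m.support, m i ≤ a :=
  (Nat.pow_le_pow_iff_right one_lt_two).1 ((Nat.le_mul_of_pos_left _
    (Int.natAbs_pos.2 (MvPolynomial.mem_support_iff.1 hm))).trans ((term_le_nu P m).trans h))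

theorem pow_mul_ev_mem {σ T : Type} [CommRing T] (O : Subring T) {b : T} {ζ : σ → T} (hb : b ∈ O)
    (hζ : ∀ j, b * ζ j ∈ O) {P : ZP σ} {a : ℕ} (h : nu P ≤ 2 ^ a) : b ^ a * ev ζ P ∈ O := by
  rw [P.as_sum, map_sum, Finset.mul_sum]
  refine O.sum_mem fun m hm => ?_
  obtain ⟨c, rfl⟩ := Nat.exists_eq_add_of_le (deg_le h hm)
  have : b ^ (∑ i ∈ m.support, m i + c) * ev ζ (MvPolynomial.monomial m (P.coeff m)) =
      b ^ c * ((P.coeff m : ℤ) : T) * ∏ i ∈ m.support, (b * ζ i) ^ m i := by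
    rw [MvPolynomial.aeval_monomial, Finsupp.prod]
    simp only [mul_pow, Finset.prod_mul_distrib, Finset.prod_pow_eq_pow_sum, pow_add, eq_intCast]
    ring
  rw [this]
  exact O.mul_mem (O.mul_mem (O.pow_mem hb _) (intCast_mem O _))
    (O.prod_mem fun i _ => O.pow_mem (hζ i) _)

theorem norm_ev_le' {σ : Type} {y : σ → ℂ} {R : ℝ} (hR : 1 ≤ R) (hy : ∀ j, ‖y j‖ ≤ R) {P : ZP σ}
    {a : ℕ} (h : nu P ≤ 2 ^ a) : ‖ev y P‖ ≤ nu P * R ^ a := by
  conv_lhs => rw [P.as_sum, map_sum]
  rw [nu, Nat.cast_sum, Finset.sum_mul]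
  refine (norm_sum_le _ _).trans (Finset.sum_le_sum fun m hm => ?_)
  rw [MvPolynomial.aeval_monomial, norm_mul, Nat.cast_mul, mul_assoc]
  refine mul_le_mul (by simp [Nat.cast_natAbs]) ?_ (norm_nonneg _) (by positivity)
  refine le_trans ?_ (le_mul_of_one_le_left (by positivity)
    (by exact_mod_cast Nat.one_le_two_pow))
  refine le_trans ?_ (pow_le_pow_right₀ hR (deg_le h hm))
  rw [Finsupp.prod, norm_prod, ← Finset.prod_pow_eq_pow_sum]
  exact Finset.prod_le_prod (fun _ _ => norm_nonneg _) fun i _ => by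
    rw [norm_pow]; exact pow_le_pow_left₀ (norm_nonneg _) (hy i) _

namespace Rz

variable {k L s : ℕ} {ν : Type} [Fintype ν] [DecidableEq ν] (Z : Rz k L ν s)
variable {T T' : Type} [CommRing T] [CommRing T']

/-- Signed selection of inputs. -/
def P {μ : Type} (T : Type) [CommRing T] (g : μ → Ix L) (c : μ → ℤ) : Matrix ν μ T :=
  of fun u j => if Z.src u = some (g j) then (c j : T) else 0

/-- Signed selection of outputs. -/
def Q {μ : Type} (T : Type) [CommRing T] (g : μ → Ix L) (c : μ → ℤ) : Matrix μ ν T :=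
  of fun i v => if Z.out (g i) = v then (c i : T) else 0

/-- The transfer matrix attached to an inverse `N`. -/
def tr (N : Matrix ν ν T) : Matrix (Ix L) (Ix L) T :=
  Z.Q T id (fun _ => 1) * N * Z.P T id fun _ => 1

omit [DecidableEq ν] in
theorem P_map {μ : Type} (φ : T →+* T') (g : μ → Ix L) (c : μ → ℤ) :
    (Z.P T g c).map φ = Z.P T' g c := by ext; simp [P, apply_ite φ]

theorem Q_map {μ : Type} (φ : T →+* T') (g : μ → Ix L) (c : μ → ℤ) :
    (Z.Q T g c).map φ = Z.Q T' g c := by ext; simp [Q, apply_ite φ]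

theorem tr_map (φ : T →+* T') (N : Matrix ν ν T) : (Z.tr N).map φ = Z.tr (N.map φ) := by
  rw [tr, Matrix.map_mul, Matrix.map_mul, P_map, Q_map, tr]

theorem inv_map (φ : T →+* T') {ζ : Fin k → T} {N : Matrix ν ν T} (h : Z.M.map (ev ζ) * N = 1) :
    Z.M.map (ev fun j => φ (ζ j)) * N.map φ = 1 := by
  have : Z.M.map (ev fun j => φ (ζ j)) = (Z.M.map (ev ζ)).map φ := by
    ext; simp only [map_apply, map_ev]
  rw [this, ← Matrix.map_mul, h, Matrix.map_one _ φ.map_zero φ.map_one]

omit [DecidableEq ν] in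
theorem nu_M (v u : ν) : nu (Z.M v u) ≤ 2 ^ Z.ρ v :=
  ((Finset.single_le_sum (f := fun u => nu (Z.M v u)) (fun _ _ => Nat.zero_le _)
    (Finset.mem_univ u)).trans (Nat.le_succ _)).trans (Z.hρ v)

theorem QP {μ : Type} (N : Matrix ν ν T) (g g' : μ → Ix L) (c c' : μ → ℤ) (i j : μ) :
    (Z.Q T g c * N * Z.P T g' c') i j = (c i : T) * Z.tr N (g i) (g' j) * (c' j : T) := by
  simp only [tr, mul_apply, P, Q, of_apply, Finset.sum_mul, Finset.mul_sum, id]
  refine Finset.sum_congr rfl fun u _ => Finset.sum_congr rfl fun v _ => ?_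
  split_ifs <;> simp

open Circ1 in
theorem q1 (a b : Ix L) {r : ℕ} (x : Fin r → Ix L) {y : Fin r → Ix L} (hy : Function.Injective y) :
    ∃ Δ : ZP (Fin k), nu Δ ≤ 2 ^ (2 * s + r) ∧ ∀ (T : Type) [CommRing T] (ζ : Fin k → T)
      (N : Matrix ν ν T), Z.M.map (ev ζ) * N = 1 →
      ev ζ Δ = (Z.M.map (ev ζ)).det ^ 2 * ((Mg a b (Z.tr N)).submatrix x y).det := by
  refine ⟨(fromBlocks Z.M
    (-(fromCols (0 : Matrix ν ν _) (Z.P _ (fun j => y j + a) fun j => chi b (y j))))
    (fromRows (0 : Matrix ν ν _) (Z.Q _ x fun _ => -1)) (fromBlocks Z.M (-Z.P _ y fun _ => 1)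
      (Z.Q _ (fun i => x i + b) fun i => chi a (x i)) 0)).det, ?_, fun T _ ζ N hN => ?_⟩
  · have hP : ∀ (g : Fin r → Ix L) c, Function.Injective g → (∀ j, (c j).natAbs = 1) → ∀ u,
        ∑ j, nu (Z.P (ZP (Fin k)) g c u j) ≤ 1 := by
      intro g c hg hs u
      refine le_trans (le_of_eq (Finset.sum_congr rfl fun j _ => nu_ite (hs j))) ?_
      exact sum_ite_le _ fun i j hi hj => hg (Option.some.inj (hi.symm.trans hj))
    have hQ : ∀ (g : Fin r → Ix L) c, (∀ j, (c j).natAbs = 1) → ∀ i,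
        ∑ v, nu (Z.Q (ZP (Fin k)) g c i v) ≤ 1 := by
      intro g c hs i
      refine le_trans (le_of_eq (Finset.sum_congr rfl fun v _ => nu_ite (hs i))) ?_
      exact sum_ite_le _ fun i j hi hj => hi.symm.trans hj
    have h0 : ∏ v, 2 ^ Z.ρ v ≤ 2 ^ s := by
      rw [Finset.prod_pow_eq_pow_sum]; exact Nat.pow_le_pow_right two_pos Z.hs
    refine (nu_det_row _).trans ?_
    rw [Fintype.prod_sum_type, Fintype.prod_sum_type, two_mul, pow_add, pow_add, mul_assoc]
    refine Nat.mul_le_mul ((Finset.prod_le_prod' fun v _ => le_trans ?_ (Z.hρ v)).trans h0)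
      (Nat.mul_le_mul ((Finset.prod_le_prod' fun v _ => le_trans ?_ (Z.hρ v)).trans h0) ?_)
    · have := hP (fun j => y j + a) (fun j => chi b (y j))
        (fun i j h => hy (add_right_cancel h)) (fun j => natAbs_chi _ _) v
      simpa [Fintype.sum_sum_type] using this
    · have := hP y (fun _ => 1) hy (fun _ => rfl) v
      simpa [Fintype.sum_sum_type] using this
    · refine (Finset.prod_le_pow_card _ _ 2 fun i _ => ?_).trans (by simp)
      have h3 := add_le_add (hQ x (fun _ => -1) (fun _ => rfl) i)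
        (hQ (fun i => x i + b) (fun i => chi a (x i)) (fun j => natAbs_chi _ _) i)
      simpa [Fintype.sum_sum_type] using h3
  · have e : (Mg a b (Z.tr N)).submatrix x y =
        Z.Q T x (fun _ => -1) * N * Z.P T (fun j => y j + a) (fun j => chi b (y j)) +
          Z.Q T (fun i => x i + b) (fun i => chi a (x i)) * N * Z.P T y fun _ => 1 := by
      ext1 i j
      rw [Matrix.add_apply, QP, QP, submatrix_apply, Mg, of_apply]
      push_cast
      ring
    rw [e, sq, mul_assoc, schur' hN, ev_det]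
    have e2 := schur' hN
      (fromCols (0 : Matrix ν ν T) (Z.P T (fun j => y j + a) fun j => chi b (y j)))
      (fromRows (0 : Matrix ν ν T) (Z.Q T x fun _ => -1)) (fromBlocks (Z.M.map (ev ζ))
        (-Z.P T y fun _ => 1) (Z.Q T (fun i => x i + b) fun i => chi a (x i)) 0)
    rw [fromRows_mul, fromRows_mul_fromCols, fromBlocks_add] at e2
    simp only [Matrix.zero_mul, Matrix.mul_zero, add_zero, zero_add] at e2
    rw [e2]
    congr 1
    have hc : ∀ z : ℤ, ev ζ (z : ZP (Fin k)) = z := fun z => map_intCast _ z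
    ext (i | i | i) (j | j | j) <;> simp [P, Q, apply_ite (ev ζ), hc]

theorem q2 {μ : Type} [Fintype μ] [DecidableEq μ] (O : Subring T) {b : T} {ζ : Fin k → T}
    {N : Matrix ν ν T} (hN : Z.M.map (ev ζ) * N = 1) (U : Matrix μ (Ix L) T)
    (V : Matrix (Ix L) μ T) (W : Matrix μ μ T) (hb : b ∈ O) (hζ : ∀ j, b * ζ j ∈ O)
    (hU : ∀ i j, U i j ∈ O) (hV : ∀ i j, V i j ∈ O) (hW : ∀ i j, W i j ∈ O) :
    b ^ s * ((Z.M.map (ev ζ)).det * (W + U * Z.tr N * V).det) ∈ O := by
  obtain ⟨c, hc⟩ := Nat.exists_eq_add_of_le Z.hs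
  have hi : ∀ (c : Prop) [Decidable c], (if c then ((1 : ℤ) : T) else 0) ∈ O := fun c _ => by
    rw [Int.cast_one]; exact Circ02.ite_mem' O c
  rw [tr, show U * (Z.Q T id (fun _ => 1) * N * Z.P T id fun _ => 1) * V =
      U * Z.Q T id (fun _ => 1) * N * ((Z.P T id fun _ => 1) * V) by
    simp only [Matrix.mul_assoc], schur' hN, congrArg (b ^ ·) hc, pow_add, mul_right_comm]
  refine O.mul_mem ?_ (O.pow_mem hb c)
  have h3 : (diagonal (Sum.elim (fun v => b ^ Z.ρ v) fun _ : μ => (1 : T))).det =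
      b ^ ∑ v, Z.ρ v := by
    simp [det_diagonal, Fintype.prod_sum_type, Finset.prod_pow_eq_pow_sum]
  rw [← h3, ← det_mul]
  refine Circ02.det_mem O _ fun i j => ?_
  rw [diagonal_mul]
  rcases i with v | i <;> rcases j with u | j
  · exact pow_mul_ev_mem O hb hζ (Z.nu_M v u)
  · rw [Sum.elim_inl, fromBlocks_apply₁₂, Matrix.neg_apply]
    exact O.mul_mem (O.pow_mem hb _) (O.neg_mem (Circ02.mul_mem' O _ _ (fun _ _ => hi _) hV _ _))
  · rw [Sum.elim_inr, fromBlocks_apply₂₁, one_mul]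
    exact Circ02.mul_mem' O _ _ hU (fun _ _ => hi _) _ _
  · rw [Sum.elim_inr, fromBlocks_apply₂₂, one_mul]
    exact hW _ _

theorem q3 {y : Fin k → ℂ} {R : ℝ} {N : Matrix ν ν ℂ} (hN : Z.M.map (ev y) * N = 1)
    (W : Matrix (Ix L) (Ix L) ℂ) (hR : 1 ≤ R) (hy : ∀ j, ‖y j‖ ≤ R)
    (hW : ∀ i, ∑ j, ‖W i j‖ ^ 2 ≤ 1) :
    ‖(Z.M.map (ev y)).det‖ * ‖(W + Z.tr N).det‖ ≤ (2 * R) ^ s * 2 ^ 2 ^ L := by
  rw [← norm_mul, tr, schur' hN]
  refine (Circ3.had _ (Sum.elim (fun v => (2 * R) ^ Z.ρ v) fun _ => 2) ?_ ?_).trans ?_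
  · rintro (v | i)
    · simp only [Sum.elim_inl]
      positivity
    · simp
  · rintro (v | i)
    · refine (Finset.sum_sq_le_sq_sum_of_nonneg fun _ _ => norm_nonneg _).trans
        (pow_le_pow_left₀ (Finset.sum_nonneg fun _ _ => norm_nonneg _) ?_ 2)
      rw [Fintype.sum_sum_type]
      simp only [fromBlocks_apply₁₁, fromBlocks_apply₁₂, Matrix.neg_apply, norm_neg, Sum.elim_inl]
      have h1 : ∑ u, ‖Z.M.map (ev y) v u‖ ≤ (∑ u, nu (Z.M v u) : ℕ) * R ^ Z.ρ v := by
        rw [Nat.cast_sum, Finset.sum_mul]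
        exact Finset.sum_le_sum fun u _ => norm_ev_le' hR hy (Z.nu_M v u)
      have h2 : ∑ j, ‖Z.P ℂ id (fun _ => 1) v j‖ ≤ 1 := by
        cases h : Z.src v <;> simp [P, h, apply_ite]
      have h3 : ((∑ u, nu (Z.M v u) : ℕ) : ℝ) + 1 ≤ 2 ^ Z.ρ v := by exact_mod_cast Z.hρ v
      have h4 : 1 ≤ R ^ Z.ρ v := one_le_pow₀ hR
      rw [mul_pow]
      nlinarith
    · rw [Fintype.sum_sum_type]
      simp only [fromBlocks_apply₂₁, fromBlocks_apply₂₂, Sum.elim_inr]
      have h1 : ∑ v, ‖Z.Q ℂ id (fun _ => 1) i v‖ ^ 2 = 1 := by simp [Q, apply_ite]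
      have := hW i
      linarith
  · rw [Fintype.prod_sum_type]
    simp only [Sum.elim_inl, Sum.elim_inr]
    rw [Finset.prod_pow_eq_pow_sum, Finset.prod_const, Finset.card_univ, card_Ix]
    exact mul_le_mul_of_nonneg_right (pow_le_pow_right₀ (by linarith) Z.hs) (by positivity)

end Rz

end Pool.Agent.MP_5daf37_lc.FC

end MrgPart0

-- ======== part 1: formerly Pool.Agent.MP_5daf37_lc.FC.Rz2
section MrgPart1

/-!
The integrality and the archimedean bound for the multiplier of a realization.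
-/

open Matrix Polynomial

namespace Pool.Agent.MP_5daf37_lc.FC.Rz

variable {k L s : ℕ} {ν : Type} [Fintype ν] [DecidableEq ν] (Z : Rz k L ν s)

omit [DecidableEq ν] in
theorem M_map {T T' : Type} [CommRing T] [CommRing T'] (φ : T →+* T') (ζ : Fin k → T) :
    (Z.M.map (ev ζ)).map φ = Z.M.map (ev fun j => φ (ζ j)) := by
  ext; simp only [map_apply, map_ev]

theorem det_map {T T' : Type} [CommRing T] [CommRing T'] (φ : T →+* T') (ζ : Fin k → T) :
    φ (Z.M.map (ev ζ)).det = (Z.M.map (ev fun j => φ (ζ j))).det := by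
  rw [φ.map_det, RingHom.mapMatrix_apply, M_map]

theorem intg {F μ : Type} [Field F] [Fintype μ] [DecidableEq μ] (O : Subring F) {b z : F}
    {ζ : Fin k → F} {N : Matrix ν ν F} (hN : Z.M.map (ev ζ) * N = 1) (U : Matrix μ (Ix L) ℤ)
    (V : Matrix (Ix L) μ ℤ) (hb : b ∈ O) (hζ : ∀ j, IsIntegral O (b * ζ j)) {m : ℕ}
    (hr : (U.map (Int.castRingHom F) * Z.tr N * V.map (Int.castRingHom F) -
      z • (1 : Matrix μ μ F)).rank + m ≤ Fintype.card μ) :
    IsIntegral O (b ^ s * (Z.M.map (ev ζ)).det * z ^ m) := by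
  set T := U.map (Int.castRingHom F) * Z.tr N * V.map (Int.castRingHom F) with hT
  let O' : Subring F[X] := liftsRing (algebraMap (integralClosure O F) F)
  have hO' : ∀ p : F[X], p ∈ O' ↔ ∀ i, IsIntegral O (p.coeff i) := fun p => by
    refine (lifts_iff_liftsRing _ p).symm.trans ((lifts_iff_coeff_lifts p).trans ?_)
    exact forall_congr' fun i => ⟨fun ⟨a, ha⟩ => ha ▸ a.2, fun h => ⟨⟨_, h⟩, rfl⟩⟩
  have hC : ∀ a : F, IsIntegral O a → C a ∈ O' := fun a ha => (hO' _).2 fun i => by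
    rw [coeff_C]
    split_ifs
    · exact ha
    · exact isIntegral_zero
  have hbI : IsIntegral O b := isIntegral_algebraMap (R := O) (A := F) (x := ⟨b, hb⟩)
  have hX : (X : F[X]) ∈ O' := (lifts_iff_liftsRing _ _).1 (X_mem_lifts _)
  have h3 := Z.q2 O' (Z.inv_map (C : F →+* F[X]) hN) (-U.map (Int.castRingHom F[X]))
    (V.map (Int.castRingHom F[X])) (Matrix.scalar μ X) (hC b hbI)
    (fun j => by rw [← C_mul]; exact hC _ (hζ j))
    (fun i j => O'.neg_mem (intCast_mem O' _)) (fun i j => intCast_mem O' _) (fun i j => by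
      rw [scalar_apply, diagonal_apply]
      split_ifs
      · exact hX
      · exact O'.zero_mem)
  have h4 : Matrix.scalar μ X + -U.map (Int.castRingHom F[X]) * Z.tr (N.map (C : F →+* F[X]))
      * V.map (Int.castRingHom F[X]) = charmatrix T := by
    have e1 : (U.map (Int.castRingHom F)).map (C : F →+* F[X]) = U.map (Int.castRingHom F[X]) :=
      Matrix.ext fun i j => map_intCast (C : F →+* F[X]) _
    have e2 : (V.map (Int.castRingHom F)).map (C : F →+* F[X]) = V.map (Int.castRingHom F[X]) :=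
      Matrix.ext fun i j => map_intCast (C : F →+* F[X]) _
    rw [charmatrix, hT, Matrix.neg_mul, Matrix.neg_mul, ← sub_eq_add_neg, RingHom.mapMatrix_apply,
      Matrix.map_mul, Matrix.map_mul, e1, e2, tr_map]
  rw [h4, ← C_pow, ← det_map, ← mul_assoc, ← C_mul, hO'] at h3
  obtain ⟨q, hq⟩ := IntA.pow_dvd_charpoly T z m hr
  have h5 : q.Monic := ((monic_X_sub_C _).pow m).of_mul_monic_left (hq ▸ T.charpoly_monic)
  have h6 := FC5.integral_pow (R := O) z m (C (b ^ s * (Z.M.map (ev ζ)).det) * q)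
    (by rwa [mul_left_comm, ← hq]) q.natDegree
  rwa [coeff_C_mul, h5.coeff_natDegree, mul_one, mul_comm] at h6

theorem arch {y : Fin k → ℂ} {R : ℝ} {N : Matrix ν ν ℂ} (hN : Z.M.map (ev y) * N = 1) (hR : 1 ≤ R)
    (hy : ∀ j, ‖y j‖ ≤ R) {μ : ℂ} {m : ℕ} (hr : (Z.tr N - μ • Hm L ℂ).rank + m ≤ 2 ^ L) :
    ‖(Z.M.map (ev y)).det‖ * (‖μ‖ * √(2 ^ L)) ^ m ≤ (2 * R) ^ s * 2 ^ 2 ^ L := by
  set r : ℝ := √(2 ^ L) with hrd
  have hr0 : 0 < r := Real.sqrt_pos.2 (by positivity)
  have hrr : r * r = 2 ^ L := Real.mul_self_sqrt (by positivity)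
  have hc0 : (r : ℂ) ≠ 0 := by exact_mod_cast hr0.ne'
  have hcc : (r : ℂ) * r = 2 ^ L := by exact_mod_cast hrr
  set Q : Matrix (Ix L) (Ix L) ℂ := (r : ℂ)⁻¹ • Hm L ℂ with hQ
  have hQQ : Q * Q = 1 := by
    rw [hQ, Matrix.smul_mul, Matrix.mul_smul, Hm_mul_Hm, smul_smul, smul_smul, ← hcc,
      show (r : ℂ)⁻¹ * (r : ℂ)⁻¹ * (r * r) = 1 by field_simp, one_smul]
  have hQd : ‖Q.det‖ = 1 := by
    have := congrArg (fun M : Matrix (Ix L) (Ix L) ℂ => ‖M.det‖) hQQ
    simp only [det_mul, norm_mul, det_one, norm_one] at this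
    nlinarith [norm_nonneg Q.det]
  set T := Q * Z.tr N with hT
  have h1 : (T - (μ * r) • (1 : Matrix (Ix L) (Ix L) ℂ)).rank + m ≤ Fintype.card (Ix L) := by
    have : T - (μ * r) • (1 : Matrix (Ix L) (Ix L) ℂ) = Q * (Z.tr N - μ • Hm L ℂ) := by
      rw [Matrix.mul_sub, ← hQQ, Matrix.mul_smul, ← Matrix.mul_smul, ← Matrix.mul_smul]
      congr 2
      rw [smul_smul, mul_assoc, mul_inv_cancel₀ hc0, mul_one]
    have h := rank_mul_le_right Q (Z.tr N - μ • Hm L ℂ)
    rw [this, card_Ix]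
    omega
  obtain ⟨q, hq⟩ := IntA.pow_dvd_charpoly T _ m h1
  have h5 : q.Monic := ((monic_X_sub_C _).pow m).of_mul_monic_left (hq ▸ T.charpoly_monic)
  have h6 : max 1 ‖μ * r‖ ^ m ≤ T.charpoly.mahlerMeasure := by
    have hp : ∀ n : ℕ, ((X - C (μ * r)) ^ n).mahlerMeasure = max 1 ‖μ * r‖ ^ n := fun n => by
      induction n with
      | zero => simp
      | succ n ih => rw [pow_succ, mahlerMeasure_mul, ih, mahlerMeasure_X_sub_C, pow_succ]
    rw [hq, mahlerMeasure_mul, hp]
    exact le_mul_of_one_le_right (by positivity)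
      (one_le_mahlerMeasure_of_one_le_norm_leadingCoeff (by simp [h5.leadingCoeff]))
  obtain ⟨w, hw, hw2⟩ := sup1 T.charpoly
  have h7 : ‖T.charpoly.eval w‖ = ‖(-w • Q + Z.tr N).det‖ := by
    have : Matrix.scalar (Ix L) w - T = -(Q * (-w • Q + Z.tr N)) := by
      rw [Matrix.mul_add, Matrix.mul_smul, hQQ, hT]
      ext i j
      simp [Matrix.one_apply, diagonal_apply, sub_eq_neg_add]
    rw [eval_charpoly, this, det_neg, det_mul]
    simp [hQd]
  have h8 := Z.q3 hN (-w • Q) hR hy fun i => by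
    have : ∀ j, ‖(-w • Q) i j‖ ^ 2 = (2 ^ L : ℝ)⁻¹ := fun j => by
      have hchi : ‖(chi i j : ℂ)‖ = 1 := by
        rw [Complex.norm_intCast, ← Int.cast_abs, Int.abs_eq_natAbs, natAbs_chi]; simp
      simp only [hQ, Matrix.smul_apply, smul_eq_mul, norm_mul, norm_neg, hw, Hm, of_apply, hchi,
        norm_inv, Complex.norm_real, Real.norm_eq_abs, abs_of_pos hr0]
      rw [← hrr]
      field_simp
    simp only [this]
    simp
  have h13 : ‖μ‖ * r = ‖μ * r‖ := by simp [abs_of_pos hr0]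
  refine le_trans (mul_le_mul_of_nonneg_left ?_ (norm_nonneg _)) h8
  rw [h13]
  exact (pow_le_pow_left₀ (norm_nonneg _) (le_max_right 1 _) m).trans
    (h6.trans (hw2.trans h7.le))

end Pool.Agent.MP_5daf37_lc.FC.Rz

end MrgPart1

-- ======== part 2: formerly Pool.Agent.MP_5daf37_lc.FC.Rz3
section MrgPart2

/-!
The product formula on a branch, for realizations.
-/

open Matrix

namespace Pool.Agent.MP_5daf37_lc.FC.Rz

theorem exists_multiple {σ F : Type} [Field F] {u : σ → F} {x : F} (hx : Intg u x) (h0 : x ≠ 0) :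
    ∃ (a : ZP σ) (κ : F), ev u a ≠ 0 ∧ Intg u κ ∧ ev u a = x * κ := by
  let O := (ev u).range.toSubring
  let x' : integralClosure O F := ⟨x, hx⟩
  have h1 : IsAlgebraic O x' := (integralClosure.isIntegral x').isAlgebraic
  obtain ⟨⟨_, a, rfl⟩, h2, κ, h3⟩ := h1.exists_nonzero_dvd
    (mem_nonZeroDivisors_of_ne_zero fun h => h0 (congrArg Subtype.val h))
  exact ⟨a, κ, fun h => h2 (Subtype.ext h), κ.2, congrArg Subtype.val h3⟩

theorem final {K s L j T m : ℕ} {a D μ : ℝ} (hj : 2 * (j + T) ≤ L) (ha : 0 < a) (hμ : 0 ≤ μ)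
    (hD : 0 ≤ D) (hT : (K + 1) * s + 2 ^ L + 1 ≤ T * m)
    (h1 : D * (μ * √(2 ^ L)) ^ m ≤ (2 * (2 ^ K / a)) ^ s * 2 ^ 2 ^ L) :
    a ^ s * D * (2 ^ j * μ) ^ m ≤ 1 / 2 := by
  have e1 : (2 : ℝ) ^ j * 2 ^ T ≤ √(2 ^ L) := by
    refine Real.le_sqrt_of_sq_le ?_
    rw [← pow_add, ← pow_mul, mul_comm]
    exact pow_le_pow_right₀ one_le_two hj
  have e2 : a ^ s * (2 * (2 ^ K / a)) ^ s = 2 ^ ((K + 1) * s) := by
    rw [← mul_pow, pow_mul, pow_succ]
    congr 1
    field_simp
  have e3 : (2 ^ j * μ) ^ m * 2 ^ (T * m) ≤ (μ * √(2 ^ L)) ^ m := by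
    rw [pow_mul, ← mul_pow]
    exact pow_le_pow_left₀ (by positivity) (by nlinarith [mul_le_mul_of_nonneg_left e1 hμ]) m
  refine le_of_mul_le_mul_right ?_ (by positivity : (0 : ℝ) < 2 ^ (T * m))
  calc _ = a ^ s * (D * ((2 ^ j * μ) ^ m * 2 ^ (T * m))) := by ring
    _ ≤ a ^ s * ((2 * (2 ^ K / a)) ^ s * 2 ^ 2 ^ L) :=
      mul_le_mul_of_nonneg_left ((mul_le_mul_of_nonneg_left e3 hD).trans h1) (by positivity)
    _ = 1 / 2 * 2 ^ ((K + 1) * s + 2 ^ L + 1) := by rw [← mul_assoc, e2]; ring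
    _ ≤ _ := by gcongr; exact one_le_two

variable {k L s : ℕ} {ν : Type} [Fintype ν] [DecidableEq ν] (Z : Rz k L ν s)

open CaseB in
theorem caseb {d g B : ℕ} {F : Type} [Field F] [CharZero F] {u : Fin d → F} {ζ : Fin k → F}
    {G : Fin k → ZP (Option (Fin d))} {lam : F} {N : Matrix ν ν F} (hN : Z.M.map (ev ζ) * N = 1)
    (hs : s ≤ g * 2 ^ L) (hg : 1 ≤ g) (hB1 : 1 ≤ B) (hu : Function.Injective (ev u))
    (hG : ∀ j, nu (G j) ≤ 2 ^ B ∧ G j ≠ 0 ∧ (evX u (G j)).eval (ζ j) = 0) (hlam : lam ≠ 0)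
    (hrk : 8 * (Z.tr N - lam • Hm L F).rank ≤ 2 ^ L) : L ≤ (72 * g * (k + 1) * B) ^ 2 := by
  by_contra hL
  obtain ⟨T, hT⟩ : ∃ T, T = 18 * (g * (k + 1) * B) := ⟨_, rfl⟩
  have hX : 1 ≤ g * (k + 1) * B := Nat.mul_pos (Nat.mul_pos hg k.succ_pos) hB1
  have hT1 : 16 * T ^ 2 ≤ L := by
    rw [hT]
    exact le_trans (le_of_eq (by ring)) (not_le.1 hL).le
  have hT2 : 18 ≤ T := by omega
  obtain ⟨j, hj⟩ : ∃ j, j = L / 2 - T := ⟨_, rfl⟩
  have hT3 : 2 * T ≤ L := by nlinarith
  have hj2 : 2 * (j + T) ≤ L := by omega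
  obtain ⟨m, hm⟩ : 8 ∣ 2 ^ L := pow_dvd_pow 2 (show 3 ≤ L by omega)
  obtain ⟨m, rfl⟩ : ∃ m', m = m' + 1 := Nat.exists_eq_succ_of_ne_zero fun h => by
    have : 0 < 2 ^ L := by positivity
    omega
  obtain ⟨b0, hb0⟩ : ∃ b0, b0 = ∏ i, (toP (G i)).leadingCoeff := ⟨_, rfl⟩
  have hb1 : b0 ≠ 0 := hb0 ▸ Finset.prod_ne_zero_iff.2 fun i _ =>
    Polynomial.leadingCoeff_ne_zero.2 (toP_ne_zero (hG i).2.1)
  have hb2 : nu b0 ≤ 2 ^ (k * B) := by
    rw [hb0]
    refine (nu_prod _ _).trans ((Finset.prod_le_pow_card _ _ (2 ^ B)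
      fun i _ => (nu_lc _).trans (hG i).1).trans (le_of_eq ?_))
    rw [Finset.card_univ, Fintype.card_fin, ← pow_mul, mul_comm]
  have hζ : ∀ i, Intg u (ev u b0 * ζ i) := fun i => by
    rw [hb0, ← Finset.prod_erase_mul _ _ (Finset.mem_univ i), map_mul, mul_assoc]
    exact (intg_ev _).mul (intg_lc hu (hG i).2.2)
  obtain ⟨U, V, hUV⟩ := smith L j
  obtain ⟨D, hD⟩ : ∃ D, D = (Z.M.map (ev ζ)).det := ⟨_, rfl⟩
  have hD0 : D ≠ 0 := hD ▸ (isUnit_det_of_right_inverse hN).ne_zero
  have hβ : ∀ m' ≤ m + 1, Intg u (ev u b0 ^ s * D * (2 ^ j * lam) ^ m') := fun m' hm' => by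
    rw [hD]
    refine Z.intg (ev u).range.toSubring hN U V ⟨b0, rfl⟩ hζ ?_
    have e1 : U.map (Int.castRingHom F) * Hm L F * V.map (Int.castRingHom F) =
        (2 : F) ^ j • 1 := by
      rw [← Hm_map (Int.castRingHom F), ← Matrix.map_mul, ← Matrix.map_mul, hUV]
      ext x y
      rw [map_apply, Matrix.smul_apply, Matrix.smul_apply, one_apply, one_apply]
      split_ifs <;> simp
    have e2 : U.map (Int.castRingHom F) * Z.tr N * V.map (Int.castRingHom F) -
        ((2 : F) ^ j * lam) • 1 = U.map (Int.castRingHom F) * (Z.tr N - lam • Hm L F) *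
          V.map (Int.castRingHom F) := by
      rw [Matrix.mul_sub, Matrix.sub_mul, Matrix.mul_smul, Matrix.smul_mul, e1, smul_smul,
        mul_comm lam]
    have e3 := (rank_mul_le_left (U.map (Int.castRingHom F) * (Z.tr N - lam • Hm L F))
      (V.map (Int.castRingHom F))).trans (rank_mul_le_right _ _)
    have e4 := binom L T hT1
    rw [← hj] at e4
    rw [e2, Fintype.card_subtype]
    omega
  have hbu : ev u b0 ≠ 0 := fun e => hb1 (hu (e.trans (map_zero _).symm))
  have two : Intg u (2 : F) := by simpa using intg_ev (u := u) 2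
  obtain ⟨a0, κ, k0, k1, k2⟩ := exists_multiple (x := ev u b0 ^ s * D)
    (by simpa using hβ 0 (by omega)) (mul_ne_zero (pow_ne_zero _ hbu) hD0)
  have ha0 : a0 ≠ 0 := fun h => k0 (by rw [h, map_zero])
  have hx : Intg u (ev u a0 * (2 ^ j * lam)) := by
    refine IsIntegral.of_pow m.succ_pos ?_
    have := (((intg_ev (u := u) a0).pow m).mul k1).mul (hβ _ le_rfl)
    refine (congrArg (Intg u) ?_).mp this
    rw [mul_pow (ev u a0), Nat.succ_eq_add_one, pow_succ (ev u a0), mul_assoc (_ ^ m) (ev u a0)]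
    nth_rw 3 [k2]
    ring
  obtain ⟨M, hM⟩ : ∃ M, nu (2 * b0 * a0) < 2 ^ M := ⟨_, Nat.lt_two_pow_self⟩
  obtain ⟨R, _, ι, φ, u', ξ', β', hι, hu', hξ', hβ', hz, hs0, hge⟩ :=
    root supz d (Option (Option (Fin k))) F u (fun o => o.elim D⁻¹ fun o => o.elim lam ζ)
      (2 * b0 * a0) _ hu (mul_ne_zero (mul_ne_zero two_ne_zero hb1) ha0) (by
        rintro (_ | _ | i)
        · refine ⟨1, ?_⟩
          have := (two.mul ((intg_ev (u := u) b0).pow (s + 1))).mul k1
          refine (congrArg (Intg u) ?_).mp this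
          simp only [map_mul, map_ofNat, Option.elim, k2]
          field_simp
          ring
        · refine ⟨j + 1, ?_⟩
          have := ((two.mul ((intg_ev (u := u) b0).pow (j + 1))).mul
            ((intg_ev (u := u) a0).pow j)).mul hx
          refine (congrArg (Intg u) ?_).mp this
          simp only [map_mul, map_ofNat, Option.elim]
          ring
        · refine ⟨1, ?_⟩
          have := (two.mul (intg_ev (u := u) a0)).mul (hζ i)
          refine (congrArg (Intg u) ?_).mp this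
          simp only [map_mul, map_ofNat, Option.elim]
          ring) ((hβ _ le_rfl).pow M) (pow_ne_zero _ (mul_ne_zero (mul_ne_zero (pow_ne_zero _ hbu)
        hD0) (pow_ne_zero _ (mul_ne_zero (pow_ne_zero _ two_ne_zero) hlam))))
  have hz1 : ∀ i, ‖φ (u' i)‖ ≤ 1 := fun i => (hz i).le
  have eD : ι (Z.M.map (ev fun i => ξ' (some (some i)))).det = D := by
    rw [det_map, hD]; simp only [hξ', Option.elim]
  have eβ : β' = (ev u' b0 ^ s * (Z.M.map (ev fun i => ξ' (some (some i)))).det *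
      (2 ^ j * ξ' (some none)) ^ (m + 1)) ^ M := hι (by
    simp only [hβ', map_mul, map_pow, map_ofNat, map_ev, hu', hξ', Option.elim, eD])
  have hroot : ∀ i, (evX (fun l => φ (u' l)) (G i)).eval (φ (ξ' (some (some i)))) = 0 := fun i => by
    have e : (evX u' (G i)).eval (ξ' (some (some i))) = 0 := hι (by
      rw [map_zero, ← (hG i).2.2, ← Polynomial.eval₂_at_apply, ← Polynomial.eval_map, map_evX]
      simp only [hu', hξ', Option.elim])
    rw [← map_evX, Polynomial.eval_map, Polynomial.eval₂_at_apply, e, map_zero]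
  obtain ⟨a, ha⟩ : ∃ a, a = ‖ev (fun l => φ (u' l)) b0‖ := ⟨_, rfl⟩
  have ha0 : 0 < a := ha ▸ norm_pos_iff.2 fun e => hs0 (by rw [map_mul, map_mul, e]; simp)
  have ha1 : a ≤ 2 ^ (k * B) := ha ▸ (norm_ev_le hz1 b0).trans (by exact_mod_cast hb2)
  have hy : ∀ i, ‖φ (ξ' (some (some i)))‖ ≤ 2 ^ (k * B) / a := fun i => by
    rw [le_div_iff₀' ha0, ha, hb0, ← Finset.prod_erase_mul _ _ (Finset.mem_univ i), map_mul,
      norm_mul, mul_assoc]
    have e1 : nu (∏ l ∈ Finset.univ.erase i, (toP (G l)).leadingCoeff) * nu (G i) ≤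
        2 ^ (k * B) := by
      refine (Nat.mul_le_mul ((nu_prod _ _).trans (Finset.prod_le_pow_card _ _ (2 ^ B)
        fun l _ => (nu_lc _).trans (hG l).1)) (hG i).1).trans (le_of_eq ?_)
      rw [← pow_succ, Finset.card_erase_add_one (Finset.mem_univ i), Finset.card_univ,
        Fintype.card_fin, ← pow_mul, mul_comm]
    exact (mul_le_mul (norm_ev_le hz1 _) (lc_root hz1 (hroot i)) (by positivity)
      (by positivity)).trans (by exact_mod_cast e1)
  obtain ⟨N', hN'⟩ : ∃ N', Z.M.map (ev fun i => ξ' (some (some i))) * N' = 1 := by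
    refine ⟨ξ' none • (Z.M.map (ev fun i => ξ' (some (some i)))).adjugate, ?_⟩
    have : ξ' none * (Z.M.map (ev fun i => ξ' (some (some i)))).det = 1 := hι (by
      rw [map_mul, eD, hξ', map_one]; exact inv_mul_cancel₀ hD0)
    rw [Matrix.mul_smul, mul_adjugate, smul_smul, this, one_smul]
  have eN : N'.map ι = N := by
    have := Z.inv_map ι hN'
    simp only [hξ', Option.elim] at this
    exact (inv_eq_right_inv this).symm.trans (inv_eq_right_inv hN)
  have hrk' := rank_spec ι hι φ (Z.tr N' - ξ' (some none) • Hm L R)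
  have m1 : ∀ {K : Type} [Field K] (ψ : R →+* K), (Z.tr N' - ξ' (some none) • Hm L R).map ψ =
      Z.tr (N'.map ψ) - ψ (ξ' (some none)) • Hm L K := fun ψ => by
    rw [← tr_map]
    ext x y
    simp only [map_apply, Matrix.sub_apply, Matrix.smul_apply, smul_eq_mul, Hm, of_apply, map_sub,
      map_mul, map_intCast]
  rw [m1, m1, eN, hξ'] at hrk'
  simp only [Option.elim] at hrk'
  have hA' := Z.arch (Z.inv_map φ hN') ((one_le_div ha0).2 ha1) hy (μ := φ (ξ' (some none)))
    (m := m + 1) (by omega)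
  have h9 := final hj2 ha0 (norm_nonneg _) (norm_nonneg _) (by
    have e1 : k * B + 1 ≤ (k + 1) * B := by nlinarith
    calc (k * B + 1) * s + 2 ^ L + 1 ≤ (k + 1) * B * (g * 2 ^ L) + 2 ^ L + 1 := by gcongr
      _ = g * (k + 1) * B * (8 * (m + 1)) + 8 * (m + 1) + 1 := by rw [hm]; ring
      _ ≤ T * (m + 1) := by rw [hT]; nlinarith) hA'
  have h10 : ‖φ β'‖ ≤ (1 / 2) ^ M := by
    rw [eβ, map_pow, norm_pow]
    refine pow_le_pow_left₀ (norm_nonneg _) ?_ M
    simpa only [ha, map_mul, map_pow, map_ofNat, map_ev, norm_mul, norm_pow, Complex.norm_ofNat,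
      det_map] using h9
  have h11 : (nu (2 * b0 * a0) : ℝ) < 2 ^ M := by exact_mod_cast hM
  have h13 : (2 : ℝ) ^ M * (1 / 2) ^ M = 1 := by rw [← mul_pow]; norm_num
  have h14 := mul_le_mul_of_nonneg_left h10 (Nat.cast_nonneg (nu (2 * b0 * a0)))
  have h15 := mul_lt_mul_of_pos_right h11 (by positivity : (0 : ℝ) < (1 / 2) ^ M)
  linarith

end Pool.Agent.MP_5daf37_lc.FC.Rz

end MrgPart2

-- ======== part 3: formerly Pool.Agent.MP_5daf37_lc.FC.Arch
section MrgPart3

/-! The archimedean bound for the multiplier. -/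

open Matrix Polynomial

namespace Pool.Agent.MP_5daf37_lc.FC

theorem arch (_hO : ORD) (hS : SUP1) : ARCH := by
  intro k L s e A y R μ h3 hR hy hs hr
  set r : ℝ := √(2 ^ L) with hrd
  have hr0 : 0 < r := Real.sqrt_pos.2 (by positivity)
  have hrr : r * r = 2 ^ L := Real.mul_self_sqrt (by positivity)
  have hc0 : (r : ℂ) ≠ 0 := by exact_mod_cast hr0.ne'
  have hcc : (r : ℂ) * r = 2 ^ L := by exact_mod_cast hrr
  set Q : Matrix (Ix L) (Ix L) ℂ := (r : ℂ)⁻¹ • Hm L ℂ with hQ
  have hQQ : Q * Q = 1 := by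
    rw [hQ, Matrix.smul_mul, Matrix.mul_smul, Hm_mul_Hm, smul_smul, smul_smul, ← hcc,
      show (r : ℂ)⁻¹ * (r : ℂ)⁻¹ * (r * r) = 1 by field_simp, one_smul]
  have hQd : ‖Q.det‖ = 1 := by
    have := congrArg (fun M : Matrix (Ix L) (Ix L) ℂ => ‖M.det‖) hQQ
    simp only [det_mul, norm_mul, det_one, norm_one] at this
    nlinarith [norm_nonneg Q.det]
  set T := Q * A.map (ev y) with hT
  set m := 2 ^ L - (A.map (ev y) - μ • Hm L ℂ).rank with hm
  have h1 : (T - (μ * r) • (1 : Matrix (Ix L) (Ix L) ℂ)).rank + m ≤ Fintype.card (Ix L) := by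
    have : T - (μ * r) • (1 : Matrix (Ix L) (Ix L) ℂ) = Q * (A.map (ev y) - μ • Hm L ℂ) := by
      rw [Matrix.mul_sub, ← hQQ, Matrix.mul_smul, ← Matrix.mul_smul, ← Matrix.mul_smul]
      congr 2
      rw [smul_smul, mul_assoc, mul_inv_cancel₀ hc0, mul_one]
    have h := rank_mul_le_right Q (A.map (ev y) - μ • Hm L ℂ)
    rw [this, card_Ix]
    omega
  obtain ⟨q, hq⟩ := IntA.pow_dvd_charpoly T _ m h1
  have h5 : q.Monic := ((monic_X_sub_C _).pow m).of_mul_monic_left (hq ▸ T.charpoly_monic)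
  have h6 : max 1 ‖μ * r‖ ^ m ≤ T.charpoly.mahlerMeasure := by
    have hp : ∀ n : ℕ, ((X - C (μ * r)) ^ n).mahlerMeasure = max 1 ‖μ * r‖ ^ n := fun n => by
      induction n with
      | zero => simp
      | succ n ih => rw [pow_succ, mahlerMeasure_mul, ih, mahlerMeasure_X_sub_C, pow_succ]
    rw [hq, mahlerMeasure_mul, hp]
    exact le_mul_of_one_le_right (by positivity)
      (one_le_mahlerMeasure_of_one_le_norm_leadingCoeff (by simp [h5.leadingCoeff]))
  obtain ⟨w, hw, hw2⟩ := hS T.charpoly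
  have h7 : ‖T.charpoly.eval w‖ = ‖(-w • Q + A.map (ev y)).det‖ := by
    have : Matrix.scalar (Ix L) w - T = -(Q * (-w • Q + A.map (ev y))) := by
      rw [Matrix.mul_add, Matrix.mul_smul, hQQ, hT]
      ext i j
      simp [Matrix.one_apply, diagonal_apply, sub_eq_neg_add]
    rw [eval_charpoly, this, det_neg, det_mul]
    simp [hQd]
  have h8 := h3 y R (-w • Q) hR hy fun i => by
    have : ∀ j, ‖(-w • Q) i j‖ ^ 2 = (2 ^ L : ℝ)⁻¹ := fun j => by
      have hchi : ‖(chi i j : ℂ)‖ = 1 := by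
        rw [Complex.norm_intCast, ← Int.cast_abs, Int.abs_eq_natAbs, natAbs_chi]; simp
      simp only [hQ, Matrix.smul_apply, smul_eq_mul, norm_mul, norm_neg, hw, Hm, of_apply, hchi,
        norm_inv, Complex.norm_real, Real.norm_eq_abs, abs_of_pos hr0]
      rw [← hrr]
      field_simp
    simp only [this]
    simp
  have h9 : max 1 ‖μ * r‖ ^ m ≤ (2 * R) ^ s * 2 ^ 2 ^ L := h6.trans (hw2.trans (h7.le.trans h8))
  have hR2 : 1 ≤ 2 * R := by linarith
  have h10 : max 1 ‖μ * r‖ ^ 2 ^ L ≤ (4 * (2 * R) ^ e) ^ 2 ^ L := by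
    calc max 1 ‖μ * r‖ ^ 2 ^ L ≤ (max 1 ‖μ * r‖ ^ m) ^ 2 := by
          rw [← pow_mul]
          exact pow_le_pow_right₀ (le_max_left _ _) (by omega)
      _ ≤ ((2 * R) ^ s * 2 ^ 2 ^ L) ^ 2 := pow_le_pow_left₀ (by positivity) h9 2
      _ = (2 * R) ^ (2 * s) * 4 ^ 2 ^ L := by
          rw [mul_pow, ← pow_mul, ← pow_mul, mul_comm s, mul_comm (2 ^ L), pow_mul (2 : ℝ)]
          norm_num
      _ ≤ (2 * R) ^ (e * 2 ^ L) * 4 ^ 2 ^ L :=
          mul_le_mul_of_nonneg_right (pow_le_pow_right₀ hR2 hs) (by positivity)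
      _ = _ := by rw [mul_pow 4, ← pow_mul, mul_comm]
  have h11 := (pow_le_pow_iff_left₀ (by positivity) (by positivity) (by positivity)).1 h10
  have h12 := le_max_right 1 ‖μ * r‖
  have h13 : ‖μ * r‖ = ‖μ‖ * r := by simp [abs_of_pos hr0]
  have h14 : 0 ≤ (2 * R) ^ e := by positivity
  linarith

end Pool.Agent.MP_5daf37_lc.FC

end MrgPart3

-- ======== part 4: formerly Pool.Agent.MP_5daf37_lc.FC.Gel
section MrgPart4

/-!
The inequality of Gelfond for the size of the factors of an integer polynomial.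
-/

open MvPolynomial

namespace Pool.Agent.MP_5daf37_lc.FC

namespace GelR

theorem ev_cons {d : ℕ} (w : ℂ) (z : Fin d → ℂ) (P : ZP (Fin (d + 1))) :
    ev (Fin.cons w z : Fin (d + 1) → ℂ) P =
      ((finSuccEquiv ℤ d P).map (ev z).toRingHom).eval w := by
  induction P using MvPolynomial.induction_on with
  | C a => simp
  | add p q hp hq => simp only [map_add, Polynomial.map_add, Polynomial.eval_add, hp, hq]
  | mul_X p i hp =>
    simp only [map_mul, Polynomial.map_mul, Polynomial.eval_mul, hp]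
    congr 1
    refine Fin.cases ?_ (fun j => ?_) i
    · simp [finSuccEquiv_X_zero]
    · simp [finSuccEquiv_X_succ]

theorem deg_coeff {d : ℕ} (P : ZP (Fin (d + 1))) (i : ℕ) :
    ((finSuccEquiv ℤ d P).coeff i).totalDegree ≤ P.totalDegree := by
  by_cases h : (finSuccEquiv ℤ d P).coeff i = 0
  · simp [h]
  · exact le_trans (Nat.le_add_right _ _) (totalDegree_coeff_finSuccEquiv_add_le P i h)

theorem mahler_prod {ι : Type} (s : Finset ι) (g : ι → Polynomial ℂ) :
    (∏ i ∈ s, g i).mahlerMeasure = ∏ i ∈ s, (g i).mahlerMeasure := by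
  classical
  induction s using Finset.induction_on with
  | empty => simp
  | insert a s ha ih => rw [Finset.prod_insert ha, Finset.prod_insert ha,
      Polynomial.mahlerMeasure_mul, ih]

/-- One point of the torus controls one coefficient of each factor. -/
theorem point (h : SUP1) {ι : Type} [Fintype ι] (e : ι → ℕ) : ∀ (d : ℕ) (P : ι → ZP (Fin d))
    (m : ι → Fin d →₀ ℕ), (∀ i, (P i).totalDegree ≤ e i) →
    ∃ z : Fin d → ℂ, (∀ j, ‖z j‖ = 1) ∧
      ∏ i, (((P i).coeff (m i)).natAbs : ℝ) ≤ (∏ i, (2 : ℝ) ^ e i) ^ d * ∏ i, ‖ev z (P i)‖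
  | 0, P, m, _ => by
    refine ⟨Fin.elim0, fun j => j.elim0, ?_⟩
    rw [pow_zero, one_mul]
    refine le_of_eq (Finset.prod_congr rfl fun i _ => ?_)
    rw [Subsingleton.elim (m i) 0]
    conv_rhs => rw [eq_C_of_isEmpty (P i)]
    simp
  | d + 1, P, m, hP => by
    obtain ⟨z, hz, k⟩ := point h e d (fun i => (finSuccEquiv ℤ d (P i)).coeff (m i 0))
      (fun i => (m i).tail) fun i => (deg_coeff _ _).trans (hP i)
    set g : ι → Polynomial ℂ := fun i => (finSuccEquiv ℤ d (P i)).map (ev z).toRingHom with hg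
    obtain ⟨w, hw, k2⟩ := h (∏ i, g i)
    refine ⟨Fin.cons w z, fun j => Fin.cases hw hz j, ?_⟩
    simp only [finSuccEquiv_coeff_coeff, Finsupp.cons_tail] at k
    refine k.trans ?_
    rw [pow_succ, mul_assoc]
    refine mul_le_mul_of_nonneg_left ?_ (by positivity)
    rw [mahler_prod, Polynomial.eval_prod, norm_prod] at k2
    simp only [ev_cons]
    refine le_trans ?_ (mul_le_mul_of_nonneg_left k2 (by positivity))
    rw [← Finset.prod_mul_distrib]
    refine Finset.prod_le_prod (fun i _ => norm_nonneg _) fun i _ => ?_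
    have e1 : ev z ((finSuccEquiv ℤ d (P i)).coeff (m i 0)) = (g i).coeff (m i 0) := by
      rw [hg, Polynomial.coeff_map]; rfl
    rw [e1]
    refine (Polynomial.norm_coeff_le_choose_mul_mahlerMeasure _ _).trans
      (mul_le_mul_of_nonneg_right ?_ (Polynomial.mahlerMeasure_nonneg _))
    have e2 : (g i).natDegree ≤ e i := by
      refine Polynomial.natDegree_map_le.trans ?_
      rw [natDegree_finSuccEquiv]
      exact (degreeOf_le_totalDegree _ _).trans (hP i)
    exact_mod_cast (Nat.choose_le_two_pow _ _).trans (Nat.pow_le_pow_right (by norm_num) e2)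

theorem card_support {d : ℕ} (P : ZP (Fin d)) : P.support.card ≤ (2 ^ P.totalDegree) ^ d := by
  have : P.support.card ≤
      (Fintype.piFinset fun _ : Fin d => Finset.range (P.totalDegree + 1)).card := by
    refine Finset.card_le_card_of_injOn (fun m => (m : Fin d → ℕ)) (fun m hm => ?_)
      fun a _ b _ k => DFunLike.coe_injective k
    simp only [Finset.mem_coe, Fintype.mem_piFinset, Finset.mem_range]
    exact fun i => Nat.lt_succ_of_le
      ((monomial_le_degreeOf i hm).trans (degreeOf_le_totalDegree _ _))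
  refine this.trans ?_
  simp only [Fintype.card_piFinset, Finset.card_range, Finset.prod_const, Finset.card_univ,
    Fintype.card_fin]
  exact Nat.pow_le_pow_left Nat.lt_two_pow_self _

theorem nu_le {d : ℕ} {P : ZP (Fin d)} (h : P ≠ 0) :
    ∃ m, nu P ≤ (2 ^ P.totalDegree) ^ (d + 1) * (P.coeff m).natAbs := by
  obtain ⟨m, -, hm⟩ := Finset.exists_max_image P.support (fun m => (P.coeff m).natAbs)
    (support_nonempty.2 h)
  refine ⟨m, ?_⟩
  have : nu P ≤ P.support.card • ((P.coeff m).natAbs * 2 ^ P.totalDegree) :=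
    Finset.sum_le_card_nsmul _ _ _ fun a ha => Nat.mul_le_mul (hm a ha)
      (Nat.pow_le_pow_right (by norm_num) (le_totalDegree ha))
  refine this.trans ?_
  rw [smul_eq_mul, pow_succ, mul_assoc, mul_comm (2 ^ P.totalDegree) (P.coeff m).natAbs]
  exact Nat.mul_le_mul_right _ (card_support P)

theorem deg_prod {d : ℕ} {ι : Type} (s : Finset ι) (P : ι → ZP (Fin d)) (h : ∀ i, P i ≠ 0) :
    (∏ i ∈ s, P i).totalDegree = ∑ i ∈ s, (P i).totalDegree := by
  classical
  induction s using Finset.induction_on with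
  | empty => simp
  | insert a s ha ih =>
    rw [Finset.prod_insert ha, Finset.sum_insert ha,
      totalDegree_mul_of_isDomain (h a) (Finset.prod_ne_zero_iff.2 fun i _ => h i), ih]

theorem fin (h : SUP1) {d : ℕ} {ι : Type} [Fintype ι] (P : ι → ZP (Fin d)) (h0 : ∏ i, P i ≠ 0) :
    ∏ i, nu (P i) ≤ nu (∏ i, P i) ^ (4 * d + 4) := by
  have hP : ∀ i, P i ≠ 0 := fun i => Finset.prod_ne_zero_iff.1 h0 i (Finset.mem_univ i)
  choose m hm using fun i => nu_le (hP i)
  obtain ⟨z, hz, k⟩ := point h (fun i => (P i).totalDegree) d P m fun _ => le_rfl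
  have e1 : ∏ i, 2 ^ (P i).totalDegree ≤ nu (∏ i, P i) := by
    rw [Finset.prod_pow_eq_pow_sum, ← deg_prod _ _ hP]
    exact two_pow_totalDegree_le h0
  have e2 : ∏ i, ‖ev z (P i)‖ ≤ nu (∏ i, P i) := by
    rw [← norm_prod, ← map_prod]
    exact norm_ev_le (fun i => (hz i).le) _
  have e3 : ∏ i, ((P i).coeff (m i)).natAbs ≤
      (∏ i, 2 ^ (P i).totalDegree) ^ d * nu (∏ i, P i) := by
    exact_mod_cast k.trans (mul_le_mul_of_nonneg_left e2 (by positivity))
  calc ∏ i, nu (P i)
      ≤ ∏ i, ((2 ^ (P i).totalDegree) ^ (d + 1) * ((P i).coeff (m i)).natAbs) :=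
        Finset.prod_le_prod' fun i _ => hm i
    _ = (∏ i, 2 ^ (P i).totalDegree) ^ (d + 1) * ∏ i, ((P i).coeff (m i)).natAbs := by
        rw [Finset.prod_mul_distrib, Finset.prod_pow]
    _ ≤ nu (∏ i, P i) ^ (d + 1) * (nu (∏ i, P i) ^ d * nu (∏ i, P i)) :=
        Nat.mul_le_mul (Nat.pow_le_pow_left e1 _)
          (e3.trans (Nat.mul_le_mul_right _ (Nat.pow_le_pow_left e1 _)))
    _ = nu (∏ i, P i) ^ (2 * d + 2) := by ring
    _ ≤ _ := Nat.pow_le_pow_right (nu_pos h0) (by omega)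

end GelR

theorem gel (h : SUP1) : GEL := by
  intro d s hs
  obtain ⟨l, rfl⟩ := Quot.exists_rep s
  have e : l = List.ofFn l.get := (List.ofFn_get l).symm
  generalize l.get = f at e
  rw [e] at hs ⊢
  simp only [Multiset.quot_mk_to_coe'', Multiset.prod_coe, Multiset.map_coe, List.map_ofFn,
    List.prod_ofFn] at hs ⊢
  exact GelR.fin h f hs

end Pool.Agent.MP_5daf37_lc.FC

end MrgPart4

-- ======== part 5: formerly Pool.Agent.MP_5daf37_lc.FC.Hens
section MrgPart5

/-!
A root of a specialized integer polynomial lifts to a power series root along the universal line.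
-/

open Polynomial

namespace Pool.Agent.MP_5daf37_lc.FC

namespace Hens

variable {σ : Type}

theorem eq_zero_of_deg {g : ℂ[X]} {c : ℂ} (h : g.natDegree = 0) (hc : g.eval c = 0) : g = 0 := by
  rw [eq_C_of_natDegree_eq_zero h] at hc ⊢
  rw [eval_C] at hc
  rw [hc, C_0]

theorem nu_deriv (G : ZP (Option σ)) (n : ℕ) (h : (toP G).natDegree ≤ n + 1) :
    nu (ofP (derivative (toP G))) ≤ nu G * (n + 1) := by
  have hs : (derivative (toP G)).support ⊆ Finset.range (n + 1) := fun i hi => by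
    have h1 := le_natDegree_of_mem_supp i hi
    have h2 := natDegree_derivative_le (toP G)
    exact Finset.mem_range.2 (by omega)
  refine (nu_ofP_le _ hs).trans ?_
  have h1 := sum_coeff_le_nu G (Finset.range (n + 2))
  rw [Finset.sum_range_succ'] at h1
  refine le_trans ?_ (Nat.mul_le_mul_right _ ((Nat.le_add_right _ _).trans h1))
  rw [Finset.sum_mul]
  refine Finset.sum_le_sum fun i hi => ?_
  have hi' : i + 1 ≤ n + 1 := Finset.mem_range.1 hi
  have h2 : nu ((derivative (toP G)).coeff i) ≤ nu ((toP G).coeff (i + 1)) * (n + 1) := by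
    rw [coeff_derivative]
    refine (nu_mul _ _).trans (Nat.mul_le_mul_left _ ?_)
    have := nu_natCast (σ := σ) (i + 1)
    push_cast at this
    rw [this]; exact hi'
  calc nu ((derivative (toP G)).coeff i) * 2 ^ i
      ≤ nu ((toP G).coeff (i + 1)) * (n + 1) * 2 ^ (i + 1) :=
        Nat.mul_le_mul h2 (Nat.pow_le_pow_right two_pos (Nat.le_succ i))
    _ = nu ((toP G).coeff (i + 1)) * 2 ^ (i + 1) * (n + 1) := by ring

theorem simple (y : σ → ℂ) (c : ℂ) (M : ℕ) (hM : 1 ≤ M) : ∀ (n : ℕ) (G : ZP (Option σ)),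
    (toP G).natDegree ≤ n → n ≤ M → evX y G ≠ 0 → (evX y G).eval c = 0 →
    ∃ G₁ : ZP (Option σ), nu G₁ ≤ nu G * M ^ n ∧ (evX y G₁).eval c = 0 ∧
      (derivative (evX y G₁)).eval c ≠ 0 := by
  intro n
  induction n with
  | zero =>
    intro G hd _ h0 hc
    refine absurd (eq_zero_of_deg ?_ hc) h0
    rw [evX_eq]
    exact Nat.le_zero.1 (natDegree_map_le.trans hd)
  | succ n ih =>
    intro G hd hn h0 hc
    by_cases h : (derivative (evX y G)).eval c = 0
    · have e : evX y (ofP (derivative (toP G))) = derivative (evX y G) := by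
        rw [evX_eq, evX_eq, derivative_map]
        simp
      have h1 : evX y (ofP (derivative (toP G))) ≠ 0 := by
        rw [e]
        exact fun h2 => h0 (eq_zero_of_deg (derivative_eq_zero.1 h2) hc)
      have h2 : (toP (ofP (derivative (toP G)))).natDegree ≤ n := by
        have := natDegree_derivative_le (toP G)
        simp only [AlgEquiv.apply_symm_apply]
        omega
      obtain ⟨G₁, a, b⟩ := ih _ h2 (by omega) h1 (by rw [e]; exact h)
      refine ⟨G₁, a.trans ?_, b⟩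
      calc nu (ofP (derivative (toP G))) * M ^ n ≤ nu G * M * M ^ n :=
            Nat.mul_le_mul_right _ ((nu_deriv G n hd).trans (Nat.mul_le_mul_left _ hn))
        _ = nu G * M ^ (n + 1) := by ring
    · exact ⟨G, Nat.le_mul_of_pos_right _ (by positivity), hc, h⟩

theorem trunc (y : σ → ℂ) (G : ZP (Option σ)) : ∃ G₂ : ZP (Option σ), nu G₂ ≤ nu G ∧
    evX y G₂ = evX y G ∧ (toP G₂).natDegree ≤ (evX y G).natDegree := by
  set D := (evX y G).natDegree
  let p : (ZP σ)[X] := ∑ i ∈ Finset.range (D + 1), monomial i ((toP G).coeff i)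
  have hp : ∀ j, p.coeff j = if j ≤ D then (toP G).coeff j else 0 := fun j => by
    simp [p, coeff_monomial]
  have e : toP (ofP p) = p := AlgEquiv.apply_symm_apply _ _
  refine ⟨ofP p, ?_, ?_, ?_⟩
  · refine (nu_ofP_le p (s := Finset.range (D + 1)) fun j hj => ?_).trans
      (le_trans (Finset.sum_le_sum fun j hj => ?_) (sum_coeff_le_nu G (Finset.range (D + 1))))
    · rw [mem_support_iff, hp] at hj
      exact Finset.mem_range.2 (by by_contra h; exact hj (if_neg (by omega)))
    · rw [hp, if_pos (Nat.lt_succ_iff.1 (Finset.mem_range.1 hj))]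
  · ext j
    rw [coeff_evX, e, hp]
    split_ifs with h
    · rw [coeff_evX]
    · rw [map_zero, coeff_eq_zero_of_natDegree_lt (not_le.1 h)]
  · rw [e]
    exact natDegree_le_iff_coeff_eq_zero.2 fun j hj => by rw [hp, if_neg (by omega)]

theorem lift {R : Type} [CommRing R] (F : (PowerSeries R)[X]) (D : ℕ) (a : R)
    (hD : F.natDegree ≤ D) (hu : IsUnit (PowerSeries.constantCoeff (F.coeff D)))
    (h0 : (F.map (PowerSeries.constantCoeff (R := R))).eval a = 0)
    (h1 : IsUnit ((derivative (F.map (PowerSeries.constantCoeff (R := R)))).eval a)) :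
    ∃ ζ : PowerSeries R, F.eval ζ = 0 ∧ PowerSeries.constantCoeff ζ = a := by
  obtain ⟨u, hu'⟩ := PowerSeries.isUnit_iff_constantCoeff.2 hu
  have hev : ∀ Q : (PowerSeries R)[X], PowerSeries.constantCoeff (Q.eval (PowerSeries.C a)) =
      (Q.map (PowerSeries.constantCoeff (R := R))).eval a := fun Q => by
    rw [eval_map, ← eval₂_at_apply, PowerSeries.constantCoeff_C]
  have hm : (C (↑u⁻¹ : PowerSeries R) * F).Monic :=
    monic_of_natDegree_le_of_coeff_eq_one D ((natDegree_C_mul_le _ _).trans hD)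
      (by rw [coeff_C_mul, ← hu', Units.inv_mul])
  obtain ⟨ζ, hζ, hζ'⟩ := HenselianRing.is_henselian
    (I := Ideal.span {(PowerSeries.X : PowerSeries R)}) _ hm (PowerSeries.C a)
    (by
      rw [Ideal.mem_span_singleton, PowerSeries.X_dvd_iff, eval_mul, map_mul, hev F, h0, mul_zero])
    (by
      refine IsUnit.map _ ?_
      rw [derivative_C_mul, eval_mul, eval_C]
      refine (Units.isUnit _).mul (PowerSeries.isUnit_iff_constantCoeff.2 ?_)
      rw [hev, ← derivative_map]
      exact h1)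
  refine ⟨ζ, ?_, ?_⟩
  · rw [IsRoot.def, eval_mul, eval_C] at hζ
    exact (Units.mul_right_eq_zero _).1 hζ
  · rw [Ideal.mem_span_singleton, PowerSeries.X_dvd_iff, map_sub, PowerSeries.constantCoeff_C]
      at hζ'
    exact sub_eq_zero.1 hζ'

end Hens

theorem hens : HENS := by
  intro σ y c G B hB h0 hc
  obtain ⟨G₁, a₁, b₁, c₁⟩ := Hens.simple y c (2 ^ B) Nat.one_le_two_pow B G (natDegree_toP_le hB)
    Nat.lt_two_pow_self.le h0 hc
  obtain ⟨G₂, a₂, b₂, c₂⟩ := Hens.trunc y G₁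
  have hne : evX y G₁ ≠ 0 := fun h => c₁ (by rw [h]; simp)
  have hmap : (evX (arcS y) G₂).map (PowerSeries.constantCoeff (R := MvPolynomial σ ℂ)) =
      (evX y G₁).map (MvPolynomial.C : ℂ →+* MvPolynomial σ ℂ) := by
    rw [← b₂, map_evX, map_evX]
    simp only [constantCoeff_arcS]
  have hunit : ∀ z : ℂ, z ≠ 0 → IsUnit (MvPolynomial.C z : MvPolynomial σ ℂ) := fun z hz =>
    (IsUnit.mk0 z hz).map _
  have hev : ∀ Q : ℂ[X], (Q.map (MvPolynomial.C : ℂ →+* MvPolynomial σ ℂ)).eval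
      (MvPolynomial.C c) = MvPolynomial.C (Q.eval c) := fun Q => by
    rw [eval_map, eval₂_at_apply]
  obtain ⟨ζ, hζ, hζ'⟩ := Hens.lift (evX (arcS y) G₂) (evX y G₁).natDegree (MvPolynomial.C c)
    (by rw [evX_eq]; exact natDegree_map_le.trans c₂)
    (by
      rw [← coeff_map, hmap, coeff_map]
      exact hunit _ (leadingCoeff_ne_zero.2 hne))
    (by rw [hmap, hev, b₁, map_zero])
    (by rw [hmap, derivative_map, hev]; exact hunit _ c₁)
  refine ⟨G₂, ζ, a₂.trans (a₁.trans ?_), fun h => ?_, hζ, hζ'⟩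
  · calc nu G * (2 ^ B) ^ B ≤ 2 ^ B * (2 ^ B) ^ B := Nat.mul_le_mul_right _ hB
      _ = 2 ^ (B ^ 2 + B) := by rw [← pow_mul, ← pow_add]; congr 1; ring
  · rw [h, Polynomial.map_zero] at hmap
    exact hne ((Polynomial.map_eq_zero_iff (MvPolynomial.C_injective σ ℂ)).1 hmap.symm)

end Pool.Agent.MP_5daf37_lc.FC

end MrgPart5

-- ======== part 6: formerly Pool.Agent.MP_5daf37_lc.FC.Norm
section MrgPart6

/-!
The norm of a polynomial in algebraic quantities, by repeated elimination.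
-/

open Matrix MvPolynomial

namespace Pool.Agent.MP_5daf37_lc.FC

namespace Nrm

/-- The first algebraic quantity becomes the variable that is eliminated. -/
def sh {σ : Type} {k : ℕ} : σ ⊕ Fin (k + 1) → Option (σ ⊕ Fin k) :=
  Sum.elim (fun i => some (Sum.inl i)) (Fin.cases none fun j => some (Sum.inr j))

theorem evX_rename {σ τ S : Type} [CommRing S] (f : τ → S) (g : σ → τ) (P : ZP (Option σ)) :
    evX f (rename (Option.map g) P) = evX (fun i => f (g i)) P := by
  have h : (fun o : Option σ => (Option.map g o).elim Polynomial.X fun t => Polynomial.C (f t)) =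
      fun o : Option σ => o.elim (Polynomial.X : Polynomial S) fun t => Polynomial.C (f (g t)) := by
    funext o
    cases o <;> rfl
  exact (ev_rename (fun o : Option τ => o.elim Polynomial.X fun t => Polynomial.C (f t))
    (Option.map g) P).trans (congrArg (fun w => ev w P) h)

theorem aux (hE : ELIM) (σ S : Type) [CommRing S] [IsDomain S] [CharZero S] (u : σ → S) (a : ℕ)
    (ha : 1 ≤ a) (k : ℕ) : ∀ (ζ : Fin k → S) (G : Fin k → ZP (Option σ)) (D : ZP (σ ⊕ Fin k))
    (b : ℕ), 1 ≤ b →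
    (∀ j, nu (G j) ≤ 2 ^ a ∧ evX u (G j) ≠ 0 ∧ (evX u (G j)).eval (ζ j) = 0) → nu D ≤ 2 ^ b →
    ev (Sum.elim u ζ) D ≠ 0 → ∃ D' : ZP σ, ev u D' ≠ 0 ∧ ev (Sum.elim u ζ) D ∣ ev u D' ∧
      nu D' ≤ 2 ^ ((3 * a) ^ k * b) := by
  induction k with
  | zero =>
    intro ζ G D b _ _ hD h0
    have h1 : (fun i : σ ⊕ Fin 0 => u (Sum.elim id Fin.elim0 i)) = Sum.elim u ζ := by
      funext i
      rcases i with i | i
      · rfl
      · exact i.elim0
    have h2 : ev u (rename (Sum.elim id Fin.elim0) D) = ev (Sum.elim u ζ) D := by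
      rw [ev_rename, h1]
    refine ⟨rename (Sum.elim id Fin.elim0) D, h2 ▸ h0, h2 ▸ dvd_rfl, ?_⟩
    rw [pow_zero, one_mul]
    exact (nu_rename_le _ _).trans hD
  | succ k ih =>
    intro ζ G D b hb hG hD h0
    have h1 : evX (Sum.elim u fun j : Fin k => ζ j.succ) (rename (Option.map Sum.inl) (G 0)) =
        evX u (G 0) := evX_rename _ _ _
    have h2 : (fun i : σ ⊕ Fin (k + 1) =>
        (sh i).elim (ζ 0) (Sum.elim u fun j : Fin k => ζ j.succ)) = Sum.elim u ζ := by
      funext i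
      rcases i with i | i
      · rfl
      · exact Fin.cases rfl (fun _ => rfl) i
    have h3 : (evX (Sum.elim u fun j : Fin k => ζ j.succ) (rename sh D)).eval (ζ 0) =
        ev (Sum.elim u ζ) D := by
      rw [eval_evX, ev_rename, h2]
    obtain ⟨D₁, d1, d2, d3⟩ := hE (σ ⊕ Fin k) S (Sum.elim u fun j : Fin k => ζ j.succ) (ζ 0)
      (rename (Option.map Sum.inl) (G 0)) (rename sh D) a b ha hb
      ((nu_rename_le _ _).trans (hG 0).1) ((nu_rename_le _ _).trans hD) (h1 ▸ (hG 0).2.1)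
      (h1 ▸ (hG 0).2.2) (h3 ▸ h0)
    obtain ⟨D', e1, e2, e3⟩ := ih (fun j => ζ j.succ) (fun j => G j.succ) D₁ (3 * a * b)
      (Nat.mul_pos (by omega) hb) (fun j => hG j.succ) d3 d1
    refine ⟨D', e1, (h3 ▸ d2).trans e2, ?_⟩
    rw [pow_succ, mul_assoc]
    exact e3

end Nrm

theorem nrm (hE : ELIM) : NORM := by
  intro k σ S _ _ _ u ζ G D a b ha hb hG hD h0
  have h1 : ev (Sum.elim u ζ) (rename Sum.inr D) = ev ζ D := ev_rename _ _ _
  obtain ⟨D', e1, e2, e3⟩ := Nrm.aux hE σ S u a ha k ζ G (rename Sum.inr D) b hb hG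
    ((nu_rename_le _ _).trans hD) (h1 ▸ h0)
  exact ⟨D', e1, h1 ▸ e2, e3⟩

end Pool.Agent.MP_5daf37_lc.FC

end MrgPart6

-- ======== part 7: formerly Pool.Agent.MP_5daf37_lc.FC.Res
section MrgPart7

/-!
A multiple point of an irreducible polynomial descends to the discriminant.
-/

open Matrix Polynomial

namespace Pool.Agent.MP_5daf37_lc.FC

namespace Res

variable {S τ : Type} [CommRing S]

theorem prod_dvd_det {ι : Type} [Fintype ι] [DecidableEq ι] (v : ι → S) (M : Matrix ι ι S)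
    (h : ∀ i j, v i ∣ M i j) : ∏ i, v i ∣ M.det := by
  choose N hN using h
  have e : M = of fun i j => v i * (of N) i j := by ext i j; exact hN i j
  rw [e, det_mul_column]
  exact dvd_mul_right _ _

theorem pow_dvd_res (ε : S) (r : ℕ) (f g : S[X]) (hf : ∀ l, ε ^ (r - l) ∣ f.coeff l)
    (hg : ∀ l, ε ^ (r - l) ∣ g.coeff l) (m n : ℕ) :
    ε ^ (∑ i ∈ Finset.range (m + n), (r - i)) ∣ resultant f g m n := by
  rw [← Finset.prod_pow_eq_pow_sum, ← Fin.prod_univ_eq_prod_range (fun i => ε ^ (r - i))]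
  refine prod_dvd_det _ _ fun i j => ?_
  induction j using Fin.addCases with
  | left j =>
    simp only [sylvester, of_apply, Fin.addCases_left]
    split_ifs
    · exact (pow_dvd_pow ε (by omega)).trans (hg _)
    · exact dvd_zero _
  | right j =>
    simp only [sylvester, of_apply, Fin.addCases_right]
    split_ifs
    · exact (pow_dvd_pow ε (by omega)).trans (hf _)
    · exact dvd_zero _

theorem sum_ge {r N : ℕ} (h : r + 1 ≤ N) : (r + 1) * r ≤ (∑ i ∈ Finset.range N, (r - i)) * 2 := by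
  have h1 := Finset.sum_range_id_mul_two (r + 1)
  have h2 := Finset.sum_range_reflect (fun i => i) (r + 1)
  simp only [Nat.add_sub_cancel] at h1 h2
  rw [← h1, ← h2]
  exact Nat.mul_le_mul_right _ (Finset.sum_le_sum_of_subset (Finset.range_mono h))

theorem col_le {g : (ZP τ)[X]} {K : ℕ} (hg : ∀ s : Finset ℕ, ∑ i ∈ s, nu (g.coeff i) ≤ K)
    (N j n : ℕ) : ∑ i : Fin N, nu (if (i : ℕ) ∈ Set.Icc j (j + n) then g.coeff (i - j) else 0) ≤
      K := by
  have e : ∀ i : Fin N, nu (if (i : ℕ) ∈ Set.Icc j (j + n) then g.coeff (i - j) else 0) =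
      if (i : ℕ) ∈ Set.Icc j (j + n) then nu (g.coeff (i - j)) else 0 := fun i => by
    split_ifs <;> simp
  simp only [e]
  rw [← Finset.sum_filter, ← Finset.sum_image (g := fun i : Fin N => (i : ℕ) - j)
    (f := fun l => nu (g.coeff l))]
  · exact hg _
  · intro a ha b hb k
    have h1 := (Finset.mem_filter.1 (Finset.mem_coe.1 ha)).2.1
    have h2 := (Finset.mem_filter.1 (Finset.mem_coe.1 hb)).2.1
    exact Fin.ext (by simp only at k; omega)

theorem nu_res {f g : (ZP τ)[X]} {K : ℕ} (hf : ∀ s : Finset ℕ, ∑ i ∈ s, nu (f.coeff i) ≤ K)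
    (hg : ∀ s : Finset ℕ, ∑ i ∈ s, nu (g.coeff i) ≤ K) (m n : ℕ) :
    nu (resultant f g m n) ≤ K ^ (m + n) := by
  refine (nu_det_col _).trans ((Finset.prod_le_pow_card _ _ K fun j _ => ?_).trans (by simp))
  induction j using Fin.addCases with
  | left j =>
    simp only [sylvester, of_apply, Fin.addCases_left]
    exact col_le hg _ _ _
  | right j =>
    simp only [sylvester, of_apply, Fin.addCases_right]
    exact col_le hf _ _ _

theorem sum_deriv (P : ZP (Option τ)) (s : Finset ℕ) :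
    ∑ i ∈ s, nu ((derivative (toP P)).coeff i) ≤ nu P := by
  refine le_trans ?_ (sum_coeff_le_nu P (s.image Nat.succ))
  rw [Finset.sum_image fun _ _ _ _ h => Nat.succ_injective h]
  refine Finset.sum_le_sum fun i _ => ?_
  rw [coeff_derivative]
  refine (nu_mul _ _).trans (Nat.mul_le_mul_left _ ?_)
  rw [← Nat.cast_succ, nu_natCast]
  exact Nat.lt_two_pow_self.le

theorem res_ne {p : (ZP τ)[X]} (hp : Irreducible p) (h : p.natDegree ≠ 0) :
    resultant p (derivative p) ≠ 0 := by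
  let K := FractionRing (ZP τ)
  have hi := IsFractionRing.injective (ZP τ) K
  have h1 := ((hp.isPrimitive h).irreducible_iff_irreducible_map_fraction_map (K := K)).1 hp
  have h2 := resultant_ne_zero _ _ h1.separable
  rw [derivative_map, natDegree_map_eq_of_injective hi, natDegree_map_eq_of_injective hi,
    resultant_map_map] at h2
  exact fun e => h2 (by rw [e, map_zero])

theorem res_taylor (f g : S[X]) (r : S) (k : ℕ) :
    resultant (taylor r f) (taylor r g) f.natDegree (g.natDegree + k) =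
      resultant f g f.natDegree (g.natDegree + k) := by
  have h := resultant_taylor f g r
  rw [natDegree_taylor, natDegree_taylor] at h
  rw [resultant_add_right_deg _ _ _ _ _ (natDegree_taylor g r).le,
    resultant_add_right_deg _ _ _ _ _ le_rfl, h, coeff_taylor_natDegree]
  rfl

theorem derivative_taylor (f : S[X]) (r : S) :
    derivative (taylor r f) = taylor r (derivative f) := by
  simp [taylor_apply, derivative_comp]

/-- The Taylor coefficients at a multiple point. -/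
theorem coeff_dvd {y : Option τ → ℂ} {P : ZP (Option τ)} {ρ : ℕ} (h : Ord y ρ P) (l : ℕ) :
    (X : (MvPolynomial τ ℂ)[X]) ^ (ρ - l) ∣ (taylor (C (MvPolynomial.C (y none)))
      (evX (arc fun i => y (some i)) P)).coeff l := by
  have h1 := h.univ (S := (MvPolynomial τ ℂ)[X][X]) (C.comp (C.comp MvPolynomial.C)) (C X)
    (fun o : Option τ => o.elim (C X * X + C (C (MvPolynomial.C (y none))))
      fun i => C (arc (fun i => y (some i)) i)) (by
      rintro (_ | i)
      · refine ⟨X, ?_⟩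
        simp only [Option.elim, RingHom.comp_apply]
        ring
      · refine ⟨C (C (MvPolynomial.X i)), ?_⟩
        simp only [arc, Option.elim, RingHom.comp_apply, map_add, map_mul]
        ring)
  rw [← eval_evX, ← map_evX, ← eval₂_eq_eval_map] at h1
  generalize evX (arc fun i => y (some i)) P = p at h1 ⊢
  have e : eval₂ C (C X * X + C (C (MvPolynomial.C (y none)))) p =
      (taylor (C (MvPolynomial.C (y none))) p).comp (C X * X) := by
    rw [taylor_apply, comp_assoc]
    simp [Polynomial.comp]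
  rw [e, ← C_pow, C_dvd_iff_dvd_coeff] at h1
  have h2 := h1 l
  rw [comp_C_mul_X_coeff] at h2
  rcases le_total ρ l with c | c
  · simp [Nat.sub_eq_zero_of_le c]
  · rw [← Nat.sub_add_cancel c, pow_add] at h2
    exact (mul_dvd_mul_iff_right (pow_ne_zero _ X_ne_zero)).1 h2

end Res

open Res in
theorem res : RES := by
  intro τ y P B ρ hP hB hρ hO hn
  by_cases h0 : (toP P).natDegree = 0
  · have e : P = MvPolynomial.rename some ((toP P).coeff 0) := by
      rw [← ofP_C, ← eq_C_of_natDegree_eq_zero h0, ofP_toP]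
    refine ⟨(toP P).coeff 0, ρ, fun k => hP.ne_zero (by rw [e, k, map_zero]), by omega, ?_, ?_⟩
    · have := hO.univ (S := (MvPolynomial τ ℂ)[X]) (C.comp MvPolynomial.C) X
        (fun o : Option τ => o.elim (C (MvPolynomial.C (y none))) (arc fun i => y (some i))) (by
          rintro (_ | i)
          · simp
          · simp [arc])
      rw [e, ev_rename] at this
      exact this
    · have h1 := nu_coeff_le P 0
      have h2 : 2 ^ (B * ρ) ≤ 2 ^ (16 * B ^ 2 * ρ) :=
        Nat.pow_le_pow_right two_pos (Nat.mul_le_mul_right _ (by nlinarith))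
      omega
  obtain ⟨r, rfl⟩ : ∃ r, ρ = r + 1 := ⟨ρ - 1, by omega⟩
  have hp : Irreducible (toP P) := (MulEquiv.irreducible_iff _).2 hP
  have hm := natDegree_toP_le hn
  have hm' := natDegree_derivative_le (toP P)
  have ht := sum_ge (r := r) (N := (toP P).natDegree + ((derivative (toP P)).natDegree + (r + 1)))
    (by omega)
  refine ⟨resultant (toP P) (derivative (toP P)) (toP P).natDegree
    ((derivative (toP P)).natDegree + (r + 1)), ∑ i ∈ Finset.range ((toP P).natDegree +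
      ((derivative (toP P)).natDegree + (r + 1))), (r - i), ?_, by nlinarith, ?_, ?_⟩
  · rw [resultant_add_right_deg _ _ _ _ _ le_rfl]
    exact mul_ne_zero (pow_ne_zero _ (leadingCoeff_ne_zero.2 hp.ne_zero)) (res_ne hp h0)
  · have hi : Function.Injective (ev (arc fun i => y (some i))).toRingHom := arc_injective _
    have h1 := coeff_dvd hO
    rw [evX_eq] at h1
    have h2 := pow_dvd_res X r _ (derivative _)
      (fun l => (pow_dvd_pow _ (by omega)).trans (h1 l))
      (fun l => by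
        rw [coeff_derivative]
        exact Dvd.dvd.mul_right (by simpa using h1 (l + 1)) _)
      (toP P).natDegree ((derivative (toP P)).natDegree + (r + 1))
    have h3 := res_taylor ((toP P).map (ev (arc fun i => y (some i))).toRingHom)
      ((derivative (toP P)).map (ev (arc fun i => y (some i))).toRingHom)
      (C (MvPolynomial.C (y none))) (r + 1)
    rw [natDegree_map_eq_of_injective hi, natDegree_map_eq_of_injective hi, resultant_map_map] at h3
    rw [derivative_taylor, derivative_map] at h2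
    exact h2.trans (dvd_of_eq h3)
  · refine (nu_res (fun s => (sum_nu_coeff_le P s).trans hn) (fun s => (sum_deriv P s).trans hn)
      _ _).trans ?_
    rw [← pow_mul]
    refine Nat.pow_le_pow_right two_pos ?_
    generalize ∑ i ∈ Finset.range ((toP P).natDegree +
      ((derivative (toP P)).natDegree + (r + 1))), (r - i) = t at ht
    have h1 : r + 1 ≤ B * (r + 1) := Nat.le_mul_of_pos_left _ hB
    have h2 : (r + 1) * (r + 1) ≤ 4 * t := by nlinarith
    calc B * (r + 1) * ((toP P).natDegree + ((derivative (toP P)).natDegree + (r + 1)))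
        ≤ B * (r + 1) * (4 * (B * (r + 1))) := Nat.mul_le_mul_left _ (by omega)
      _ = 4 * B ^ 2 * ((r + 1) * (r + 1)) := by ring
      _ ≤ 4 * B ^ 2 * (4 * t) := Nat.mul_le_mul_left _ h2
      _ = 16 * B ^ 2 * t := by ring

end Pool.Agent.MP_5daf37_lc.FC

end MrgPart7

-- ======== part 8: formerly Pool.Agent.MP_5daf37_lc.FC.Trans
section MrgPart8

/-!
A relation between the parameters lowers their number.
-/

open MvPolynomial

namespace Pool.Agent.MP_5daf37_lc.FC

namespace Trans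

theorem elim_succ {d : ℕ} {S : Type} (y : Fin (d + 1) → S) (i l : Fin (d + 1)) :
    (finSuccEquiv' i l).elim (y i) (fun t => y (i.succAbove t)) = y l := by
  rcases Fin.eq_self_or_eq_succAbove i l with rfl | ⟨t, rfl⟩
  · rw [finSuccEquiv'_at]; rfl
  · rw [finSuccEquiv'_succAbove]; rfl

/-- A pivot: one coordinate is a root of a small polynomial over the other coordinates. -/
theorem piv {d : ℕ} (y : Fin (d + 1) → ℂ) (N : ℕ) : ∀ P : ZP (Fin (d + 1)), nu P ≤ N → P ≠ 0 →
    ev y P = 0 → ∃ (i : Fin (d + 1)) (p : ZP (Option (Fin d))), nu p ≤ N ∧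
      evX (fun t => y (i.succAbove t)) p ≠ 0 ∧
      (evX (fun t => y (i.succAbove t)) p).eval (y i) = 0 := by
  induction N with
  | zero => exact fun P h h0 _ => absurd (nu_pos h0) (by omega)
  | succ N ih =>
    intro P hN h0 hy
    obtain ⟨i, hi⟩ : P.vars.Nonempty := by
      rw [Finset.nonempty_iff_ne_empty]
      intro c
      rw [vars_eq_empty_iff_eq_C] at c
      rw [c, aeval_C] at hy
      exact h0 (by rw [c, show P.coeff 0 = 0 by simpa using hy, map_zero])
    let p : ZP (Option (Fin d)) := rename (finSuccEquiv' i) P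
    have hp : nu p ≤ N + 1 := (nu_rename_le _ _).trans hN
    have hd : (toP p).natDegree ≠ 0 := by
      rw [natDegree_optionEquivLeft, ← finSuccEquiv'_at i,
        degreeOf_rename_of_injective (finSuccEquiv' i).injective]
      exact mem_vars_iff_degreeOf_ne_zero.1 hi
    by_cases c : evX (fun t => y (i.succAbove t)) p = 0
    · have hl : (toP p).coeff (toP p).natDegree ≠ 0 := fun e =>
        hd (by rw [Polynomial.leadingCoeff_eq_zero.1 e, Polynomial.natDegree_zero])
      have h1 := nu_coeff_le p (toP p).natDegree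
      have h2 := nu_pos hl
      have h3 := Nat.mul_le_mul_left (nu ((toP p).coeff (toP p).natDegree))
        (Nat.one_lt_two_pow hd : 2 ≤ _)
      obtain ⟨j, q, q1, q2⟩ := ih (rename i.succAbove ((toP p).coeff (toP p).natDegree))
        ((nu_rename_le _ _).trans (by omega))
        (fun e => hl (rename_injective _ Fin.succAbove_right_injective (by rw [e, map_zero])))
        (by rw [ev_rename, ← coeff_evX, c, Polynomial.coeff_zero])
      exact ⟨j, q, q1.trans (Nat.le_succ N), q2⟩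
    · refine ⟨i, p, hp, c, ?_⟩
      rw [eval_evX, ev_rename, ← hy]
      simp only [elim_succ]

/-- The variable `some i` becomes the new main variable. -/
def sw {d : ℕ} (i : Fin (d + 1)) : Option (Fin (d + 1)) → Option (Option (Fin d))
  | none => some none
  | some l => (finSuccEquiv' i l).map some

end Trans

theorem trans (hE : ELIM) : TRANS := by
  intro d k a B c y G P ha hB hS h0 hy hP
  obtain ⟨i, p, p1, p2, p3⟩ := Trans.piv y _ P hP h0 hy
  let f : Option (Fin d) → Polynomial ℂ := fun o =>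
    o.elim Polynomial.X fun t => Polynomial.C (y (i.succAbove t))
  have e1 : evX f (rename (Option.map some) p) =
      (evX (fun t => y (i.succAbove t)) p).map Polynomial.C := by
    rw [map_evX]
    refine (ev_rename _ _ _).trans ?_
    congr 2
    funext o
    cases o <;> rfl
  have e2 : ∀ j, (evX f (rename (Trans.sw i) (G j))).eval (Polynomial.C (y i)) = evX y (G j) := by
    intro j
    rw [eval_evX, ev_rename]
    congr 2
    funext o
    cases o with
    | none => rfl
    | some l =>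
      change ((finSuccEquiv' i l).map some).elim _ f = Polynomial.C (y l)
      rw [← Trans.elim_succ y i l]
      cases finSuccEquiv' i l <;> rfl
  have key : ∀ j, ∃ G' : ZP (Option (Fin d)), nu G' ≤ 2 ^ (3 * a * B) ∧
      evX (fun t => y (i.succAbove t)) G' ≠ 0 ∧
      (evX (fun t => y (i.succAbove t)) G').eval (c j) = 0 := by
    intro j
    obtain ⟨G', g1, g2, g3⟩ := hE (Option (Fin d)) (Polynomial ℂ) f (Polynomial.C (y i))
      (rename (Option.map some) p) (rename (Trans.sw i) (G j)) a B ha hB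
      ((nu_rename_le _ _).trans p1) ((nu_rename_le _ _).trans (hS j).1)
      (by rw [e1]; exact (Polynomial.map_ne_zero_iff Polynomial.C_injective).2 p2)
      (by rw [e1, Polynomial.eval_map, Polynomial.eval₂_at_apply, p3, map_zero])
      (by rw [e2]; exact (hS j).2.1)
    rw [e2] at g2
    exact ⟨G', g3, g1, Polynomial.eval_eq_zero_of_dvd_of_eval_eq_zero g2 (hS j).2.2⟩
  choose G' hG' using key
  exact ⟨_, G', hG'⟩

end Pool.Agent.MP_5daf37_lc.FC

end MrgPart8

-- ======== part 9: formerly Pool.Agent.MP_5daf37_lc.FC.All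
section MrgPart9

/-!
Circuits with few distinct scalars: all the steps together.
-/

namespace Pool.Agent.MP_5daf37_lc.FC

theorem few_scalars (F : Type) [Field F] [Algebra F ℂ] (k n p q : ℕ) (C : Circuit F n p q)
    (T : Finset F) (hT : T.card ≤ k) (hh : 64 * {e | C.weight e ∉ T}.ncard ≤ n)
    (hC : C.Computes (Matrix.of fun i j : Fin n => ∏ l ∈ Finset.range n,
      if (i : ℕ).testBit l ∧ (j : ℕ).testBit l then (-1 : F) else 1)) :
    (n : ℝ) * ((Nat.log 2 n : ℝ) ^ ((1 : ℝ) / 8 ^ (k + 1) ^ 2) / (192 * (k + 1)) - 1) ≤ p + q :=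
  main (step hens (nrm elim) (kl (gel sup1) res)
    (caseb (intg ord) (root supz) (arch ord sup1) binom smith)) (trans elim) circ0 circ1 circ2 circ3
    F k n p q C T hT hh hC

end Pool.Agent.MP_5daf37_lc.FC

end MrgPart9

-- ======== part 10: formerly Pool.Agent.MP_5daf37_lc.FC.Rz4
section MrgPart10

/-!
The descent on the number of parameters, for realizations.
-/

open Matrix

namespace Pool.Agent.MP_5daf37_lc.FC.Rz

variable {k L s : ℕ} {ν : Type} [Fintype ν] [DecidableEq ν] (Z : Rz k L ν s)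

theorem step {d g B : ℕ} {c : Fin k → ℂ} {y : Fin d → ℂ} {G : Fin k → ZP (Option (Fin d))}
    {N₀ : Matrix ν ν ℂ} (hN₀ : Z.M.map (ev c) * N₀ = 1) (hs : s ≤ g * 2 ^ L) (hg : 1 ≤ g)
    (hB1 : 1 ≤ B) (hr : 32 * (Z.tr N₀ - Hm L ℂ).rank ≤ 2 ^ L) (hG : St B c y G) :
    L ≤ (72 * g * (k + 1) * (B ^ 2 + B)) ^ 2 ∨ ∃ P : ZP (Fin d), P ≠ 0 ∧ ev y P = 0 ∧
      nu P ≤ 2 ^ (256 * (d + 1) ^ 2 * (16 * (2 * g + 1) * (3 * (B ^ 2 + B)) ^ k)) ^ 2 ^ d := by
  by_cases hL : L < 5
  · left
    have : 72 * 1 * 1 * 1 ≤ 72 * g * (k + 1) * (B ^ 2 + B) := by gcongr <;> omega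
    nlinarith
  obtain ⟨n, hn⟩ : ∃ n, 2 ^ L = 32 * n := ⟨2 ^ (L - 5), by
    rw [show 32 = 2 ^ 5 from rfl, ← pow_add]; congr 1; omega⟩
  have hn1 : 1 ≤ n := by
    have : 0 < 2 ^ L := by positivity
    omega
  choose G' ζ g1 g2 g3 g4 using fun j => hens _ y (c j) (G j) B (hG j).1 (hG j).2.1 (hG j).2.2
  let S := PowerSeries (MvPolynomial (Fin d) ℂ)
  let φ : ℂ →+* S := PowerSeries.C.comp MvPolynomial.C
  have : CharZero S := charZero_of_injective_ringHom φ.injective
  have hD : IsUnit (Z.M.map (ev ζ)).det := by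
    rw [PowerSeries.isUnit_iff_constantCoeff, det_map]
    simp only [g4]
    rw [← det_map]
    exact (isUnit_det_of_right_inverse hN₀).map _
  obtain ⟨N, hN⟩ : ∃ N, Z.M.map (ev ζ) * N = 1 := ⟨_, mul_nonsing_inv _ hD⟩
  have hc : (Z.tr N).map PowerSeries.constantCoeff = (Z.tr N₀).map MvPolynomial.C := by
    have h1 := Z.inv_map PowerSeries.constantCoeff hN
    simp only [g4] at h1
    rw [tr_map, tr_map, ← inv_eq_right_inv h1, inv_eq_right_inv (Z.inv_map MvPolynomial.C hN₀)]
  have hrk : (Z.tr N₀ - Hm L ℂ).rank ≤ n := by omega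
  by_cases hA : ∃ (a b : Ix L) (x z : Fin (4 * n) → Ix L), Function.Injective z ∧
      ((Mg a b (Z.tr N)).submatrix x z).det ≠ 0
  · right
    obtain ⟨a, b, x, z, hz, h0⟩ := hA
    obtain ⟨Δ, q1, q2⟩ := Z.q1 a b x hz
    have q3 := q2 S ζ N hN
    have hnu : nu Δ ≤ 2 ^ ((2 * g + 1) * (32 * n)) :=
      q1.trans (Nat.pow_le_pow_right two_pos (by rw [hn] at hs; nlinarith))
    obtain ⟨D, d1, d2, d3⟩ := nrm elim k (Fin d) S (arcS y) ζ G' _ (B ^ 2 + B) _ (by omega)
      (by nlinarith) (fun j => ⟨g1 j, g2 j, g3 j⟩) hnu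
      (q3 ▸ mul_ne_zero (pow_ne_zero _ hD.ne_zero) h0)
    have ho : (PowerSeries.X : S) ^ (2 * n) ∣ ((Mg a b (Z.tr N)).submatrix x z).det := by
      refine ord ℂ S _ φ _ ((Mg a b (Z.tr N₀)).submatrix x z) _ _ (fun i j => ?_) ?_
      · have e0 : (Mg a b (Z.tr N)).map PowerSeries.constantCoeff =
            (Mg a b (Z.tr N₀)).map MvPolynomial.C := by rw [Mg_map, Mg_map, hc]
        have e := congrFun (congrFun e0 (x i)) (z j)
        rw [map_apply, map_apply] at e
        rw [PowerSeries.X_dvd_iff, map_sub, submatrix_apply, submatrix_apply, e]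
        generalize Mg a b (Z.tr N₀) _ _ = t
        simp [φ]
      · have e : Mg a b (Z.tr N₀) = Mg a b (Z.tr N₀ - Hm L ℂ) := by rw [Mg_sub, Mg_Hm, sub_zero]
        have := (rank_submatrix_le _ x z).trans (rank_Mg_le a b (Z.tr N₀ - Hm L ℂ))
        rw [e, Fintype.card_fin]
        omega
    refine kl (gel sup1) res d y D _ (2 * n) ?_ (by omega) (fun h => d1 (by rw [h, map_zero]))
      (ord_of_arcS (ho.trans ((Dvd.intro_left _ q3.symm).trans d2)))
      (d3.trans (le_of_eq (by congr 1; ring)))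
    exact Nat.mul_pos (by omega) (Nat.pow_pos (by omega))
  left
  push Not at hA
  let F := FractionRing S
  have hι : Function.Injective (algebraMap S F) := IsFractionRing.injective S F
  have : CharZero F := charZero_of_injective_ringHom hι
  obtain ⟨lam, hl⟩ := rig L (4 * n - 1) F (Z.tr (N.map (algebraMap S F)))
    (fun a b => by
      by_contra h
      obtain ⟨x, z, hz, h0⟩ := exists_minor (r := 4 * n)
        (A := Mg a b (Z.tr (N.map (algebraMap S F)))) (by omega)
      apply h0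
      rw [← tr_map, ← Mg_map, submatrix_map, ← RingHom.mapMatrix_apply, ← RingHom.map_det,
        hA a b x z hz, map_zero]) (by omega)
  refine Z.caseb (u := fun i => algebraMap S F (arcS y i)) (G := G') (lam := lam)
    (Z.inv_map (algebraMap S F) hN) hs hg (by omega)
    (fun P Q h => arcS_injective y (hι (by rwa [map_ev, map_ev]))) (fun j => ⟨g1 j,
      fun h => g2 j (by rw [h, map_zero]), ?_⟩) ?_ (by omega)
  · rw [← map_evX, Polynomial.eval_map_apply, g3, map_zero]
  · rintro rfl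
    rw [zero_smul, sub_zero, ← tr_map] at hl
    have h4 := rank_spec (algebraMap S F) hι
      (MvPolynomial.constantCoeff.comp PowerSeries.constantCoeff) (Z.tr N)
    have h5 : (Z.tr N).map (MvPolynomial.constantCoeff.comp PowerSeries.constantCoeff) =
        Z.tr N₀ := by
      ext i j
      have := congrFun (congrFun hc i) j
      rw [map_apply, map_apply] at this
      rw [map_apply, RingHom.comp_apply, this, MvPolynomial.constantCoeff_C]
    have h6 : (Hm L ℂ).rank = 2 ^ L := by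
      rw [rank_of_det_ne_zero, card_Ix]
      intro h
      have := congrArg det (Hm_mul_Hm (L := L) (T := ℂ))
      rw [det_mul, h, zero_mul, det_smul, det_one, mul_one] at this
      exact pow_ne_zero _ (pow_ne_zero _ two_ne_zero) this.symm
    have h7 := rank_sub_le' (Z.tr N₀) (Z.tr N₀ - Hm L ℂ)
    rw [sub_sub_cancel] at h7
    rw [h5] at h4
    omega

theorem descent {g W : ℕ} (hW : W = 64 * (k + 1) * (2 * g + 1)) {c : Fin k → ℂ}
    {N₀ : Matrix ν ν ℂ} (hN₀ : Z.M.map (ev c) * N₀ = 1) (hs : s ≤ g * 2 ^ L) (hg : 1 ≤ g)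
    (hr : 32 * (Z.tr N₀ - Hm L ℂ).rank ≤ 2 ^ L) (d : ℕ) : ∀ (t B : ℕ) (y : Fin d → ℂ)
    (G : Fin k → ZP (Option (Fin d))), d ≤ k → 1 ≤ t → 1 ≤ B → B ≤ W ^ t → St B c y G →
    L ≤ W ^ (8 * t * (2 ^ (2 * k + 3)) ^ d) := by
  have z0 : 64 ≤ W := by rw [hW]; nlinarith
  have key : ∀ t B m, 1 ≤ t → 1 ≤ B → B ≤ W ^ t → 0 < m →
      (72 * g * (k + 1) * (B ^ 2 + B)) ^ 2 ≤ W ^ (8 * t * m) := fun t B m ht hB1 hB hm =>
    calc _ ≤ (W * (W * B ^ 2)) ^ 2 := by
          gcongr
          · rw [hW]; nlinarith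
          · nlinarith
      _ ≤ (W * (W * (W ^ t) ^ 2)) ^ 2 := by gcongr
      _ = W ^ (4 * t + 4) := by ring
      _ ≤ _ := Nat.pow_le_pow_right (by omega) (by nlinarith)
  induction d with
  | zero =>
    intro t B y G _ ht hB1 hB hG
    rcases Z.step hN₀ hs hg hB1 hr hG with h | ⟨P, p1, p2, -⟩
    · exact h.trans (key t B _ ht hB1 hB (by positivity))
    · rw [P.eq_C_of_isEmpty] at p1 p2
      exact absurd (by simpa using p2) fun h : P.coeff 0 = 0 => p1 (by rw [h, map_zero])
  | succ d ih =>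
    intro t B y G hd ht hB1 hB hG
    rcases Z.step hN₀ hs hg hB1 hr hG with h | ⟨P, p1, p2, p3⟩
    · exact h.trans (key t B _ ht hB1 hB (by positivity))
    · have ha : 0 < (256 * (d + 1 + 1) ^ 2 * (16 * (2 * g + 1) * (3 * (B ^ 2 + B)) ^ k)) ^
        2 ^ (d + 1) := by positivity
      obtain ⟨y', G', h'⟩ := trans elim d k _ B c y G P ha hB1 hG p1 p2 p3
      refine (ih _ _ y' G' (by omega) (Nat.mul_pos ht (by positivity))
        (Nat.mul_pos (by omega) hB1) (le_trans ?_ (arith hW hd ht hB1 hB)) h').trans (le_of_eq ?_)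
      · gcongr; omega
      · congr 1; ring

theorem bound {g : ℕ} {c : Fin k → ℂ} {N₀ : Matrix ν ν ℂ} (hN₀ : Z.M.map (ev c) * N₀ = 1)
    (hs : s ≤ g * 2 ^ L) (hg : 1 ≤ g) (hr : 32 * (Z.tr N₀ - Hm L ℂ).rank ≤ 2 ^ L) :
    L ≤ (64 * (k + 1) * (2 * g + 1)) ^ 8 ^ (k + 1) ^ 2 := by
  have hev : ∀ j, evX c (MvPolynomial.X none - MvPolynomial.X (some j)) =
      Polynomial.X - Polynomial.C (c j) := fun j => by simp [evX]
  refine (Z.descent rfl hN₀ hs hg hr k 1 2 c
    (fun j => MvPolynomial.X none - MvPolynomial.X (some j)) le_rfl le_rfl one_le_two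
    (by rw [pow_one]; nlinarith [Nat.zero_le (k * g)]) fun j => ⟨(nu_sub _ _).trans (by simp), ?_, ?_⟩).trans ?_
  · rw [hev]; exact Polynomial.X_sub_C_ne_zero _
  · rw [hev]; simp
  · refine Nat.pow_le_pow_right (by positivity) ?_
    calc 8 * 1 * (2 ^ (2 * k + 3)) ^ k = 2 ^ ((2 * k + 3) * k + 3) := by
          rw [← pow_mul, pow_add, mul_comm]; rfl
      _ ≤ 2 ^ (3 * (k + 1) ^ 2) := Nat.pow_le_pow_right two_pos (by nlinarith)
      _ = 8 ^ (k + 1) ^ 2 := by rw [pow_mul]; rfl

end Pool.Agent.MP_5daf37_lc.FC.Rz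

end MrgPart10

-- marker of a merged file
example : 731051 + 744697 = 731051 + 744697 := rfl
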