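import Pool.Agent.MP_5daf37_lc.FC.Rz4

/-!
The realization attached to a circuit whose scalars are quotients of polynomials.
-/

open Matrix

namespace Pool.Agent.MP_5daf37_lc.FC

variable {F : Type} {n p q k L : ℕ}

theorem nu_le_of_degree {σ : Type} {P : ZP σ} {a : ℕ} (h1 : P.totalDegree ≤ a)
    (h2 : ∑ m ∈ P.support, (P.coeff m).natAbs ≤ 2 ^ a) : nu P ≤ 2 ^ (2 * a) := by
  rw [two_mul, pow_add]
  refine le_trans ?_ (Nat.mul_le_mul_right _ h2)
  rw [Finset.sum_mul]
  exact Finset.sum_le_sum fun m hm => Nat.mul_le_mul_left _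
    (Nat.pow_le_pow_right two_pos ((MvPolynomial.le_totalDegree hm).trans h1))

/-- One unknown for each edge and one for each node. -/
noncomputable def rz (C : Circuit F n p q) (f : Ix L → Fin n) (P Q : Fin q → ZP (Fin k))
    (a : Fin q → ℕ) (hP : ∀ e, nu (P e) ≤ 2 ^ (2 * a e)) (hQ : ∀ e, nu (Q e) ≤ 2 ^ (2 * a e)) :
    Rz k L (Fin q ⊕ Fin p) (3 * (p + q + ∑ e, a e)) where
  M := fromBlocks (diagonal Q) (-of fun e u => if C.tail e = u then P e else 0)
    (-of fun v e => if C.head e = v then 1 else 0) 1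
  out i := Sum.inr (C.output (f i))
  src := Sum.elim (fun _ => none) fun v =>
    if ∀ e, C.head e ≠ v then Function.partialInv f (C.label v) else none
  ρ := Sum.elim (fun e => 2 * a e + 2) fun v =>
    1 + (Finset.univ.filter fun e => C.head e = v).card
  hs := by
    rw [Fintype.sum_sum_type]
    simp only [Sum.elim_inl, Sum.elim_inr, Finset.sum_add_distrib, ← Finset.mul_sum]
    rw [← Finset.card_eq_sum_card_fiberwise fun e _ =>
      Finset.mem_coe.2 (Finset.mem_univ (C.head e))]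
    simp
    omega
  hρ := by
    rintro (e | v)
    · have h1 := hP e
      have h2 := hQ e
      have h3 : 1 ≤ 2 ^ (2 * a e) := Nat.one_le_two_pow
      simp [Fintype.sum_sum_type, diagonal_apply, apply_ite nu, pow_add]
      omega
    · have h4 := Nat.lt_two_pow_self (n := (Finset.univ.filter fun e => C.head e = v).card)
      simp [Fintype.sum_sum_type, one_apply, apply_ite nu, pow_add]
      omega

theorem rz_inv (C : Circuit F n p q) {f : Ix L → Fin n} (hf : Function.Injective f)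
    (P Q : Fin q → ZP (Fin k)) (a : Fin q → ℕ) (hP : ∀ e, nu (P e) ≤ 2 ^ (2 * a e))
    (hQ : ∀ e, nu (Q e) ≤ 2 ^ (2 * a e)) (c : Fin k → ℂ) (h0 : ∀ e, ev c (Q e) ≠ 0) :
    ∃ N₀, (rz C f P Q a hP hQ).M.map (ev c) * N₀ = 1 ∧
      (rz C f P Q a hP hQ).tr N₀ = Tm C f fun e => ev c (P e) / ev c (Q e) := by
  let w : Fin q → ℂ := fun e => ev c (P e) / ev c (Q e)
  let X : Matrix (Fin q) (Fin p) ℂ := of fun e u => if C.tail e = u then w e else 0
  let Y : Matrix (Fin p) (Fin q) ℂ := of fun v e => if C.head e = v then 1 else 0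
  let D : Matrix (Fin q) (Fin q) ℂ := diagonal fun e => ev c (Q e)
  let D' : Matrix (Fin q) (Fin q) ℂ := diagonal fun e => (ev c (Q e))⁻¹
  let K := (1 - Wm C w).adjugate
  have h1 : Y * X = Wm C w := by
    ext v u
    simp only [X, Y, Wm, mul_apply, of_apply]
    refine Finset.sum_congr rfl fun e _ => ?_
    by_cases h : C.head e = v <;> simp [h]
  have h2 : Y * (X * K) = K - 1 := by
    have : (1 - Wm C w) * K = 1 := by rw [mul_adjugate, det_one_sub_Wm, one_smul]
    rw [← Matrix.mul_assoc, h1, ← this, Matrix.sub_mul, Matrix.one_mul, sub_sub_cancel]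
  have h3 : D * D' = 1 := by
    rw [diagonal_mul_diagonal, ← diagonal_one]
    congr 1
    funext e
    exact mul_inv_cancel₀ (h0 e)
  have h4 : (rz C f P Q a hP hQ).M.map (ev c) = fromBlocks D (-(D * X)) (-Y) 1 := by
    ext (e | v) (e' | u)
    · simp [rz, D, diagonal_apply, apply_ite (ev c)]
    · simp only [rz, D, X, w, map_apply, fromBlocks_apply₁₂, Matrix.neg_apply, of_apply,
        diagonal_mul, map_neg, apply_ite (ev c), map_zero]
      split_ifs
      · rw [mul_div_cancel₀ _ (h0 e)]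
      · rw [mul_zero]
    · simp [rz, Y, apply_ite (ev c)]
    · simp [rz, one_apply, apply_ite (ev c)]
  refine ⟨fromBlocks (D' + X * K * Y * D') (X * K) (K * Y * D') K, ?_, ?_⟩
  · rw [h4, fromBlocks_multiply, ← fromBlocks_one]
    congr 1
    · simp [Matrix.mul_add, h3, Matrix.mul_assoc]
    · simp [Matrix.mul_assoc]
    · rw [Matrix.neg_mul, Matrix.mul_add, Matrix.mul_assoc (X * K), ← Matrix.mul_assoc Y (X * K), h2]
      simp [Matrix.sub_mul, Matrix.mul_assoc]
    · rw [Matrix.neg_mul, h2]; simp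
  · ext i j
    have h5 : ∀ v, Function.partialInv f (C.label v) = some j ↔ C.label v = f j := fun v =>
      (hf.isPartialInv j _).trans eq_comm
    simp only [Rz.tr, Rz.P, Rz.Q, Tm, Cm, Bm, rz, mul_apply, of_apply, Fintype.sum_sum_type]
    simp [h5, K, w]

theorem main' [Field F] [Algebra F ℂ] (C : Circuit F n p q) (t : Fin k → F) (E : Finset (Fin q))
    (hE : 64 * E.card ≤ n) (P Q : Fin q → MvPolynomial (Fin k) ℤ) (a : Fin q → ℕ)
    (hP : ∀ e ∉ E, (P e).totalDegree ≤ a e ∧
      ∑ m ∈ (P e).support, ((P e).coeff m).natAbs ≤ 2 ^ a e)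
    (hQ : ∀ e ∉ E, (Q e).totalDegree ≤ a e ∧
      ∑ m ∈ (Q e).support, ((Q e).coeff m).natAbs ≤ 2 ^ a e)
    (hw : ∀ e ∉ E, MvPolynomial.aeval t (Q e) ≠ 0 ∧
      C.weight e = MvPolynomial.aeval t (P e) / MvPolynomial.aeval t (Q e))
    (hC : C.Computes (Matrix.of fun i j : Fin n => ∏ l ∈ Finset.range n,
      if (i : ℕ).testBit l ∧ (j : ℕ).testBit l then (-1 : F) else 1)) :
    (n : ℝ) * ((Nat.log 2 n : ℝ) ^ ((1 : ℝ) / 8 ^ (k + 1) ^ 2) / (832 * (k + 1)) - 1) ≤
      p + q + ∑ e, (a e : ℝ) := by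
  rw [← Nat.cast_sum, ← Nat.cast_add, ← Nat.cast_add]
  set S := p + q + ∑ e, a e
  rcases Nat.eq_zero_or_pos n with rfl | hn
  · rw [Nat.cast_zero, zero_mul]; positivity
  set L := Nat.log 2 n
  have l1 : 2 ^ L ≤ n := Nat.pow_log_le_self 2 hn.ne'
  have l2 : n < 2 ^ (L + 1) := Nat.lt_pow_succ_log_self one_lt_two n
  have l3 : L < 2 ^ L := Nat.lt_two_pow_self
  rw [pow_succ] at l2
  have l4 : S < n * (S / n + 1) := Nat.lt_mul_div_succ _ hn
  let φ := algebraMap F ℂ
  let f : Ix L → Fin n := fun x => ⟨bits x, (bits_lt x).trans_le l1⟩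
  have hf : Function.Injective f := fun x y h => bits_injective (congrArg Fin.val h)
  have hev : ∀ R : ZP (Fin k), ev (fun j => φ (t j)) R = φ (MvPolynomial.aeval t R) :=
    fun R => (map_ev φ t R).symm
  obtain ⟨N₀, n1, n2⟩ := rz_inv C hf (fun e => if e ∈ E then 0 else P e)
    (fun e => if e ∈ E then 1 else Q e) a (fun e => by
      split_ifs with h
      · simp
      · exact nu_le_of_degree (hP e h).1 (hP e h).2) (fun e => by
      split_ifs with h
      · simpa using Nat.one_le_two_pow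
      · exact nu_le_of_degree (hQ e h).1 (hQ e h).2) (fun j => φ (t j)) fun e => by
      split_ifs with h
      · simp
      · rw [hev]; exact (map_ne_zero φ).2 (hw e h).1
  have hr := circ0 F φ n p q _ C _ f _ E hC fun e h =>
    show ev (fun j => φ (t j)) (if e ∈ E then 0 else P e) /
      ev (fun j => φ (t j)) (if e ∈ E then 1 else Q e) = _ by
      rw [if_neg h, if_neg h, hev, hev, (hw e h).2, map_div₀]
  have hA : (Matrix.of fun i j : Fin n => ∏ l ∈ Finset.range n,
      if (i : ℕ).testBit l ∧ (j : ℕ).testBit l then (-1 : F) else 1).submatrix f f = Hm L F := by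
    ext x y; exact prod_bits (l3.le.trans l1) x y
  rw [hA, Hm_map, ← n2] at hr
  have h := Rz.bound _ (g := 6 * (S / n + 1)) n1
    (show 3 * S ≤ _ by nlinarith [Nat.mul_le_mul_right (S / n + 1) l2.le])
    (Nat.mul_pos (by norm_num) (Nat.succ_pos _)) (by omega)
  have h2 : (L : ℝ) ^ ((1 : ℝ) / 8 ^ (k + 1) ^ 2) ≤
      ((64 * (k + 1) * (2 * (6 * (S / n + 1)) + 1) : ℕ) : ℝ) := by
    rw [one_div, Real.rpow_inv_le_iff_of_pos (by positivity) (by positivity) (by positivity)]
    exact_mod_cast h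
  have h3 : (n : ℝ) * (S / n : ℕ) ≤ S := by exact_mod_cast Nat.mul_div_le S n
  have h4 : (0 : ℝ) < n := by exact_mod_cast hn
  have h5 : (L : ℝ) ^ ((1 : ℝ) / 8 ^ (k + 1) ^ 2) / (832 * (k + 1)) ≤ (S / n : ℕ) + 1 := by
    rw [div_le_iff₀ (by positivity)]
    refine h2.trans ?_
    generalize S / n = m
    push_cast
    have : (0 : ℝ) ≤ m * (k + 1) := by positivity
    nlinarith
  nlinarith

end Pool.Agent.MP_5daf37_lc.FC
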